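import Mathlib

set_option autoImplicit false

open scoped ENNReal
open List

namespace Pool.Agent.Lib.MP64

/-- Vertices of the square lattice. -/
abbrev V := ℤ × ℤ

/-- Nearest-neighbour adjacency on the square lattice. -/
def Adj (p q : V) : Prop := |p.1 - q.1| + |p.2 - q.2| = 1

theorem Adj.symm {p q : V} (h : Adj p q) : Adj q p := by
  unfold Adj at *
  rw [abs_sub_comm q.1, abs_sub_comm q.2]
  exact h

theorem Adj.comm {p q : V} : Adj p q ↔ Adj q p := ⟨Adj.symm, Adj.symm⟩

theorem Adj.cases {p q : V} (h : Adj p q) :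
    (q.1 = p.1 + 1 ∧ q.2 = p.2) ∨ (q.1 = p.1 - 1 ∧ q.2 = p.2) ∨
    (q.1 = p.1 ∧ q.2 = p.2 + 1) ∨ (q.1 = p.1 ∧ q.2 = p.2 - 1) := by
  unfold Adj at h
  rcases abs_cases (p.1 - q.1) with h1 | h1 <;> rcases abs_cases (p.2 - q.2) with h2 | h2 <;> omega

theorem adj_iff {p q : V} : Adj p q ↔
    (q.1 = p.1 + 1 ∧ q.2 = p.2) ∨ (q.1 = p.1 - 1 ∧ q.2 = p.2) ∨
    (q.1 = p.1 ∧ q.2 = p.2 + 1) ∨ (q.1 = p.1 ∧ q.2 = p.2 - 1) := by
  refine ⟨Adj.cases, ?_⟩
  unfold Adj
  rcases abs_cases (p.1 - q.1) with h1 | h1 <;> rcases abs_cases (p.2 - q.2) with h2 | h2 <;> omega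

/-- Self-avoiding walk as a list of vertices. -/
def Saw (l : List V) : Prop := l.IsChain Adj ∧ l.Nodup

theorem Saw.nil : Saw [] := ⟨List.isChain_nil, List.nodup_nil⟩

theorem Saw.map {l : List V} (f : V → V) (hf : Function.Injective f)
    (hadj : ∀ p q, Adj p q → Adj (f p) (f q)) (h : Saw l) : Saw (l.map f) :=
  ⟨(List.isChain_map f).2 (h.1.imp (fun a b hab => hadj a b hab)), h.2.map hf⟩

theorem Saw.reverse {l : List V} (h : Saw l) : Saw l.reverse :=
  ⟨List.isChain_reverse.2 (h.1.imp (fun _ _ hab => hab.symm)), List.nodup_reverse.2 h.2⟩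

theorem saw_append {l m : List V} : Saw (l ++ m) ↔
    Saw l ∧ Saw m ∧ (∀ x ∈ l.getLast?, ∀ y ∈ m.head?, Adj x y) ∧ (∀ a ∈ l, ∀ b ∈ m, a ≠ b) := by
  unfold Saw
  rw [List.isChain_append, List.nodup_append]
  tauto

/-- Translation of the lattice. -/
def tr (s t : ℤ) (v : V) : V := (v.1 + s, v.2 + t)

theorem tr_injective (s t : ℤ) : Function.Injective (tr s t) := by
  intro a b h
  simp only [tr, Prod.mk.injEq] at h
  ext <;> omega

theorem tr_adj (s t : ℤ) (p q : V) (h : Adj p q) : Adj (tr s t p) (tr s t q) := by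
  rw [adj_iff] at *
  simp only [tr]
  omega

/-- Reflection `x ↦ s - x`. -/
def rf (s : ℤ) (v : V) : V := (s - v.1, v.2)

theorem rf_injective (s : ℤ) : Function.Injective (rf s) := by
  intro a b h
  simp only [rf, Prod.mk.injEq] at h
  ext <;> omega

theorem rf_rf (s : ℤ) (v : V) : rf s (rf s v) = v := by
  simp [rf]

theorem rf_adj (s : ℤ) (p q : V) (h : Adj p q) : Adj (rf s p) (rf s q) := by
  rw [adj_iff] at *
  simp only [rf]
  omega

/-- Vertical reflection. -/
def vr (v : V) : V := (v.1, - v.2)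

theorem vr_injective : Function.Injective vr := by
  intro a b h
  simp only [vr, Prod.mk.injEq] at h
  ext <;> omega

theorem vr_vr (v : V) : vr (vr v) = v := by
  simp [vr]

theorem vr_adj (p q : V) (h : Adj p q) : Adj (vr p) (vr q) := by
  rw [adj_iff] at *
  simp only [vr]
  omega

/-- Swap of coordinates. -/
def sw (v : V) : V := (v.2, v.1)

theorem sw_injective : Function.Injective sw := by
  intro a b h
  simp only [sw, Prod.mk.injEq] at h
  ext <;> omega

theorem sw_adj (p q : V) (h : Adj p q) : Adj (sw p) (sw q) := by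
  rw [adj_iff] at *
  simp only [sw]
  omega

theorem map_rf_map_rf (s : ℤ) (l : List V) : (l.map (rf s)).map (rf s) = l := by
  rw [List.map_map]
  have : rf s ∘ rf s = id := by
    funext v
    simp [rf_rf]
  rw [this, List.map_id]

theorem map_vr_map_vr (l : List V) : (l.map vr).map vr = l := by
  rw [List.map_map]
  have : vr ∘ vr = id := by
    funext v
    simp [vr_vr]
  rw [this, List.map_id]

theorem map_tr_map_tr (s t s' t' : ℤ) (l : List V) :
    (l.map (tr s t)).map (tr s' t') = l.map (tr (s + s') (t + t')) := by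
  rw [List.map_map]
  congr 1
  funext v
  simp only [tr, Function.comp_apply]
  ext <;> simp <;> ring

theorem map_tr_zero (l : List V) : l.map (tr 0 0) = l := by
  have : tr 0 0 = id := by
    funext v
    simp [tr]
  rw [this, List.map_id]

/-- Distance bound along a chain. -/
theorem chain_dist {l : List V} (h : l.IsChain Adj) : ∀ p q : V, l.head? = some p →
    l.getLast? = some q → |q.1 - p.1| + |q.2 - p.2| + 1 ≤ (l.length : ℤ) := by
  induction l with
  | nil => intro p q hp; simp at hp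
  | cons a l ih =>
    intro p q hp hq
    simp only [List.head?_cons, Option.some.injEq] at hp
    subst hp
    cases l with
    | nil =>
      simp only [List.getLast?_singleton, Option.some.injEq] at hq
      subst hq
      simp
    | cons b l =>
      rw [List.isChain_cons_cons] at h
      have h2 := ih h.2 b q rfl (by simpa [List.getLast?_cons_cons] using hq)
      have h3 := adj_iff.1 h.1
      simp only [List.length_cons] at h2 ⊢
      push_cast at h2 ⊢
      have e1 : |q.1 - a.1| ≤ |q.1 - b.1| + |b.1 - a.1| := abs_sub_le _ _ _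
      have e2 : |q.2 - a.2| ≤ |q.2 - b.2| + |b.2 - a.2| := abs_sub_le _ _ _
      have e3 : |b.1 - a.1| + |b.2 - a.2| = 1 := by
        have := h.1.symm
        exact this
      omega

/-- Every vertex of a chain is within `length - 1` of the head. -/
theorem chain_dist_mem {l : List V} (h : l.IsChain Adj) (p : V) (hp : l.head? = some p)
    (v : V) (hv : v ∈ l) : |v.1 - p.1| + |v.2 - p.2| + 1 ≤ (l.length : ℤ) := by
  obtain ⟨s, t, rfl⟩ := List.append_of_mem hv
  have h1 : (s ++ [v]).IsChain Adj := by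
    have : s ++ v :: t = (s ++ [v]) ++ t := by simp
    rw [this] at h
    exact (List.isChain_append.1 h).1
  have h2 : (s ++ [v]).head? = some p := by
    cases s with
    | nil => simpa using hp
    | cons a s => simpa using hp
  have h3 := chain_dist h1 p v h2 (by simp)
  simp only [List.length_append, List.length_cons, List.length_nil] at h3 ⊢
  push_cast at h3 ⊢
  omega

/-- Weight of a walk: product of vertex weights depending on the height. -/
noncomputable def wt (u : ℤ → ℝ≥0∞) (l : List V) : ℝ≥0∞ := (l.map (fun v => u v.2)).prod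

@[simp] theorem wt_nil (u : ℤ → ℝ≥0∞) : wt u [] = 1 := by simp [wt]

theorem wt_cons (u : ℤ → ℝ≥0∞) (v : V) (l : List V) : wt u (v :: l) = u v.2 * wt u l := by
  simp [wt]

theorem wt_append (u : ℤ → ℝ≥0∞) (l m : List V) : wt u (l ++ m) = wt u l * wt u m := by
  simp [wt]

theorem wt_reverse (u : ℤ → ℝ≥0∞) (l : List V) : wt u l.reverse = wt u l := by
  unfold wt
  rw [List.map_reverse, List.prod_reverse]

theorem wt_map_rf (u : ℤ → ℝ≥0∞) (s : ℤ) (l : List V) : wt u (l.map (rf s)) = wt u l := by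
  unfold wt
  rw [List.map_map]
  rfl

theorem wt_map_tr (u : ℤ → ℝ≥0∞) (s t : ℤ) (l : List V) :
    wt u (l.map (tr s t)) = wt (fun y => u (y + t)) l := by
  unfold wt
  rw [List.map_map]
  rfl

theorem wt_map_tr0 (u : ℤ → ℝ≥0∞) (s : ℤ) (l : List V) :
    wt u (l.map (tr s 0)) = wt u l := by
  rw [wt_map_tr]
  simp

theorem wt_map_vr (u : ℤ → ℝ≥0∞) (l : List V) : wt u (l.map vr) = wt (fun y => u (-y)) l := by
  unfold wt
  rw [List.map_map]
  rfl

theorem wt_mul (z : ℝ≥0∞) (u : ℤ → ℝ≥0∞) (l : List V) :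
    wt (fun y => z * u y) l = z ^ l.length * wt u l := by
  induction l with
  | nil => simp
  | cons v l ih =>
    rw [wt_cons, wt_cons, ih, List.length_cons, pow_succ]
    ring

theorem wt_const (z : ℝ≥0∞) (l : List V) : wt (fun _ => z) l = z ^ l.length := by
  have := wt_mul z (fun _ => 1) l
  simp only [mul_one] at this
  rw [this]
  have h1 : wt (fun _ => (1 : ℝ≥0∞)) l = 1 := by
    induction l with
    | nil => simp
    | cons v l ih =>
      rw [wt_cons, one_mul]
      apply ih
      exact wt_mul z (fun _ => 1) l ▸ (by simp)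
  rw [h1, mul_one]

theorem wt_mono {u u' : ℤ → ℝ≥0∞} (l : List V) (h : ∀ v ∈ l, u v.2 ≤ u' v.2) :
    wt u l ≤ wt u' l := by
  induction l with
  | nil => simp
  | cons v l ih =>
    rw [wt_cons, wt_cons]
    exact mul_le_mul' (h v (by simp)) (ih (fun w hw => h w (by simp [hw])))

theorem wt_congr {u u' : ℤ → ℝ≥0∞} (l : List V) (h : ∀ v ∈ l, u v.2 = u' v.2) :
    wt u l = wt u' l :=
  le_antisymm (wt_mono l (fun v hv => (h v hv).le)) (wt_mono l (fun v hv => (h v hv).ge))

theorem wt_eq_zero {u : ℤ → ℝ≥0∞} {l : List V} {v : V} (hv : v ∈ l) (h : u v.2 = 0) :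
    wt u l = 0 := by
  unfold wt
  apply List.prod_eq_zero
  rw [List.mem_map]
  exact ⟨v, hv, h⟩

theorem ne_zero_of_wt {u : ℤ → ℝ≥0∞} {l : List V} (h : wt u l ≠ 0) : ∀ v ∈ l, u v.2 ≠ 0 := by
  intro v hv h0
  exact h (wt_eq_zero hv h0)

/-- Comparison of sums through a surjection of the supports. -/
theorem tsum_le_of_surj {α β : Type*} (F : α → ℝ≥0∞) (G : β → ℝ≥0∞) (ψ : β → α)
    (h : ∀ a, F a ≠ 0 → ∃ b, ψ b = a ∧ F a ≤ G b) : ∑' a, F a ≤ ∑' b, G b := by
  classical
  have h0 : ∑' a, F a = ∑' a : Function.support F, F a := (tsum_subtype_support F).symm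
  rw [h0]
  choose φ hφ using h
  have h1 : ∀ a : Function.support F, F a ≤ G (φ a a.2) := fun a => (hφ a a.2).2
  refine (ENNReal.tsum_le_tsum h1).trans ?_
  refine ENNReal.tsum_comp_le_tsum_of_injective (f := fun a : Function.support F => φ a a.2) ?_ G
  intro a b hab
  have ha := (hφ a a.2).1
  have hb := (hφ b b.2).1
  simp only at hab
  rw [hab] at ha
  exact Subtype.ext (ha.symm.trans hb)

/-- Comparison of sums through an injection on the support. -/
theorem tsum_le_of_inj {α β : Type*} (F : α → ℝ≥0∞) (G : β → ℝ≥0∞) (φ : α → β)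
    (hinj : ∀ a a', F a ≠ 0 → F a' ≠ 0 → φ a = φ a' → a = a')
    (hle : ∀ a, F a ≠ 0 → F a ≤ G (φ a)) : ∑' a, F a ≤ ∑' b, G b := by
  classical
  have h0 : ∑' a, F a = ∑' a : Function.support F, F a := (tsum_subtype_support F).symm
  rw [h0]
  have h1 : ∀ a : Function.support F, F a ≤ G (φ a) := fun a => hle a a.2
  refine (ENNReal.tsum_le_tsum h1).trans ?_
  refine ENNReal.tsum_comp_le_tsum_of_injective (f := fun a : Function.support F => φ a) ?_ G
  intro a b hab
  exact Subtype.ext (hinj a b a.2 b.2 hab)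

open Classical in
/-- Weighted sum over the lists satisfying `P`. -/
noncomputable def S (u : ℤ → ℝ≥0∞) (P : List V → Prop) : ℝ≥0∞ :=
  ∑' l : List V, if P l then wt u l else 0

theorem S_mono_pred {u : ℤ → ℝ≥0∞} {P Q : List V → Prop} (h : ∀ l, P l → Q l) :
    S u P ≤ S u Q := by
  classical
  unfold S
  refine ENNReal.tsum_le_tsum (fun l => ?_)
  by_cases hp : P l
  · simp [hp, h l hp]
  · simp [hp]

theorem S_congr_pred {u : ℤ → ℝ≥0∞} {P Q : List V → Prop} (h : ∀ l, P l ↔ Q l) :
    S u P = S u Q :=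
  le_antisymm (S_mono_pred fun l => (h l).1) (S_mono_pred fun l => (h l).2)

theorem S_mono_wt {u u' : ℤ → ℝ≥0∞} {P : List V → Prop} (h : ∀ l, P l → wt u l ≤ wt u' l) :
    S u P ≤ S u' P := by
  classical
  unfold S
  refine ENNReal.tsum_le_tsum (fun l => ?_)
  by_cases hp : P l
  · simp [hp, h l hp]
  · simp [hp]

theorem S_le_of_surj {β : Type*} {u : ℤ → ℝ≥0∞} {P : List V → Prop} (G : β → ℝ≥0∞)
    (ψ : β → List V) (h : ∀ l, P l → wt u l ≠ 0 → ∃ b, ψ b = l ∧ wt u l ≤ G b) :
    S u P ≤ ∑' b, G b := by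
  classical
  unfold S
  refine tsum_le_of_surj _ _ ψ (fun l hl => ?_)
  by_cases hp : P l
  · simp only [hp, if_true] at hl ⊢
    exact h l hp hl
  · simp [hp] at hl

/-- Product of two `S` sums as a double sum. -/
theorem S_mul_S (u u' : ℤ → ℝ≥0∞) (P Q : List V → Prop) [DecidablePred P] [DecidablePred Q] :
    S u P * S u' Q = ∑' x : List V × List V,
      (if P x.1 ∧ Q x.2 then wt u x.1 * wt u' x.2 else 0) := by
  unfold S
  rw [ENNReal.tsum_prod (f := fun a b => if P a ∧ Q b then wt u a * wt u' b else 0)]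
  rw [← ENNReal.tsum_mul_right]
  congr 1
  funext l
  rw [← ENNReal.tsum_mul_left]
  congr 1
  funext m
  by_cases h1 : P l <;> by_cases h2 : Q m <;> simp [h1, h2]

end Pool.Agent.Lib.MP64
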