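import Pool.Agent.Lib.MP_64d71c_pr.Product

set_option autoImplicit false

open scoped ENNReal
open List

namespace Pool.Agent.Lib.MP64

theorem S_le_map {u u' : ℤ → ℝ≥0∞} {P Q : List V → Prop} (f g : List V → List V)
    (hfg : ∀ l, P l → f (g l) = l) (hQ : ∀ l, P l → Q (g l))
    (hw : ∀ l, P l → wt u l ≤ wt u' (g l)) : S u P ≤ S u' Q := by
  classical
  refine S_le_of_surj _ f (fun l hl _ => ⟨g l, hfg l hl, ?_⟩)
  rw [if_pos (hQ l hl)]
  exact hw l hl

theorem IsBr.tr0 {w : ℕ} {a b : ℤ} {l : List V} (h : IsBr w a b l) (t : ℤ) :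
    IsBr w (a + t) (b + t) (l.map (tr 0 t)) := by
  obtain ⟨h1, h2, h3, h4⟩ := h
  refine ⟨h1.map _ (tr_injective _ _) (tr_adj _ _), ?_, ?_, ?_⟩
  · rw [List.head?_map, h2]; simp [tr]
  · rw [List.getLast?_map, h3]; simp [tr]
  · intro v hv
    rw [List.mem_map] at hv
    obtain ⟨z, hz, rfl⟩ := hv
    have := h4 z hz
    simp only [tr]
    omega

theorem IsD.tr0 {w : ℕ} {a b : ℤ} {l : List V} (h : IsD w a b l) (t : ℤ) :
    IsD w (a + t) (b + t) (l.map (tr 0 t)) := by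
  obtain ⟨h1, h2, h3⟩ := h
  refine ⟨h1.map _ (tr_injective _ _) (tr_adj _ _), ?_, ?_⟩
  · intro v hv
    rw [List.mem_map] at hv
    obtain ⟨z, hz, rfl⟩ := hv
    have := h2 z hz
    simp only [tr]
    omega
  · rcases h3 with ⟨rfl, rfl⟩ | ⟨h3, x, h4⟩
    · left; simp
    · right
      refine ⟨?_, x, ?_⟩
      · rw [List.head?_map, h3]; simp [tr]
      · rw [List.getLast?_map, h4]; simp [tr]

theorem map_tr_cancel (t : ℤ) (l : List V) : (l.map (tr 0 t)).map (tr 0 (-t)) = l := by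
  rw [map_tr_map_tr]
  simp [map_tr_zero]

theorem B_tr (z : ℝ≥0∞) (w : ℕ) (a b t : ℤ) :
    B (fun _ => z) w (a + t) (b + t) = B (fun _ => z) w a b := by
  have key : ∀ a b t : ℤ, B (fun _ => z) w a b ≤ B (fun _ => z) w (a + t) (b + t) := by
    intro a b t
    refine S_le_map (List.map (tr 0 (-t))) (List.map (tr 0 t)) (fun l _ => map_tr_cancel t l)
      (fun l hl => hl.tr0 t) (fun l _ => ?_)
    rw [wt_map_tr]
  refine le_antisymm ?_ (key a b t)
  have := key (a + t) (b + t) (-t)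
  simpa using this

theorem D_tr (z : ℝ≥0∞) (w : ℕ) (a b t : ℤ) :
    D (fun _ => z) w (a + t) (b + t) = D (fun _ => z) w a b := by
  have key : ∀ a b t : ℤ, D (fun _ => z) w a b ≤ D (fun _ => z) w (a + t) (b + t) := by
    intro a b t
    refine S_le_map (List.map (tr 0 (-t))) (List.map (tr 0 t)) (fun l _ => map_tr_cancel t l)
      (fun l hl => hl.tr0 t) (fun l _ => ?_)
    rw [wt_map_tr]
  refine le_antisymm ?_ (key a b t)
  have := key (a + t) (b + t) (-t)
  simpa using this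

/-- Total slab generating function. -/
noncomputable def Dt (z : ℝ≥0∞) (w : ℕ) : ℝ≥0∞ := ∑' b, D (fun _ => z) w 0 b

/-- Total bridge generating function of width `w`. -/
noncomputable def Bt (z : ℝ≥0∞) (w : ℕ) : ℝ≥0∞ := ∑' b, B (fun _ => z) w 0 b

theorem tsum_D_from (z : ℝ≥0∞) (w : ℕ) (a : ℤ) : ∑' b, D (fun _ => z) w a b = Dt z w := by
  unfold Dt
  rw [← (Equiv.addRight a).tsum_eq]
  refine tsum_congr (fun b => ?_)
  simp only [Equiv.coe_addRight]
  have := D_tr z w 0 b a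
  rw [← this]
  simp

theorem tsum_D_to (z : ℝ≥0∞) (w : ℕ) (a : ℤ) : ∑' c, D (fun _ => z) w c a = Dt z w := by
  unfold Dt
  rw [← (Equiv.subLeft a).tsum_eq]
  refine tsum_congr (fun b => ?_)
  simp only [Equiv.subLeft_apply]
  have := D_tr z w 0 b (a - b)
  rw [← this]
  simp

theorem Dt_zero (z : ℝ≥0∞) : Dt z 0 = 1 := by
  unfold Dt
  rw [tsum_eq_single 0]
  · rw [D_zero]; simp
  · intro b hb
    rw [D_zero]
    simp [Ne.symm hb]

theorem Dt_succ_le (z : ℝ≥0∞) (w : ℕ) : Dt z (w + 1) ≤ (1 + Bt z (w + 1)) * Dt z w := by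
  calc Dt z (w + 1) ≤ ∑' b, (D (fun _ => z) w 0 b +
        ∑' c, B (fun _ => z) (w + 1) 0 c * D (fun _ => z) w c b) :=
        ENNReal.tsum_le_tsum (fun b => D_succ_le _ w 0 b)
    _ = Dt z w + ∑' c, ∑' b, B (fun _ => z) (w + 1) 0 c * D (fun _ => z) w c b := by
        rw [ENNReal.tsum_add, ENNReal.tsum_comm]
        rfl
    _ = Dt z w + ∑' c, B (fun _ => z) (w + 1) 0 c * Dt z w := by
        congr 1
        refine tsum_congr (fun c => ?_)
        rw [ENNReal.tsum_mul_left, tsum_D_from]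
    _ = (1 + Bt z (w + 1)) * Dt z w := by
        rw [ENNReal.tsum_mul_right]
        unfold Bt
        ring

theorem Dt_le_prod (z : ℝ≥0∞) (w : ℕ) :
    Dt z w ≤ ∏ i ∈ Finset.range w, (1 + Bt z (i + 1)) := by
  induction w with
  | zero => simp [Dt_zero]
  | succ w ih =>
    rw [Finset.prod_range_succ, mul_comm]
    exact (Dt_succ_le z w).trans (mul_le_mul' le_rfl ih)

theorem Wt_le (z : ℝ≥0∞) (n : ℕ) :
    ∑' b, S (fun _ => z) (IsW n 0 b) ≤ (Dt z n) ^ 2 := by
  calc ∑' b, S (fun _ => z) (IsW n 0 b)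
      ≤ ∑' b, ∑' c, D (fun _ => z) n c 0 * D (fun _ => z) n c b :=
        ENNReal.tsum_le_tsum (fun b => W_le _ n 0 b)
    _ = ∑' c, D (fun _ => z) n c 0 * Dt z n := by
        rw [ENNReal.tsum_comm]
        refine tsum_congr (fun c => ?_)
        rw [ENNReal.tsum_mul_left, tsum_D_from]
    _ = (Dt z n) ^ 2 := by
        rw [ENNReal.tsum_mul_right, tsum_D_to, sq]

/-- Walks with exactly `n` vertices starting at the origin. -/
def IsC (n : ℕ) (l : List V) : Prop := Saw l ∧ l.head? = some (0, 0) ∧ l.length = n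

/-- Weighted number of walks with `n` vertices from the origin. -/
noncomputable def cw (u : ℤ → ℝ≥0∞) (n : ℕ) : ℝ≥0∞ := S u (IsC n)

theorem S_length (z : ℝ≥0∞) (u : ℤ → ℝ≥0∞) (n : ℕ) {P : List V → Prop}
    (h : ∀ l, P l → l.length = n) : S (fun y => z * u y) P = z ^ n * S u P := by
  classical
  unfold S
  rw [← ENNReal.tsum_mul_left]
  refine tsum_congr (fun l => ?_)
  by_cases hp : P l
  · simp only [hp, if_true]
    rw [wt_mul, h l hp]
  · simp [hp]

theorem S_length_const (z : ℝ≥0∞) (n : ℕ) {P : List V → Prop}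
    (h : ∀ l, P l → l.length = n) : S (fun _ => z) P = z ^ n * S (fun _ => 1) P := by
  have := S_length z (fun _ => 1) n h
  simpa using this

theorem exists_getLast {l : List V} (h : l ≠ []) : ∃ v, l.getLast? = some v :=
  ⟨l.getLast h, List.getLast?_eq_getLast_of_ne_nil h⟩

theorem sum_cw_le (z : ℝ≥0∞) (n : ℕ) :
    ∑ k ∈ Finset.range (n + 1), z ^ k * cw (fun _ => 1) k ≤ (Dt z n) ^ 2 := by
  refine le_trans ?_ (Wt_le z n)
  calc ∑ k ∈ Finset.range (n + 1), z ^ k * cw (fun _ => 1) k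
      = ∑ k ∈ Finset.range (n + 1), S (fun _ => z) (IsC k) := by
        refine Finset.sum_congr rfl (fun k _ => ?_)
        unfold cw
        rw [S_length_const z k (fun l hl => hl.2.2)]
    _ = ∑ k ∈ Finset.range (n + 1), S (fun _ => z) (fun l => IsC k l ∧ k ≤ n) := by
        refine Finset.sum_congr rfl (fun k hk => ?_)
        refine S_congr_pred (fun l => ⟨fun h => ⟨h, ?_⟩, fun h => h.1⟩)
        simpa [Nat.lt_succ_iff] using hk
    _ ≤ ∑' k, S (fun _ => z) (fun l => IsC k l ∧ k ≤ n) := ENNReal.sum_le_tsum _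
    _ ≤ S (fun _ => z) (fun l => ∃ b, IsW n 0 b l) := by
        refine tsum_S_le _ ?_ ?_
        · rintro k l ⟨⟨h1, h2, h3⟩, h4⟩
          have hne : l ≠ [] := by rintro rfl; simp at h2
          obtain ⟨v, hv⟩ := exists_getLast hne
          exact ⟨v.2, h1, h2, ⟨v.1, hv⟩, by omega⟩
        · rintro i j l ⟨⟨_, _, h3⟩, _⟩ ⟨⟨_, _, h3'⟩, _⟩
          omega
    _ ≤ ∑' b, S (fun _ => z) (IsW n 0 b) := S_le_tsum _ (fun l h => h)

end Pool.Agent.Lib.MP64
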