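import Pool.Agent.Lib.MP_64d71c_pr.Polygon

set_option autoImplicit false

open scoped ENNReal
open List Filter Topology

namespace Pool.Agent.Lib.MP64

theorem exists_diverge {α : ℝ} (h : k2 < la α) : ∃ δ : ℝ, 0 < δ ∧
    S (fun y => ENNReal.ofReal (Real.exp (-(k2 + δ))) * hw α y) IsCl = ⊤ := by
  obtain ⟨s, hs, hA0⟩ := exists_B_hw_gt h
  obtain ⟨N, hA1⟩ := exists_trunc hA0
  -- choose a real `a > 0` with `exp a < A1`
  obtain ⟨a, ha, hA⟩ : ∃ a : ℝ, 0 < a ∧ ENNReal.ofReal (Real.exp a) <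
      B (trw N (fun y => zc * hw α y)) s 0 0 := by
    obtain ⟨x, hx1, hx2⟩ := exists_between hA1
    have hxtop : x ≠ ⊤ := ne_top_of_lt hx2
    have hx1' : 1 < x.toReal := by
      have := (ENNReal.toReal_lt_toReal ENNReal.one_ne_top hxtop).2 hx1
      simpa using this
    refine ⟨Real.log x.toReal, Real.log_pos hx1', ?_⟩
    rw [Real.exp_log (by linarith), ENNReal.ofReal_toReal hxtop]
    exact hx2
  have hs' : (0 : ℝ) < s := by exact_mod_cast hs
  set ε : ℝ := a / (4 * s) with hε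
  have hεpos : 0 < ε := by positivity
  obtain ⟨w, hw0, hP0⟩ := exists_B_gt hεpos
  have hw' : (0 : ℝ) < w := by exact_mod_cast hw0
  obtain ⟨N', hP⟩ := exists_trunc hP0
  set δ : ℝ := a / (4 * s * (2 * N + 2 * N' + 2)) with hδ
  have hδpos : 0 < δ := by positivity
  refine ⟨δ, hδpos, ?_⟩
  set q : ℝ≥0∞ := ENNReal.ofReal (Real.exp (-δ)) with hq
  have hq1 : q < 1 := ofReal_exp_neg_lt_one hδpos
  have hqz : q * zc = ENNReal.ofReal (Real.exp (-(k2 + δ))) := by
    rw [hq, zc, ← ENNReal.ofReal_mul (Real.exp_pos _).le, ← Real.exp_add]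
    congr 2
    ring
  rw [← hqz]
  -- lower bounds for the two kernels at `q * zc`
  have hA2 : ENNReal.ofReal (Real.exp (a - δ * (s * (2 * N + 1)))) ≤
      B (trw N (fun y => (q * zc) * hw α y)) s 0 0 := by
    refine le_trans ?_ (B_scale_ge (hw α) q zc hq1.le N s 0 0)
    refine le_trans ?_ (mul_le_mul' le_rfl hA.le)
    rw [hq, ← ENNReal.ofReal_pow (Real.exp_pos _).le, ← Real.exp_nat_mul,
      ← ENNReal.ofReal_mul (Real.exp_pos _).le, ← Real.exp_add]
    refine ENNReal.ofReal_le_ofReal (Real.exp_le_exp.2 (le_of_eq ?_))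
    push_cast
    ring
  have hP2 : ENNReal.ofReal (Real.exp (-ε * w - δ * (w * (2 * N' + 1)))) ≤
      B (trw N' (fun _ => q * zc)) w 0 0 := by
    have h1 := B_scale_ge (fun _ => 1) q zc hq1.le N' w 0 0
    simp only [mul_one] at h1
    refine le_trans ?_ h1
    refine le_trans ?_ (mul_le_mul' le_rfl hP.le)
    rw [hq, ← ENNReal.ofReal_pow (Real.exp_pos _).le, ← Real.exp_nat_mul,
      ← ENNReal.ofReal_mul (Real.exp_pos _).le, ← Real.exp_add]
    refine ENNReal.ofReal_le_ofReal (Real.exp_le_exp.2 (le_of_eq ?_))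
    push_cast
    ring
  set c0 : ℝ≥0∞ := ((q * zc) ^ (N + N' + 1 + 1) * ENNReal.ofReal (Real.exp α)) ^ 2 with hc0
  have hc0pos : c0 ≠ 0 := by
    rw [hc0, hqz]
    have h1 : ENNReal.ofReal (Real.exp (-(k2 + δ))) ≠ 0 :=
      (ENNReal.ofReal_pos.2 (Real.exp_pos _)).ne'
    have h2 : ENNReal.ofReal (Real.exp α) ≠ 0 := (ENNReal.ofReal_pos.2 (Real.exp_pos _)).ne'
    exact pow_ne_zero _ (mul_ne_zero (pow_ne_zero _ h1) h2)
  -- main lower bound
  have hmain : ∀ i : ℕ, c0 * ENNReal.ofReal (Real.exp ((i + 1) * (w * a / 2))) ≤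
      S (fun y => (q * zc) * hw α y) IsCl := by
    intro i
    have hk1 : w * (i + 1) - 1 + 1 = w * (i + 1) := by
      have : 0 < w * (i + 1) := by positivity
      omega
    have hk2 : s * (i + 1) - 1 + 1 = s * (i + 1) := by
      have : 0 < s * (i + 1) := by positivity
      omega
    have e1 := B_pow_le (trw N (fun y => (q * zc) * hw α y)) s (w * (i + 1) - 1)
    have e2 := B_pow_le (trw N' (fun _ => q * zc)) w (s * (i + 1) - 1)
    rw [hk1] at e1
    rw [hk2] at e2
    have ew : w * (s * (i + 1)) = s * (w * (i + 1)) := by ring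
    rw [ew] at e2
    refine le_trans ?_ (poly_sum_le (q * zc) α (s * (w * (i + 1))) N N')
    refine mul_le_mul' le_rfl ?_
    refine le_trans ?_ (mul_le_mul' e1 e2)
    refine le_trans ?_ (mul_le_mul' (pow_le_pow_left' hA2 _) (pow_le_pow_left' hP2 _))
    rw [← ENNReal.ofReal_pow (Real.exp_pos _).le, ← ENNReal.ofReal_pow (Real.exp_pos _).le,
      ← Real.exp_nat_mul, ← Real.exp_nat_mul, ← ENNReal.ofReal_mul (Real.exp_pos _).le,
      ← Real.exp_add]
    refine ENNReal.ofReal_le_ofReal (Real.exp_le_exp.2 ?_)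
    have h1 : ε * s = a / 4 := by
      rw [hε]; field_simp
    have h2 : δ * (s * (2 * N + 2 * N' + 2)) = a / 4 := by
      rw [hδ]; field_simp
    have h3 : (((w * (i + 1) : ℕ) : ℝ)) * (a - δ * (s * (2 * N + 1))) +
        (((s * (i + 1) : ℕ) : ℝ)) * (-ε * w - δ * (w * (2 * N' + 1))) =
        (i + 1) * w * (a - ε * s - δ * (s * (2 * N + 2 * N' + 2))) := by
      push_cast
      ring
    rw [h3, h1, h2]
    exact le_of_eq (by ring)
  by_contra htop
  -- the lower bounds are unbounded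
  have hlim : Tendsto (fun i : ℕ => ENNReal.ofReal (Real.exp (((i : ℝ) + 1) * (w * a / 2))))
      atTop (𝓝 ⊤) := by
    rw [ENNReal.tendsto_ofReal_nhds_top]
    refine Real.tendsto_exp_atTop.comp ?_
    refine Tendsto.atTop_mul_const (by positivity) ?_
    exact tendsto_atTop_add_const_right _ _ tendsto_natCast_atTop_atTop
  have hlim2 := ENNReal.Tendsto.const_mul (a := c0) hlim (Or.inl ENNReal.top_ne_zero)
  rw [ENNReal.mul_top hc0pos] at hlim2
  have hlim3 := le_of_tendsto hlim2 (Eventually.of_forall hmain)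
  exact htop (top_le_iff.1 hlim3)

end Pool.Agent.Lib.MP64
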