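import Pool.Agent.Lib.MP_64d71c_pr.Half

set_option autoImplicit false

open scoped ENNReal
open List Filter Topology

namespace Pool.Agent.Lib.MP64

theorem fekete (f : ℕ → ℝ≥0∞) (c M : ℝ) (hc : 0 < c) (hM : 0 < M) (h0 : f 0 = 0)
    (hlow : ∀ n, 0 < n → ENNReal.ofReal (c ^ n) ≤ f n)
    (hup : ∀ n, f n ≤ ENNReal.ofReal (M ^ n))
    (hmul : ∀ n m, f n * f m ≤ f (n + m)) :
    ∃ r : ℝ, Tendsto (fun n : ℕ => Real.log (f n).toReal / n) atTop (𝓝 r) ∧
      ∀ n : ℕ, f n ≤ ENNReal.ofReal (Real.exp (r * n)) := by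
  have hfin : ∀ n, f n ≠ ⊤ := fun n => ne_top_of_le_ne_top ENNReal.ofReal_ne_top (hup n)
  have hpos : ∀ n, 0 < n → 0 < (f n).toReal := by
    intro n hn
    refine ENNReal.toReal_pos ?_ (hfin n)
    have := hlow n hn
    intro h
    rw [h] at this
    have h2 : 0 < ENNReal.ofReal (c ^ n) := ENNReal.ofReal_pos.2 (pow_pos hc n)
    exact absurd this (not_le.2 h2)
  set u : ℕ → ℝ := fun n => - Real.log (f n).toReal with hu
  have hu0 : u 0 = 0 := by simp [hu, h0]
  have hsub : Subadditive u := by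
    intro m n
    rcases Nat.eq_zero_or_pos m with rfl | hm
    · rw [hu0, zero_add, zero_add]
    rcases Nat.eq_zero_or_pos n with rfl | hn
    · rw [hu0, add_zero, add_zero]
    simp only [hu]
    have h1 : (f m).toReal * (f n).toReal ≤ (f (m + n)).toReal := by
      rw [← ENNReal.toReal_mul]
      exact ENNReal.toReal_mono (hfin _) (hmul m n)
    have h2 := Real.log_le_log (mul_pos (hpos m hm) (hpos n hn)) h1
    rw [Real.log_mul (hpos m hm).ne' (hpos n hn).ne'] at h2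
    linarith
  have hbound : ∀ n : ℕ, Real.log (f n).toReal ≤ n * Real.log M := by
    intro n
    rcases Nat.eq_zero_or_pos n with rfl | hn
    · simp [h0]
    have h1 : (f n).toReal ≤ M ^ n := ENNReal.toReal_le_of_le_ofReal (pow_pos hM n).le (hup n)
    have h2 := Real.log_le_log (hpos n hn) h1
    rwa [Real.log_pow] at h2
  have hbdd : BddBelow (Set.range fun n : ℕ => u n / n) := by
    refine ⟨- |Real.log M|, ?_⟩
    rintro _ ⟨n, rfl⟩
    simp only [hu]
    rcases Nat.eq_zero_or_pos n with rfl | hn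
    · simp
    have hn' : (0 : ℝ) < n := by exact_mod_cast hn
    rw [le_div_iff₀ hn']
    have h1 := hbound n
    have h2 := le_abs_self (Real.log M)
    nlinarith
  refine ⟨- hsub.lim, ?_, ?_⟩
  · have := (hsub.tendsto_lim hbdd).neg
    refine this.congr (fun n => ?_)
    simp only [hu]
    ring
  · intro n
    rcases Nat.eq_zero_or_pos n with rfl | hn
    · simp [h0]
    have h1 := hsub.lim_le_div hbdd hn.ne'
    have hn' : (0 : ℝ) < n := by exact_mod_cast hn
    rw [le_div_iff₀ hn'] at h1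
    simp only [hu] at h1
    rw [← ENNReal.ofReal_toReal (hfin n)]
    refine ENNReal.ofReal_le_ofReal ?_
    rw [← Real.log_le_iff_le_exp (hpos n hn)]
    linarith

theorem bb_zero : bb 0 = 0 := by
  have := bb_le_cc 0
  rw [cc_zero] at this
  exact le_antisymm this zero_le

theorem exists_k2 : ∃ r : ℝ, Tendsto (fun n : ℕ => Real.log (bb n).toReal / n) atTop (𝓝 r) ∧
      ∀ n : ℕ, bb n ≤ ENNReal.ofReal (Real.exp (r * n)) := by
  refine fekete bb 1 4 one_pos (by norm_num) bb_zero ?_ ?_ bb_mul_le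
  · intro n hn
    simpa using le_bb n hn
  · intro n
    refine (bb_le_cc n).trans ((cc_le_pow n).trans (le_of_eq ?_))
    rw [ENNReal.ofReal_pow (by norm_num)]
    norm_num

/-- The logarithm of the connective constant. -/
noncomputable def k2 : ℝ := Classical.choose exists_k2

theorem k2_tendsto : Tendsto (fun n : ℕ => Real.log (bb n).toReal / n) atTop (𝓝 k2) :=
  (Classical.choose_spec exists_k2).1

theorem bb_le_exp (n : ℕ) : bb n ≤ ENNReal.ofReal (Real.exp (k2 * n)) :=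
  (Classical.choose_spec exists_k2).2 n

theorem cw_zero (u : ℤ → ℝ≥0∞) : cw u 0 = 0 := by
  classical
  unfold cw S
  rw [ENNReal.tsum_eq_zero]
  intro l
  rw [if_neg]
  rintro ⟨_, h1, h2⟩
  rw [List.length_eq_zero_iff] at h2
  subst h2
  simp at h1

theorem lb_zero (u : ℤ → ℝ≥0∞) : lb u 0 = 0 := by
  have := lb_le_cw u 0
  rw [cw_zero] at this
  exact le_antisymm this zero_le

theorem cw_le_pow (u : ℤ → ℝ≥0∞) (M : ℝ≥0∞) (h : ∀ y, u y ≤ M) (n : ℕ) :
    cw u n ≤ (4 * M) ^ n := by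
  have h1 : cw u n ≤ S (fun _ => M) (IsC n) := S_mono_wt (fun l _ => wt_mono l (fun v _ => h v.2))
  refine h1.trans ?_
  rw [S_length_const M n (fun l hl => hl.2.2)]
  have h2 : S (fun _ => 1) (IsC n) ≤ 4 ^ n := cc_le_pow n
  rw [mul_pow, mul_comm]
  exact mul_le_mul' h2 le_rfl

theorem hw_le (α : ℝ) (y : ℤ) : hw α y ≤ ENNReal.ofReal (Real.exp |α|) := by
  unfold hw
  split_ifs
  · exact zero_le
  · exact ENNReal.ofReal_le_ofReal (Real.exp_le_exp.2 (le_abs_self α))
  · rw [← ENNReal.ofReal_one]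
    exact ENNReal.ofReal_le_ofReal (Real.one_le_exp (abs_nonneg α))

theorem cw_hw_le_pow (α : ℝ) (n : ℕ) :
    cw (hw α) n ≤ ENNReal.ofReal ((4 * Real.exp |α|) ^ n) := by
  refine (cw_le_pow _ _ (hw_le α) n).trans (le_of_eq ?_)
  rw [ENNReal.ofReal_pow (by positivity), ENNReal.ofReal_mul (by norm_num)]
  norm_num

theorem exists_la (α : ℝ) : ∃ r : ℝ,
    Tendsto (fun n : ℕ => Real.log (lb (hw α) n).toReal / n) atTop (𝓝 r) ∧
      ∀ n : ℕ, lb (hw α) n ≤ ENNReal.ofReal (Real.exp (r * n)) := by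
  refine fekete _ (Real.exp α) (4 * Real.exp |α|) (Real.exp_pos _) (by positivity) (lb_zero _)
    ?_ ?_ (lb_mul_le _)
  · intro n hn
    have := le_lb (hw α) n hn
    rw [hw_zero, ← ENNReal.ofReal_pow (Real.exp_pos _).le] at this
    exact this
  · intro n
    exact (lb_le_cw _ n).trans (cw_hw_le_pow α n)

/-- Growth rate of weighted loop bridges. -/
noncomputable def la (α : ℝ) : ℝ := Classical.choose (exists_la α)

theorem la_tendsto (α : ℝ) :
    Tendsto (fun n : ℕ => Real.log (lb (hw α) n).toReal / n) atTop (𝓝 (la α)) :=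
  (Classical.choose_spec (exists_la α)).1

theorem lb_le_exp (α : ℝ) (n : ℕ) : lb (hw α) n ≤ ENNReal.ofReal (Real.exp (la α * n)) :=
  (Classical.choose_spec (exists_la α)).2 n

theorem tsum_geom_ne_top {r s : ℝ} (h : r < s) :
    ∑' n : ℕ, ENNReal.ofReal (Real.exp (-s)) ^ n * ENNReal.ofReal (Real.exp (r * n)) ≠ ⊤ := by
  have h1 : ∀ n : ℕ, ENNReal.ofReal (Real.exp (-s)) ^ n * ENNReal.ofReal (Real.exp (r * n)) =
      (ENNReal.ofReal (Real.exp (r - s))) ^ n := by
    intro n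
    rw [← ENNReal.ofReal_pow (Real.exp_pos _).le, ← ENNReal.ofReal_pow (Real.exp_pos _).le,
      ← ENNReal.ofReal_mul (by positivity), ← Real.exp_nat_mul, ← Real.exp_nat_mul,
      ← Real.exp_add]
    congr 2
    ring
  simp only [h1]
  rw [ENNReal.tsum_geometric]
  rw [ENNReal.inv_ne_top]
  have : ENNReal.ofReal (Real.exp (r - s)) < 1 := by
    rw [← ENNReal.ofReal_one]
    refine (ENNReal.ofReal_lt_ofReal_iff one_pos).2 ?_
    rw [Real.exp_lt_one_iff]
    linarith
  exact (tsub_pos_of_lt this).ne'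

theorem tsum_Bt_le (z : ℝ≥0∞) : ∑' i : ℕ, Bt z (i + 1) ≤ ∑' n : ℕ, z ^ n * bb n := by
  calc ∑' i : ℕ, Bt z (i + 1) = ∑' p : ℕ × ℤ, S (fun _ => z) (IsBr (p.1 + 1) 0 p.2) := by
        rw [ENNReal.tsum_prod (f := fun (i : ℕ) (b : ℤ) => S (fun _ => z) (IsBr (i + 1) 0 b))]
        rfl
    _ ≤ S (fun _ => z) (fun l => ∃ w b, IsBr w 0 b l) := by
        refine tsum_S_le _ ?_ ?_
        · rintro ⟨i, b⟩ l h
          exact ⟨i + 1, b, h⟩
        · rintro ⟨i, b⟩ ⟨i', b'⟩ l h h'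
          have e1 := h.2.2.1
          have e2 := h'.2.2.1
          rw [e1] at e2
          simp only [Option.some.injEq, Prod.mk.injEq] at e2
          ext
          · simp only
            omega
          · exact e2.2
    _ ≤ ∑' n, S (fun _ => z) (IsBB n) :=
        S_le_tsum _ (fun l ⟨w, b, h⟩ => ⟨l.length, ⟨w, b, h⟩, rfl⟩)
    _ = ∑' n : ℕ, z ^ n * bb n := by
        refine tsum_congr (fun n => ?_)
        rw [S_length_const z n (fun l hl => hl.2)]
        rfl

theorem Bk_le_tsum (z : ℝ≥0∞) (u : ℤ → ℝ≥0∞) (s : ℕ) :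
    Bk (fun y => z * u y) s 0 0 ≤ 1 + ∑' n : ℕ, z ^ n * lb u n := by
  unfold Bk
  by_cases hs : s = 0
  · simp [hs]
  · rw [if_neg hs]
    refine le_trans ?_ le_add_self
    calc B (fun y => z * u y) s 0 0 ≤ ∑' n, S (fun y => z * u y) (IsLB n) :=
          S_le_tsum _ (fun l h => ⟨l.length, ⟨s, h⟩, rfl⟩)
      _ = ∑' n : ℕ, z ^ n * lb u n := by
          refine tsum_congr (fun n => ?_)
          rw [S_length z u n (fun l hl => hl.2)]
          rfl

theorem cc_upper {κ' : ℝ} (h : k2 < κ') :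
    ∃ C : ℝ, 1 ≤ C ∧ ∀ n : ℕ, cc n ≤ ENNReal.ofReal (C * Real.exp (κ' * n)) := by
  set z : ℝ≥0∞ := ENNReal.ofReal (Real.exp (-κ')) with hz
  have h1 : ∑' i : ℕ, Bt z (i + 1) ≠ ⊤ := by
    refine ne_top_of_le_ne_top ?_ (tsum_Bt_le z)
    refine ne_top_of_le_ne_top (tsum_geom_ne_top h) ?_
    refine ENNReal.tsum_le_tsum (fun n => ?_)
    exact mul_le_mul' le_rfl (bb_le_exp n)
  set E := Real.exp (∑' i, Bt z (i + 1)).toReal with hE
  have hE1 : 1 ≤ E := Real.one_le_exp ENNReal.toReal_nonneg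
  have h2 : ∀ n, Dt z n ≤ ENNReal.ofReal E := by
    intro n
    exact (Dt_le_prod z n).trans (prod_one_add_le (fun i => Bt z (i + 1)) h1 n)
  refine ⟨E ^ 2, by nlinarith, ?_⟩
  intro n
  have h3 : z ^ n * cc n ≤ ENNReal.ofReal (E ^ 2) := by
    have e1 : z ^ n * cc n ≤ ∑ k ∈ Finset.range (n + 1), z ^ k * cw (fun _ => 1) k :=
      Finset.single_le_sum (f := fun k => z ^ k * cw (fun _ => 1) k) (fun _ _ => zero_le)
        (Finset.self_mem_range_succ n)
    refine e1.trans ((sum_cw_le z n).trans ?_)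
    rw [ENNReal.ofReal_pow (by positivity)]
    exact pow_le_pow_left' (h2 n) 2
  have h4 : cc n = ENNReal.ofReal (Real.exp (κ' * n)) * (z ^ n * cc n) := by
    rw [← mul_assoc, hz, ← ENNReal.ofReal_pow (Real.exp_pos _).le, ← Real.exp_nat_mul,
      ← ENNReal.ofReal_mul (Real.exp_pos _).le, ← Real.exp_add]
    have : κ' * n + n * -κ' = 0 := by ring
    rw [this]
    simp
  rw [h4, mul_comm (E ^ 2), ENNReal.ofReal_mul (Real.exp_pos _).le]
  exact mul_le_mul' le_rfl h3

theorem lo_upper (α : ℝ) {κ' : ℝ} (h : la α < κ') :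
    ∃ C : ℝ, 1 ≤ C ∧ ∀ n : ℕ, lo (hw α) n ≤ ENNReal.ofReal (C * Real.exp (κ' * n)) := by
  set s : ℝ := (la α + κ') / 2 with hs
  have hs1 : la α < s := by rw [hs]; linarith
  have hs2 : s < κ' := by rw [hs]; linarith
  set z : ℝ≥0∞ := ENNReal.ofReal (Real.exp (-s)) with hz
  set q : ℝ≥0∞ := ENNReal.ofReal (Real.exp (s - κ')) with hq
  have hq1 : q < 1 := by
    rw [hq, ← ENNReal.ofReal_one]
    refine (ENNReal.ofReal_lt_ofReal_iff one_pos).2 ?_
    rw [Real.exp_lt_one_iff]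
    linarith
  have hqz : q * z = ENNReal.ofReal (Real.exp (-κ')) := by
    rw [hq, hz, ← ENNReal.ofReal_mul (Real.exp_pos _).le, ← Real.exp_add]
    congr 2
    ring
  set K : ℝ≥0∞ := 1 + ∑' n : ℕ, z ^ n * lb (hw α) n with hK
  have hKtop : K ≠ ⊤ := by
    rw [hK]
    refine ENNReal.add_ne_top.2 ⟨ENNReal.one_ne_top, ?_⟩
    refine ne_top_of_le_ne_top (tsum_geom_ne_top hs1) ?_
    refine ENNReal.tsum_le_tsum (fun n => ?_)
    exact mul_le_mul' le_rfl (lb_le_exp α n)
  have hqs : ∑' i : ℕ, q ^ (i + 1) ≠ ⊤ := by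
    refine ne_top_of_le_ne_top (b := (1 - q)⁻¹) ?_ ?_
    · rw [ENNReal.inv_ne_top]
      exact (tsub_pos_of_lt hq1).ne'
    · rw [← ENNReal.tsum_geometric]
      exact ENNReal.tsum_comp_le_tsum_of_injective (f := fun i : ℕ => i + 1)
        (fun a b h => by simpa using h) (fun n => q ^ n)
  set E := Real.exp (∑' i : ℕ, q ^ (i + 1)).toReal with hE
  have hE1 : 1 ≤ E := Real.one_le_exp ENNReal.toReal_nonneg
  have hK1 : 1 ≤ K.toReal := by
    rw [← ENNReal.toReal_one]
    exact ENNReal.toReal_mono hKtop (by rw [hK]; exact le_self_add)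
  refine ⟨K.toReal * E ^ 2, by nlinarith, ?_⟩
  intro n
  have h3 : (q * z) ^ n * lo (hw α) n ≤ ENNReal.ofReal (K.toReal * E ^ 2) := by
    refine (lo_le (hw α) q z hq1 K (Bk_le_tsum z (hw α)) n).trans ?_
    rw [ENNReal.ofReal_mul ENNReal.toReal_nonneg, ENNReal.ofReal_toReal hKtop,
      ENNReal.ofReal_pow (by positivity)]
    exact mul_le_mul' le_rfl
      (pow_le_pow_left' (prod_one_add_le (fun i => q ^ (i + 1)) hqs n) 2)
  have h4 : lo (hw α) n = ENNReal.ofReal (Real.exp (κ' * n)) * ((q * z) ^ n * lo (hw α) n) := by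
    rw [← mul_assoc, hqz, ← ENNReal.ofReal_pow (Real.exp_pos _).le, ← Real.exp_nat_mul,
      ← ENNReal.ofReal_mul (Real.exp_pos _).le, ← Real.exp_add]
    have : κ' * n + n * -κ' = 0 := by ring
    rw [this]
    simp
  rw [h4, mul_comm (K.toReal * E ^ 2), ENNReal.ofReal_mul (Real.exp_pos _).le]
  exact mul_le_mul' le_rfl h3

end Pool.Agent.Lib.MP64
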