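import Pool.Agent.Lib.MP_64d71c_pr.PolyLimit

set_option autoImplicit false

open scoped ENNReal
open List Filter Topology

namespace Pool.Agent.Lib.MP64

theorem chain_parity {l : List V} (h : l.IsChain Adj) : ∀ p q : V, l.head? = some p →
    l.getLast? = some q → (q.1 + q.2 - p.1 - p.2 + l.length) % 2 = 1 := by
  induction l with
  | nil => intro p q hp; simp at hp
  | cons a l ih =>
    intro p q hp hq
    simp only [List.head?_cons, Option.some.injEq] at hp
    subst hp
    cases l with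
    | nil =>
      simp only [List.getLast?_singleton, Option.some.injEq] at hq
      subst hq
      simp only [List.length_cons, List.length_nil]
      push_cast
      omega
    | cons b l =>
      rw [List.isChain_cons_cons] at h
      have h2 := ih h.2 b q rfl (by simpa [List.getLast?_cons_cons] using hq)
      have h3 := adj_iff.1 h.1
      simp only [List.length_cons] at h2 ⊢
      push_cast at h2 ⊢
      omega

theorem IsCln.even {n : ℕ} {l : List V} (h : IsCln n l) : Even n := by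
  obtain ⟨⟨h1, h2, h3⟩, h4⟩ := h
  obtain ⟨v, hv⟩ := exists_getLast (ne_nil_of_head h2)
  have h5 := (h3 v hv).cases
  have h6 := chain_parity h1.1 _ _ h2 hv
  simp only at h5 h6
  rw [h4] at h6
  rw [Nat.even_iff]
  omega

theorem Qu_odd (u : ℤ → ℝ≥0∞) (k : ℕ) : Qu u (2 * k + 1) = 0 := by
  classical
  unfold Qu S
  rw [ENNReal.tsum_eq_zero]
  intro l
  rw [if_neg]
  intro h
  have := h.even
  rw [Nat.even_iff] at this
  omega

theorem S_IsCl_le (z : ℝ≥0∞) (u : ℤ → ℝ≥0∞) :
    S (fun y => z * u y) IsCl ≤ ∑' k : ℕ, z ^ (2 * k) * Qu u (2 * k) := by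
  calc S (fun y => z * u y) IsCl ≤ ∑' k, S (fun y => z * u y) (IsCln (2 * k)) := by
        refine S_le_tsum _ (fun l hl => ?_)
        have h : IsCln l.length l := ⟨hl, rfl⟩
        obtain ⟨r, hr⟩ := h.even
        exact ⟨r, hl, by omega⟩
    _ = ∑' k : ℕ, z ^ (2 * k) * Qu u (2 * k) := by
        refine tsum_congr (fun k => ?_)
        rw [S_length z u (2 * k) (fun l hl => hl.2)]
        rfl

/-- If loop bridges grow faster than `k2`, so do polygons. -/
theorem poly_gt {α L : ℝ} (h : k2 < la α) (hL : Tendsto (fun k : ℕ => (1 / ((2 * k : ℕ) : ℝ)) *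
    Real.log (Qu (hw α) (2 * k)).toReal) atTop (𝓝 L)) : k2 < L := by
  obtain ⟨δ, hδ, hdiv⟩ := exists_diverge h
  by_contra hcon
  push Not at hcon
  have hlt : L < k2 + δ := by linarith
  obtain ⟨s, hs1, hs2⟩ := exists_between hlt
  have hev := (tendsto_order.1 hL).2 s hs1
  obtain ⟨K, hK⟩ := eventually_atTop.1 hev
  -- eventually Qu (2k) ≤ exp (s * 2k)
  have hbd : ∀ k, max K 1 ≤ k → Qu (hw α) (2 * k) ≤ ENNReal.ofReal (Real.exp (s * (2 * k : ℕ))) := by
    intro k hk
    have hk0 : 0 < k := lt_of_lt_of_le one_pos ((le_max_right _ _).trans hk)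
    have h1 := hK k ((le_max_left _ _).trans hk)
    have hk' : (0 : ℝ) < ((2 * k : ℕ) : ℝ) := by positivity
    rw [one_div, inv_mul_lt_iff₀ hk'] at h1
    rw [← ENNReal.ofReal_toReal (Qu_ne_top α (2 * k))]
    refine ENNReal.ofReal_le_ofReal ?_
    rw [← Real.log_le_iff_le_exp (Qu_toReal_pos α hk0)]
    linarith
  set z : ℝ≥0∞ := ENNReal.ofReal (Real.exp (-(k2 + δ))) with hz
  have hfin : ∑' k : ℕ, z ^ (2 * k) * Qu (hw α) (2 * k) ≠ ⊤ := by
    have hsplit := Summable.sum_add_tsum_nat_add' (f := fun k : ℕ =>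
      z ^ (2 * k) * Qu (hw α) (2 * k)) (k := max K 1) ENNReal.summable
    rw [← hsplit]
    refine ENNReal.add_ne_top.2 ⟨?_, ?_⟩
    · refine ENNReal.sum_ne_top.2 (fun k _ => ?_)
      exact ENNReal.mul_ne_top (ENNReal.pow_ne_top ENNReal.ofReal_ne_top) (Qu_ne_top α _)
    · have hg := tsum_geom_ne_top hs2
      rw [← hz] at hg
      set g : ℕ → ℝ≥0∞ := fun n => z ^ n * ENNReal.ofReal (Real.exp (s * (n : ℝ))) with hgdef
      refine ne_top_of_le_ne_top hg ?_
      have hinj : Function.Injective (fun k : ℕ => 2 * (k + max K 1)) := by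
        intro a b h
        simp only at h
        omega
      refine le_trans (ENNReal.tsum_le_tsum (g := fun k => g (2 * (k + max K 1))) ?_)
        (ENNReal.tsum_comp_le_tsum_of_injective hinj g)
      intro k
      simp only [hgdef]
      exact mul_le_mul' le_rfl (hbd _ (by omega))
  have h1 := S_IsCl_le z (hw α)
  rw [hdiv, top_le_iff] at h1
  exact hfin h1

theorem hw_zero_le_one (y : ℤ) : hw 0 y ≤ 1 := by
  have := hw_le 0 y
  simpa using this

theorem poly_zero_le {L : ℝ} (hL : Tendsto (fun k : ℕ => (1 / ((2 * k : ℕ) : ℝ)) *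
    Real.log (Qu (hw 0) (2 * k)).toReal) atTop (𝓝 L)) : L ≤ k2 := by
  refine le_of_forall_gt_imp_ge_of_dense (fun κ' hκ' => ?_)
  obtain ⟨C, hC, h1⟩ := cc_upper hκ'
  have h2 : Tendsto (fun k : ℕ => (Real.log C / 2) / (k : ℝ) + κ') atTop (𝓝 (0 + κ')) :=
    (tendsto_const_div_atTop_nhds_zero_nat _).add tendsto_const_nhds
  rw [zero_add] at h2
  refine le_of_tendsto_of_tendsto hL h2 ?_
  filter_upwards [eventually_gt_atTop 0] with k hk
  have h3 : Qu (hw 0) (2 * k) ≤ cc (2 * k) := by
    refine (Qu_le_cw _ _).trans ?_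
    unfold cc cw
    exact S_mono_wt (fun l _ => wt_mono l (fun v _ => hw_zero_le_one v.2))
  have h4 := ENNReal.toReal_le_of_le_ofReal (by positivity) (h3.trans (h1 (2 * k)))
  have h5 := Real.log_le_log (Qu_toReal_pos 0 hk) h4
  rw [Real.log_mul (by positivity) (Real.exp_pos _).ne', Real.log_exp] at h5
  have hk' : (0 : ℝ) < ((2 * k : ℕ) : ℝ) := by positivity
  have hk'' : (0 : ℝ) < (k : ℝ) := by exact_mod_cast hk
  rw [one_div, inv_mul_le_iff₀ hk']
  refine h5.trans (le_of_eq ?_)
  push_cast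
  field_simp

theorem la_zero_le : la 0 ≤ k2 := by
  refine le_of_tendsto_of_tendsto (la_tendsto 0) k2_tendsto ?_
  filter_upwards [eventually_gt_atTop 0] with n hn
  have h1 : lb (hw 0) n ≤ bb n := by
    unfold lb bb
    refine (S_mono_wt (u' := fun _ => 1) (fun l _ => wt_mono l (fun v _ =>
      hw_zero_le_one v.2))).trans ?_
    refine S_mono_pred ?_
    rintro l ⟨⟨w, h⟩, h2⟩
    exact ⟨⟨w, 0, h⟩, h2⟩
  have h2 := Real.log_le_log (lb_toReal_pos 0 hn) (ENNReal.toReal_mono (bb_ne_top n) h1)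
  gcongr

/-- Rewriting the weighted count as a sum over the number of visits. -/
theorem sum_ncard {β : Type*} (s : Set β) (v : β → ℕ) (N : ℕ) (hv : ∀ w ∈ s, v w < N) (α : ℝ)
    (F : β → ℝ≥0∞) (hF : ∀ w ∈ s, F w = ENNReal.ofReal (Real.exp (α * v w)))
    (hF0 : ∀ w, w ∉ s → F w = 0) (hfin : ∑' w : β, F w ≠ ⊤) :
    ∑ m ∈ Finset.range N, ((({w | w ∈ s ∧ v w = m} : Set β).ncard : ℝ) * Real.exp (α * m)) =
      (∑' w : β, F w).toReal := by
  classical
  have h1 : ∑' w : β, F w = ∑ m ∈ Finset.range N,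
      ((({w | w ∈ s ∧ v w = m} : Set β).encard : ℝ≥0∞) * ENNReal.ofReal (Real.exp (α * m))) := by
    have h2 : ∀ w, F w = ∑ m ∈ Finset.range N,
        ({w | w ∈ s ∧ v w = m} : Set β).indicator
          (fun _ => ENNReal.ofReal (Real.exp (α * m))) w := by
      intro w
      by_cases hw : w ∈ s
      · rw [Finset.sum_eq_single (v w)]
        · rw [Set.indicator_of_mem (s := {w' | w' ∈ s ∧ v w' = v w}) ⟨hw, rfl⟩, hF w hw]
        · intro m _ hm
          rw [Set.indicator_of_notMem]
          rintro ⟨-, h⟩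
          exact hm h.symm
        · intro h
          exact absurd (Finset.mem_range.2 (hv w hw)) h
      · rw [hF0 w hw, Finset.sum_eq_zero]
        intro m _
        rw [Set.indicator_of_notMem]
        rintro ⟨h, -⟩
        exact hw h
    calc ∑' w : β, F w = ∑' w : β, ∑ m ∈ Finset.range N,
        ({w | w ∈ s ∧ v w = m} : Set β).indicator
          (fun _ => ENNReal.ofReal (Real.exp (α * m))) w := tsum_congr h2
      _ = ∑ m ∈ Finset.range N, ∑' w : β, ({w | w ∈ s ∧ v w = m} : Set β).indicator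
          (fun _ => ENNReal.ofReal (Real.exp (α * m))) w := by
          rw [Summable.tsum_finsetSum (fun _ _ => ENNReal.summable)]
      _ = _ := by
          refine Finset.sum_congr rfl (fun m _ => ?_)
          rw [← tsum_subtype, ENNReal.tsum_set_const]
  rw [h1] at hfin ⊢
  have h3 : ∀ m ∈ Finset.range N, ((({w | w ∈ s ∧ v w = m} : Set β).encard : ℝ≥0∞) *
      ENNReal.ofReal (Real.exp (α * m))) ≠ ⊤ := fun m hm => ENNReal.sum_ne_top.1 hfin m hm
  rw [ENNReal.toReal_sum h3]
  refine Finset.sum_congr rfl (fun m hm => ?_)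
  rw [ENNReal.toReal_mul, ENNReal.toReal_ofReal (Real.exp_pos _).le]
  congr 1
  have h4 : ({w | w ∈ s ∧ v w = m} : Set β).Finite := by
    rw [← Set.encard_ne_top_iff]
    intro htop
    have h5 := h3 m hm
    rw [htop] at h5
    apply h5
    rw [ENat.toENNReal_top, ENNReal.top_mul]
    exact (ENNReal.ofReal_pos.2 (Real.exp_pos _)).ne'
  rw [← h4.cast_ncard_eq]
  simp

theorem wt_hw_ofFn (α : ℝ) {n : ℕ} (w : Fin n → V) (h : ∀ i, 0 ≤ (w i).2) :
    wt (hw α) (List.ofFn w) = ENNReal.ofReal (Real.exp (α *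
      ((Finset.univ.filter (fun i : Fin n => (w i).2 = 0)).card : ℕ))) := by
  unfold wt
  rw [List.map_ofFn, List.prod_ofFn]
  have h1 : ∀ i : Fin n, ((fun v : V => hw α v.2) ∘ w) i =
      if (w i).2 = 0 then ENNReal.ofReal (Real.exp α) else 1 := by
    intro i
    simp only [Function.comp_apply, hw]
    rw [if_neg (not_lt.2 (h i))]
  rw [Finset.prod_congr rfl (fun i _ => h1 i), Finset.prod_ite, Finset.prod_const,
    Finset.prod_const_one, mul_one, ← ENNReal.ofReal_pow (Real.exp_pos _).le, ← Real.exp_nat_mul,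
    mul_comm]

theorem exists_ofFn {l : List V} {m : ℕ} (h : l.length = m) : ∃ w : Fin m → V, List.ofFn w = l := by
  subst h
  exact ⟨l.get, List.ofFn_get l⟩

theorem walk_sum (α : ℝ) (n : ℕ) :
    ∑ m ∈ Finset.range (n + 2),
            (({w : Fin (n + 1) → ℤ × ℤ |
                w 0 = 0 ∧ Function.Injective w ∧ (∀ i, 0 ≤ (w i).2) ∧
                (∀ i : Fin n, |(w i.succ).1 - (w i.castSucc).1|
                    + |(w i.succ).2 - (w i.castSucc).2| = 1) ∧
                (Finset.univ.filter (fun i : Fin (n + 1) => (w i).2 = 0)).card = m}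
              : Set (Fin (n + 1) → ℤ × ℤ)).ncard : ℝ) * Real.exp (α * (m : ℝ)) =
      (cw (hw α) (n + 1)).toReal := by
  classical
  set s : Set (Fin (n + 1) → ℤ × ℤ) := {w | w 0 = 0 ∧ Function.Injective w ∧
    (∀ i, 0 ≤ (w i).2) ∧ (∀ i : Fin n, |(w i.succ).1 - (w i.castSucc).1|
                    + |(w i.succ).2 - (w i.castSucc).2| = 1)} with hs
  set v : (Fin (n + 1) → ℤ × ℤ) → ℕ := fun w =>
    (Finset.univ.filter (fun i : Fin (n + 1) => (w i).2 = 0)).card with hv
  set F : (Fin (n + 1) → ℤ × ℤ) → ℝ≥0∞ := fun w =>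
    if IsC (n + 1) (List.ofFn w) then wt (hw α) (List.ofFn w) else 0 with hF
  have hiff : ∀ w : Fin (n + 1) → ℤ × ℤ, IsC (n + 1) (List.ofFn w) ↔ w 0 = 0 ∧
      Function.Injective w ∧ (∀ i : Fin n, |(w i.succ).1 - (w i.castSucc).1|
                    + |(w i.succ).2 - (w i.castSucc).2| = 1) := by
    intro w
    unfold IsC Saw
    rw [List.isChain_ofFn, List.nodup_ofFn]
    simp only [List.ofFn_succ, List.head?_cons, Option.some.injEq, List.length_cons,
      List.length_ofFn, and_true]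
    constructor
    · rintro ⟨⟨h1, h2⟩, h3⟩
      refine ⟨h3, h2, fun i => ?_⟩
      have := (h1 i.1 (by omega)).symm
      exact this
    · rintro ⟨h3, h2, h1⟩
      refine ⟨⟨fun i hi => ?_, h2⟩, h3⟩
      have : Adj (w ⟨i + 1, hi⟩) (w ⟨i, by omega⟩) := h1 ⟨i, by omega⟩
      exact this.symm
  have htsum : ∑' w, F w = cw (hw α) (n + 1) := by
    unfold cw S
    refine Function.Injective.tsum_eq (f := fun l : List V =>
      if IsC (n + 1) l then wt (hw α) l else 0) List.ofFn_injective ?_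
    intro l hl
    simp only [Function.mem_support, ne_eq, ite_eq_right_iff, not_forall] at hl
    have hlen : l.length = n + 1 := hl.1.2.2
    exact exists_ofFn hlen
  have hset : ∀ m : ℕ, ({w : Fin (n + 1) → ℤ × ℤ |
                w 0 = 0 ∧ Function.Injective w ∧ (∀ i, 0 ≤ (w i).2) ∧
                (∀ i : Fin n, |(w i.succ).1 - (w i.castSucc).1|
                    + |(w i.succ).2 - (w i.castSucc).2| = 1) ∧
                (Finset.univ.filter (fun i : Fin (n + 1) => (w i).2 = 0)).card = m}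
              : Set (Fin (n + 1) → ℤ × ℤ)) = {w | w ∈ s ∧ v w = m} := by
    intro m
    ext w
    simp only [hs, hv, Set.mem_ofPred_eq]
    tauto
  simp only [hset]
  rw [← htsum]
  refine sum_ncard s v (n + 2) ?_ α F ?_ ?_ ?_
  · intro w _
    simp only [hv]
    refine lt_of_le_of_lt (Finset.card_filter_le _ _) ?_
    simp
  · intro w hw'
    simp only [hF]
    rw [if_pos ((hiff w).2 ⟨hw'.1, hw'.2.1, hw'.2.2.2⟩), wt_hw_ofFn α w hw'.2.2.1]
  · intro w hw'
    simp only [hF]
    split_ifs with h1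
    · obtain ⟨h2, h3, h4⟩ := (hiff w).1 h1
      have h5 : ¬ ∀ i, 0 ≤ (w i).2 := fun h5 => hw' ⟨h2, h3, h5, h4⟩
      push Not at h5
      obtain ⟨i, hi⟩ := h5
      exact wt_eq_zero (v := w i) (List.mem_ofFn.2 ⟨i, rfl⟩) (hw_neg hi)
    · rfl
  · rw [htsum]
    exact cw_ne_top α _

end Pool.Agent.Lib.MP64
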