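import Pool.Agent.Lib.MP_64d71c_pr.Seq

set_option autoImplicit false

open scoped ENNReal
open List

namespace Pool.Agent.Lib.MP64

/-- Half-plane weights: `e^α` on the surface, `1` above it, `0` below it. -/
noncomputable def hw (α : ℝ) (y : ℤ) : ℝ≥0∞ :=
  if y < 0 then 0 else if y = 0 then ENNReal.ofReal (Real.exp α) else 1

theorem hw_zero (α : ℝ) : hw α 0 = ENNReal.ofReal (Real.exp α) := by simp [hw]

theorem hw_pos {α : ℝ} {y : ℤ} (h : 0 < y) : hw α y = 1 := by
  unfold hw
  rw [if_neg (by omega), if_neg (by omega)]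

theorem hw_neg {α : ℝ} {y : ℤ} (h : y < 0) : hw α y = 0 := by
  unfold hw
  rw [if_pos h]

theorem nonneg_of_hw {α : ℝ} {y : ℤ} (h : hw α y ≠ 0) : 0 ≤ y := by
  by_contra h1
  exact h (hw_neg (by omega))

theorem wt_hw_of_pos {α : ℝ} {l : List V} (h : ∀ v ∈ l, 0 < v.2) : wt (hw α) l = 1 := by
  have : wt (hw α) l = wt (fun _ => 1) l := wt_congr l (fun v hv => hw_pos (h v hv))
  rw [this, wt_const, one_pow]

theorem lo_le (u : ℤ → ℝ≥0∞) (q z : ℝ≥0∞) (hq : q < 1) (K : ℝ≥0∞)
    (hK : ∀ s, Bk (fun y => z * u y) s 0 0 ≤ K) (n : ℕ) :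
    (q * z) ^ n * lo u n ≤ K * (∏ i ∈ Finset.range n, (1 + q ^ (i + 1))) ^ 2 := by
  refine le_trans ?_ (sum_DD_le u q z hq K hK n)
  refine le_trans ?_ (W_le _ n 0 0)
  unfold lo
  rw [← S_length (q * z) u n (fun l hl => hl.2.2.2)]
  exact S_mono_pred (fun l hl => ⟨hl.1, hl.2.1, hl.2.2.1, hl.2.2.2.le⟩)

/-- Number of walks with `k` vertices, counting the empty one. -/
noncomputable def cc' (k : ℕ) : ℝ≥0∞ := if k = 0 then 1 else cc k

def IsC' (k : ℕ) (l : List V) : Prop := (l = [] ∧ k = 0) ∨ (IsC k l ∧ k ≠ 0)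

theorem S_IsC' (k : ℕ) : S (fun _ => 1) (IsC' k) = cc' k := by
  classical
  unfold cc'
  by_cases hk : k = 0
  · subst hk
    rw [if_pos rfl]
    unfold S
    rw [tsum_eq_single []]
    · simp [IsC']
    · intro l hl
      rw [if_neg]
      simp [IsC', hl]
  · rw [if_neg hk]
    unfold cc cw
    refine S_congr_pred (fun l => ?_)
    simp [IsC', hk]

theorem cw_hw_le (α : ℝ) (n : ℕ) :
    cw (hw α) n ≤ ∑ m ∈ Finset.range (n + 1), lo (hw α) m * cc' (n - m) := by
  classical
  have key : ∑' p : ℕ × (List V × List V), (if p.1 ≤ n ∧ IsLoop p.1 p.2.1 ∧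
      IsC' (n - p.1) p.2.2 then wt (hw α) p.2.1 * wt (fun _ => 1) p.2.2 else 0) =
      ∑ m ∈ Finset.range (n + 1), lo (hw α) m * cc' (n - m) := by
    rw [ENNReal.tsum_prod (f := fun (m : ℕ) (x : List V × List V) => if m ≤ n ∧ IsLoop m x.1 ∧
      IsC' (n - m) x.2 then wt (hw α) x.1 * wt (fun _ => 1) x.2 else 0)]
    rw [tsum_eq_sum (s := Finset.range (n + 1))]
    · refine Finset.sum_congr rfl (fun m hm => ?_)
      have hm' : m ≤ n := by simpa [Nat.lt_succ_iff] using hm
      rw [← S_IsC']
      unfold lo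
      rw [S_mul_S]
      simp [hm']
    · intro m hm
      have hm' : ¬ m ≤ n := by simpa [Nat.lt_succ_iff] using hm
      simp [hm']
  rw [← key]
  refine S_le_of_surj _ (fun p : ℕ × (List V × List V) =>
    p.2.1 ++ p.2.2.map (tr (lastv p.2.1).1 1)) ?_
  rintro l ⟨hs, hhead, hlen⟩ hwt
  have hnn : ∀ v ∈ l, 0 ≤ v.2 := fun v hv => nonneg_of_hw (ne_zero_of_wt hwt v hv)
  obtain ⟨l1, v, l2, rfl, hv0, hl2⟩ := exists_split_last (fun v : V => v.2 = 0) l
    ⟨(0, 0), List.mem_of_head? hhead, rfl⟩
  have hassoc : l1 ++ v :: l2 = (l1 ++ [v]) ++ l2 := by simp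
  have hpos : ∀ x ∈ l2, 0 < x.2 := by
    intro x hx
    have h1 := hnn x (by simp [hx])
    have h2 := hl2 x hx
    omega
  rw [hassoc] at hs hhead hlen
  obtain ⟨s1, s2, hadj, -⟩ := saw_append.1 hs
  have hlastv : lastv (l1 ++ [v]) = v := lastv_of (by simp)
  have h1 : IsLoop (l1 ++ [v]).length (l1 ++ [v]) := by
    refine ⟨s1, ?_, ⟨v.1, ?_⟩, rfl⟩
    · rw [List.head?_append_of_ne_nil _ (by simp)] at hhead
      exact hhead
    · simp only [List.getLast?_append, List.getLast?_singleton, Option.some_or]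
      congr 1
      ext
      · rfl
      · exact hv0
  have hlen2 : (l1 ++ [v]).length + l2.length = n := by
    rw [← hlen, List.length_append (as := l1 ++ [v]) (bs := l2)]
  have h2 : IsC' (n - (l1 ++ [v]).length) (l2.map (tr (-v.1) (-1))) := by
    cases l2 with
    | nil =>
      left
      refine ⟨rfl, ?_⟩
      simp only [List.length_nil] at hlen2
      omega
    | cons c l2 =>
      right
      have e1 := hadj v (by simp) c (by simp)
      have e4 := e1.cases
      have e6 := hpos c (by simp)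
      have e5 : c = (v.1, 1) := by
        ext
        · simp only
          omega
        · simp only
          omega
      refine ⟨⟨s2.map _ (tr_injective _ _) (tr_adj _ _), ?_, ?_⟩, ?_⟩
      · simp [e5, tr]
      · rw [List.length_map]
        omega
      · simp only [List.length_cons] at hlen2
        omega
  refine ⟨((l1 ++ [v]).length, (l1 ++ [v], l2.map (tr (-v.1) (-1)))), ?_, ?_⟩
  · simp only
    rw [hlastv, map_tr_map_tr, hassoc]
    simp [map_tr_zero]
  · simp only
    rw [if_pos ⟨by omega, h1, h2⟩, hassoc, wt_append, wt_hw_of_pos hpos, wt_const, one_pow]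

theorem le_cw_hw (α : ℝ) (n : ℕ) :
    ENNReal.ofReal (Real.exp α) * bb n ≤ cw (hw α) (n + 1) := by
  classical
  unfold bb cw S
  rw [← ENNReal.tsum_mul_left]
  refine tsum_le_of_inj _ _ (fun l : List V => (0, 0) :: l.map (fun v => (v.2, v.1 + 1))) ?_ ?_
  · intro l m _ _ h
    simp only [List.cons.injEq, true_and] at h
    refine List.map_injective_iff.2 ?_ h
    intro a b hab
    simp only [Prod.mk.injEq] at hab
    ext <;> omega
  · intro l hl
    have hl' : IsBB n l := by
      by_contra h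
      simp [h] at hl
    rw [if_pos hl']
    obtain ⟨⟨w, b, hs, hh, hlast, hbox⟩, hlen⟩ := hl'
    have hmap : Saw (l.map (fun v : V => (v.2, v.1 + 1))) := by
      refine hs.map _ ?_ ?_
      · intro a b hab
        simp only [Prod.mk.injEq] at hab
        ext <;> omega
      · intro p q hpq
        rw [adj_iff] at *
        simp only
        omega
    have hpos : ∀ v ∈ l.map (fun v : V => (v.2, v.1 + 1)), 0 < v.2 := by
      intro v hv
      rw [List.mem_map] at hv
      obtain ⟨x, hx, rfl⟩ := hv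
      have := (hbox x hx).1
      simp only
      omega
    rw [if_pos]
    · rw [wt_cons, hw_zero, wt_hw_of_pos hpos, wt_const, one_pow]
    · refine ⟨?_, rfl, by simp [hlen]⟩
      have e : ((0, 0) :: l.map (fun v : V => (v.2, v.1 + 1))) =
          [((0, 0) : V)] ++ l.map (fun v : V => (v.2, v.1 + 1)) := rfl
      rw [e, saw_append]
      refine ⟨⟨List.isChain_singleton _, List.nodup_singleton _⟩, hmap, ?_, ?_⟩
      · intro x hx y hy
        simp only [List.getLast?_singleton, Option.mem_def, Option.some.injEq] at hx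
        rw [List.head?_map, hh] at hy
        simp only [Option.map_some, Option.mem_def, Option.some.injEq] at hy
        subst hx; subst hy
        rw [adj_iff]
        simp
      · intro a ha c hc hac
        simp only [List.mem_singleton] at ha
        have := hpos c hc
        rw [← hac, ha] at this
        simp at this

theorem lb_le_cw (u : ℤ → ℝ≥0∞) (n : ℕ) : lb u n ≤ cw u n := by
  refine S_mono_pred ?_
  rintro l ⟨⟨w, h⟩, h2⟩
  exact ⟨h.1, h.2.1, h2⟩

end Pool.Agent.Lib.MP64
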