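import Pool.Agent.Lib.MP_64d71c_pr.Basic

set_option autoImplicit false

open scoped ENNReal
open List

namespace Pool.Agent.Lib.MP64

theorem append_split_eq {α : Type*} (p : α → Bool) {l m l' m' : List α}
    (hl : ∀ v ∈ l, p v = true) (hm : ∀ v ∈ m, p v = false)
    (hl' : ∀ v ∈ l', p v = true) (hm' : ∀ v ∈ m', p v = false)
    (h : l ++ m = l' ++ m') : l = l' ∧ m = m' := by
  have h1 : (l ++ m).filter p = l := by
    rw [List.filter_append, List.filter_eq_self.2 hl, List.filter_eq_nil_iff.2, List.append_nil]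
    intro a ha
    simp [hm a ha]
  have h2 : (l' ++ m').filter p = l' := by
    rw [List.filter_append, List.filter_eq_self.2 hl', List.filter_eq_nil_iff.2, List.append_nil]
    intro a ha
    simp [hm' a ha]
  have h3 : l = l' := by rw [← h1, ← h2, h]
  subst h3
  exact ⟨rfl, List.append_cancel_left h⟩

/-- Weak bridges of width `w` from height `a` to height `b`. -/
def IsBr (w : ℕ) (a b : ℤ) (l : List V) : Prop :=
  Saw l ∧ l.head? = some (0, a) ∧ l.getLast? = some ((w : ℤ) - 1, b) ∧
    ∀ v ∈ l, 0 ≤ v.1 ∧ v.1 ≤ (w : ℤ) - 1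

/-- Bridge kernel. -/
noncomputable def B (u : ℤ → ℝ≥0∞) (w : ℕ) (a b : ℤ) : ℝ≥0∞ := S u (IsBr w a b)

/-- Walks in the slab of width `w` starting in the first column at height `a`
and ending at height `b`, or the empty walk if `a = b`. -/
def IsD (w : ℕ) (a b : ℤ) (l : List V) : Prop :=
  Saw l ∧ (∀ v ∈ l, 0 ≤ v.1 ∧ v.1 ≤ (w : ℤ) - 1) ∧
    ((l = [] ∧ a = b) ∨ (l.head? = some (0, a) ∧ ∃ x, l.getLast? = some (x, b)))

/-- Slab kernel. -/
noncomputable def D (u : ℤ → ℝ≥0∞) (w : ℕ) (a b : ℤ) : ℝ≥0∞ := S u (IsD w a b)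

theorem IsBr.ne_nil {w : ℕ} {a b : ℤ} {l : List V} (h : IsBr w a b l) : l ≠ [] := by
  rintro rfl
  simpa using h.2.1

theorem IsBr.append {w w' : ℕ} {a b c : ℤ} {l m : List V} (h : IsBr w a c l)
    (h' : IsBr w' c b m) : IsBr (w + w') a b (l ++ m.map (tr w 0)) := by
  have hne := h.ne_nil
  have hne' := h'.ne_nil
  obtain ⟨h1, h2, h3, h4⟩ := h
  obtain ⟨h1', h2', h3', h4'⟩ := h'
  refine ⟨saw_append.2 ⟨h1, h1'.map _ (tr_injective _ _) (tr_adj _ _), ?_, ?_⟩, ?_, ?_, ?_⟩
  · intro x hx y hy
    rw [h3] at hx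
    rw [List.head?_map, h2'] at hy
    simp only [Option.mem_def, Option.some.injEq, Option.map_some] at hx hy
    subst hx; subst hy
    rw [adj_iff]
    simp [tr]
  · intro x hx y hy hxy
    rw [List.mem_map] at hy
    obtain ⟨z, hz, rfl⟩ := hy
    have e1 := h4 x hx
    have e2 := h4' z hz
    rw [hxy] at e1
    simp only [tr] at e1
    omega
  · rw [List.head?_append, h2]
    rfl
  · rw [List.getLast?_append, List.getLast?_map, h3']
    simp only [Option.map_some, tr, Option.some_or, add_zero, Option.some.injEq, Prod.mk.injEq,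
      and_true]
    push_cast
    ring
  · intro v hv
    rw [List.mem_append, List.mem_map] at hv
    rcases hv with hv | ⟨z, hz, rfl⟩
    · have := h4 v hv
      push_cast
      omega
    · have := h4' z hz
      simp only [tr]
      push_cast
      omega

theorem B_conv (u : ℤ → ℝ≥0∞) (w w' : ℕ) (a b : ℤ) :
    ∑' c, B u w a c * B u w' c b ≤ B u (w + w') a b := by
  classical
  unfold B
  simp only [S_mul_S]
  rw [← ENNReal.tsum_prod (f := fun (c : ℤ) (x : List V × List V) =>
    if IsBr w a c x.1 ∧ IsBr w' c b x.2 then wt u x.1 * wt u x.2 else 0)]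
  unfold S
  refine tsum_le_of_inj _ _ (fun p : ℤ × (List V × List V) => p.2.1 ++ p.2.2.map (tr w 0)) ?_ ?_
  · rintro ⟨c, l, m⟩ ⟨c', l', m'⟩ h h' heq
    simp only [ne_eq, ite_eq_right_iff, not_forall] at h h'
    obtain ⟨⟨h1, h2⟩, -⟩ := h
    obtain ⟨⟨h1', h2'⟩, -⟩ := h'
    simp only at heq
    have key := append_split_eq (fun v : V => decide (v.1 ≤ (w : ℤ) - 1)) (l := l) (l' := l')
      (m := m.map (tr w 0)) (m' := m'.map (tr w 0))
      (fun v hv => by simpa using (h1.2.2.2 v hv).2)
      (fun v hv => by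
        rw [List.mem_map] at hv
        obtain ⟨z, hz, rfl⟩ := hv
        have := (h2.2.2.2 z hz).1
        rw [decide_eq_false_iff_not]
        simp only [tr]
        omega)
      (fun v hv => by simpa using (h1'.2.2.2 v hv).2)
      (fun v hv => by
        rw [List.mem_map] at hv
        obtain ⟨z, hz, rfl⟩ := hv
        have := (h2'.2.2.2 z hz).1
        rw [decide_eq_false_iff_not]
        simp only [tr]
        omega) heq
    obtain ⟨rfl, hm⟩ := key
    have hm' := List.map_injective_iff.2 (tr_injective w 0) hm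
    subst hm'
    have hc : c = c' := by
      have e1 := h1.2.2.1
      rw [h1'.2.2.1] at e1
      simpa using e1.symm
    subst hc
    rfl
  · rintro ⟨c, l, m⟩ h
    simp only [ne_eq, ite_eq_right_iff, not_forall] at h
    obtain ⟨⟨h1, h2⟩, -⟩ := h
    simp only [h1, h2, and_self, if_true]
    rw [if_pos (h1.append h2), wt_append, wt_map_tr0]

theorem B_mul_le (u : ℤ → ℝ≥0∞) (w w' : ℕ) (a b c : ℤ) :
    B u w a c * B u w' c b ≤ B u (w + w') a b :=
  (ENNReal.le_tsum c).trans (B_conv u w w' a b)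

theorem IsBr.revrf {w : ℕ} {a b : ℤ} {l : List V} (h : IsBr w a b l) :
    IsBr w b a ((l.map (rf ((w : ℤ) - 1))).reverse) := by
  obtain ⟨h1, h2, h3, h4⟩ := h
  refine ⟨(h1.map _ (rf_injective _) (rf_adj _)).reverse, ?_, ?_, ?_⟩
  · rw [List.head?_reverse, List.getLast?_map, h3]
    simp [rf]
  · rw [List.getLast?_reverse, List.head?_map, h2]
    simp [rf]
  · intro v hv
    rw [List.mem_reverse, List.mem_map] at hv
    obtain ⟨z, hz, rfl⟩ := hv
    have := h4 z hz
    simp only [rf]
    omega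

theorem B_symm_le (u : ℤ → ℝ≥0∞) (w : ℕ) (a b : ℤ) : B u w a b ≤ B u w b a := by
  classical
  unfold B
  refine S_le_of_surj (β := List V) _ (fun l => ((l.map (rf ((w : ℤ) - 1))).reverse)) ?_
  intro l hl _
  refine ⟨(l.map (rf ((w : ℤ) - 1))).reverse, ?_, ?_⟩
  · simp only [List.map_reverse, List.reverse_reverse]
    rw [map_rf_map_rf]
  · rw [if_pos hl.revrf, wt_reverse, wt_map_rf]

theorem B_symm (u : ℤ → ℝ≥0∞) (w : ℕ) (a b : ℤ) : B u w a b = B u w b a :=
  le_antisymm (B_symm_le u w a b) (B_symm_le u w b a)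

/-- Splitting a list at the last element satisfying `p`. -/
theorem exists_split_last {α : Type*} (p : α → Prop) [DecidablePred p] (l : List α)
    (h : ∃ v ∈ l, p v) : ∃ l1 v l2, l = l1 ++ v :: l2 ∧ p v ∧ ∀ x ∈ l2, ¬ p x := by
  induction l with
  | nil => simp at h
  | cons a l ih =>
    by_cases h' : ∃ v ∈ l, p v
    · obtain ⟨l1, v, l2, rfl, h2, h3⟩ := ih h'
      exact ⟨a :: l1, v, l2, rfl, h2, h3⟩
    · push Not at h'
      obtain ⟨v, hv, hp⟩ := h
      rcases List.mem_cons.1 hv with rfl | hv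
      · exact ⟨[], v, l, rfl, hp, h'⟩
      · exact absurd hp (h' v hv)

/-- Splitting a list at the first element satisfying `p`. -/
theorem exists_split_first {α : Type*} (p : α → Prop) [DecidablePred p] (l : List α)
    (h : ∃ v ∈ l, p v) : ∃ l1 v l2, l = l1 ++ v :: l2 ∧ p v ∧ ∀ x ∈ l1, ¬ p x := by
  induction l with
  | nil => simp at h
  | cons a l ih =>
    by_cases h' : p a
    · exact ⟨[], a, l, rfl, h', by simp⟩
    · have : ∃ v ∈ l, p v := by
        obtain ⟨v, hv, hp⟩ := h
        rcases List.mem_cons.1 hv with rfl | hv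
        · exact absurd hp h'
        · exact ⟨v, hv, hp⟩
      obtain ⟨l1, v, l2, rfl, h2, h3⟩ := ih this
      refine ⟨a :: l1, v, l2, rfl, h2, ?_⟩
      intro x hx
      rcases List.mem_cons.1 hx with rfl | hx
      · exact h'
      · exact h3 x hx

theorem S_or_le {u : ℤ → ℝ≥0∞} {P Q R : List V → Prop} (h : ∀ l, P l → Q l ∨ R l) :
    S u P ≤ S u Q + S u R := by
  classical
  unfold S
  rw [← ENNReal.tsum_add]
  refine ENNReal.tsum_le_tsum (fun l => ?_)
  by_cases hp : P l
  · rcases h l hp with hq | hr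
    · simp [hp, hq]
    · simp [hp, hr]
  · simp [hp]

theorem D_succ_le (u : ℤ → ℝ≥0∞) (w : ℕ) (a b : ℤ) :
    D u (w + 1) a b ≤ D u w a b + ∑' c, B u (w + 1) a c * D u w c b := by
  classical
  have h0 : D u (w + 1) a b ≤ D u w a b +
      S u (fun l => IsD (w + 1) a b l ∧ ∃ v ∈ l, v.1 = (w : ℤ)) := by
    refine S_or_le (fun l hl => ?_)
    by_cases h : ∃ v ∈ l, v.1 = (w : ℤ)
    · exact Or.inr ⟨hl, h⟩
    · left
      refine ⟨hl.1, fun v hv => ?_, hl.2.2⟩
      have h1 := hl.2.1 v hv
      have h2 : v.1 ≠ w := fun h2 => h ⟨v, hv, h2⟩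
      push_cast at h1
      omega
  refine h0.trans (add_le_add le_rfl ?_)
  unfold B D
  simp only [S_mul_S]
  rw [← ENNReal.tsum_prod (f := fun (c : ℤ) (x : List V × List V) =>
    if IsBr (w + 1) a c x.1 ∧ IsD w c b x.2 then wt u x.1 * wt u x.2 else 0)]
  refine S_le_of_surj _ (fun p : ℤ × (List V × List V) =>
    p.2.1 ++ p.2.2.map (rf ((w : ℤ) - 1))) ?_
  rintro l ⟨⟨hs, hx, hd⟩, hv⟩ -
  obtain ⟨l1, v, l2, rfl, hvw, hl2⟩ := exists_split_last (fun v : V => v.1 = (w : ℤ)) l hv
  have hd' : (l1 ++ v :: l2).head? = some (0, a) ∧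
      ∃ x, (l1 ++ v :: l2).getLast? = some (x, b) := by
    rcases hd with ⟨h, -⟩ | h
    · simp at h
    · exact h
  obtain ⟨hhead, x, hlast⟩ := hd'
  have hassoc : l1 ++ v :: l2 = (l1 ++ [v]) ++ l2 := by simp
  rw [hassoc] at hs hhead hlast hx
  obtain ⟨hs1, hs2, hadj, hdisj⟩ := saw_append.1 hs
  have hA : IsBr (w + 1) a v.2 (l1 ++ [v]) := by
    refine ⟨hs1, ?_, ?_, ?_⟩
    · cases l1 with
      | nil => simpa using hhead
      | cons c l1 => simpa using hhead
    · simp only [List.getLast?_append, List.getLast?_singleton, Option.some_or]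
      congr 1
      ext
      · simp [hvw]
      · simp
    · intro y hy
      exact hx y (List.mem_append_left _ hy)
  have hB : IsD w v.2 b (l2.map (rf ((w : ℤ) - 1))) := by
    refine ⟨hs2.map _ (rf_injective _) (rf_adj _), ?_, ?_⟩
    · intro y hy
      rw [List.mem_map] at hy
      obtain ⟨z, hz, rfl⟩ := hy
      have e1 := hx z (List.mem_append_right _ hz)
      have e2 := hl2 z hz
      simp only [rf]
      push_cast at e1
      omega
    · cases l2 with
      | nil =>
        left
        simp only [List.append_nil, List.getLast?_append, List.getLast?_singleton,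
          Option.some_or, Option.some.injEq] at hlast
        simp [hlast]
      | cons c l2 =>
        right
        have e1 := hadj v (by simp) c (by simp)
        have e2 := hx c (List.mem_append_right _ (by simp))
        have e3 := hl2 c (by simp)
        have e4 := e1.cases
        have e5 : c = ((w : ℤ) - 1, v.2) := by
          ext
          · simp only
            push_cast at e2
            omega
          · simp only
            push_cast at e2
            omega
        refine ⟨?_, (w : ℤ) - 1 - x, ?_⟩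
        · simp [e5, rf]
        · rw [List.getLast?_map]
          rw [List.getLast?_append_of_ne_nil _ (by simp)] at hlast
          rw [hlast]
          simp [rf]
  refine ⟨(v.2, (l1 ++ [v], l2.map (rf ((w : ℤ) - 1)))), ?_, ?_⟩
  · simp only
    rw [map_rf_map_rf]
    simp
  · simp only
    rw [if_pos ⟨hA, hB⟩, wt_map_rf, ← wt_append]
    simp

theorem D_zero (u : ℤ → ℝ≥0∞) (a b : ℤ) : D u 0 a b = if a = b then 1 else 0 := by
  classical
  unfold D S
  rw [tsum_eq_single []]
  · by_cases h : a = b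
    · rw [if_pos h, if_pos]
      · simp
      · exact ⟨Saw.nil, by simp, Or.inl ⟨rfl, h⟩⟩
    · rw [if_neg h, if_neg]
      rintro ⟨-, -, h1⟩
      simp [h] at h1
  · intro l hl
    rw [if_neg]
    rintro ⟨-, h1, -⟩
    cases l with
    | nil => exact hl rfl
    | cons c l =>
      have := h1 c (by simp)
      simp at this
      omega

end Pool.Agent.Lib.MP64
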