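import Pool.Agent.Lib.MP_64d71c_pr.Root2
import Pool.Agent.Lib.MP_64d71c_pr.Diverge

set_option autoImplicit false

open scoped ENNReal
open List Filter Topology

namespace Pool.Agent.Lib.MP64

/-- Elementary piece of width one. -/
theorem le_T_one (u : ℤ → ℝ≥0∞) (a : ℤ) : u a * u (a + 1) ≤ T u 2 1 a a := by
  classical
  unfold T TT
  refine le_trans ?_ (ENNReal.le_tsum (([(0, a)], [(0, a + 1)]) : List V × List V))
  rw [if_pos]
  · simp [wt]
  · refine ⟨⟨List.isChain_singleton _, List.nodup_singleton _⟩,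
      ⟨List.isChain_singleton _, List.nodup_singleton _⟩, ?_, rfl, rfl, Or.inl ⟨by simp, by simp⟩,
      by simp, by simp, rfl⟩
    intro x hx v hv h
    simp only [List.mem_singleton] at hx hv
    rw [hx, hv] at h
    simp at h

theorem le_Tt_one (u : ℤ → ℝ≥0∞) : u 0 * u 1 ≤ Tt u 2 1 0 0 := by
  classical
  unfold Tt TT
  refine le_trans ?_ (ENNReal.le_tsum (([(0, 0)], [(0, 1)]) : List V × List V))
  rw [if_pos]
  · simp [wt]
  · refine ⟨⟨⟨List.isChain_singleton _, List.nodup_singleton _⟩,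
      ⟨List.isChain_singleton _, List.nodup_singleton _⟩, ?_, rfl, rfl, Or.inl ⟨by simp, by simp⟩,
      by simp, by simp, rfl⟩, Or.inl ⟨(0, 0), by simp, rfl⟩⟩
    intro x hx v hv h
    simp only [List.mem_singleton] at hx hv
    rw [hx, hv] at h
    simp at h

theorem hw_ge (α : ℝ) {y : ℤ} (hy : 0 ≤ y) : ENNReal.ofReal (Real.exp (-|α|)) ≤ hw α y := by
  unfold hw
  rw [if_neg (by omega)]
  split_ifs
  · exact ENNReal.ofReal_le_ofReal (Real.exp_le_exp.2 (neg_abs_le α))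
  · rw [← ENNReal.ofReal_one]
    exact ENNReal.ofReal_le_ofReal (Real.exp_le_one_iff.2 (neg_nonpos.2 (abs_nonneg α)))

/-- The cost of an elementary piece. -/
noncomputable def ec (α : ℝ) : ℝ≥0∞ := ENNReal.ofReal (Real.exp (-(2 * |α|)))

theorem ec_le_T (α : ℝ) {a : ℤ} (ha : 0 ≤ a) : ec α ≤ T (hw α) 2 1 a a := by
  refine le_trans ?_ (le_T_one (hw α) a)
  have h1 : ec α = ENNReal.ofReal (Real.exp (-|α|)) * ENNReal.ofReal (Real.exp (-|α|)) := by
    unfold ec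
    rw [← ENNReal.ofReal_mul (Real.exp_pos _).le, ← Real.exp_add]
    congr 2
    ring
  rw [h1]
  exact mul_le_mul' (hw_ge α ha) (hw_ge α (by omega))

theorem Tt_ext (α : ℝ) (n w : ℕ) (a b : ℤ) (hb : 0 ≤ b) (r : ℕ) :
    Tt (hw α) n w a b * (ec α) ^ r ≤ Tt (hw α) (n + 2 * r) (w + r) a b := by
  induction r with
  | zero => simp
  | succ r ih =>
    rw [pow_succ, ← mul_assoc]
    refine (mul_le_mul' ih (ec_le_T α hb)).trans ?_
    refine (Tt_mul_T _ _ _ _ _ _ _ _).trans (le_of_eq ?_)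
    congr 1

theorem Tt_pow (u : ℤ → ℝ≥0∞) (n w : ℕ) (a : ℤ) (k : ℕ) :
    (Tt u n w a a) ^ (k + 1) ≤ Tt u (n * (k + 1)) (w * (k + 1)) a a := by
  induction k with
  | zero => simp
  | succ k ih =>
    rw [pow_succ]
    refine (mul_le_mul' ih le_rfl).trans ?_
    refine (Tt_mul_Tt _ _ _ _ _ _ _ _).trans (le_of_eq ?_)
    congr 1

theorem Qu_zero_lt (α : ℝ) (k : ℕ) : Qu (hw α) (2 * (k + 1)) ≠ 0 := by
  intro h0
  have h1 := Tt_pow (hw α) 2 1 0 k
  have h2 := Tt_le_Qu (hw α) (2 * (k + 1)) (1 * (k + 1)) 0 0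
  rw [h0, mul_zero] at h2
  have h3 := le_trans (le_trans (pow_le_pow_left' (le_Tt_one (hw α)) (k + 1)) h1) h2
  have h4 : (hw α 0 * hw α 1) ^ (k + 1) = 0 := le_antisymm h3 zero_le
  have h5 : hw α 0 * hw α 1 ≠ 0 := by
    rw [hw_zero, hw_pos one_pos, mul_one]
    exact (ENNReal.ofReal_pos.2 (Real.exp_pos _)).ne'
  exact pow_ne_zero _ h5 h4

theorem Qu_le_cw (u : ℤ → ℝ≥0∞) (n : ℕ) : Qu u n ≤ cw u n := by
  refine S_mono_pred ?_
  rintro l ⟨⟨h1, h2, -⟩, h3⟩
  exact ⟨h1, h2, h3⟩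

theorem Qu_ne_top (α : ℝ) (n : ℕ) : Qu (hw α) n ≠ ⊤ :=
  ne_top_of_le_ne_top (cw_ne_top α n) (Qu_le_cw _ n)

theorem Qu_toReal_pos (α : ℝ) {k : ℕ} (hk : 0 < k) : 0 < (Qu (hw α) (2 * k)).toReal := by
  obtain ⟨j, rfl⟩ : ∃ j, k = j + 1 := ⟨k - 1, by omega⟩
  exact ENNReal.toReal_pos (Qu_zero_lt α j) (Qu_ne_top α _)

/-- Polynomial factor. -/
noncomputable def PP (n : ℕ) : ℝ := 4 * ((n : ℝ) + 1) ^ 4

theorem PP_pos (n : ℕ) : 0 < PP n := by unfold PP; positivity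

theorem exists_Tt_ge (α : ℝ) (n : ℕ) (hn : 3 ≤ n) : ∃ (w a b : ℕ),
    Qu (hw α) n ≤ ENNReal.ofReal (PP n) * Tt (hw α) n w (a : ℤ) (b : ℤ) := by
  by_contra hcon
  push Not at hcon
  have h0 : Qu (hw α) n ≠ ⊤ := Qu_ne_top α n
  have h1 : Qu (hw α) n ≤ (2 * (n + 1 : ℕ) : ℝ≥0∞) *
      ∑ a ∈ Finset.range (n + 1), ∑ w ∈ Finset.range (2 * n + 2), ∑ b ∈ Finset.range (n + 1),
        Tt (hw α) n w (a : ℤ) (b : ℤ) :=
    (Qu_le_sum_R α n hn).trans (mul_le_mul' le_rfl (Finset.sum_le_sum (fun a _ =>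
      R_le_sum_T α n hn a)))
  have hP : ENNReal.ofReal (PP n) = (2 * (n + 1 : ℕ) : ℝ≥0∞) *
      (((n + 1 : ℕ) : ℝ≥0∞) * (((2 * n + 2 : ℕ) : ℝ≥0∞) * ((n + 1 : ℕ) : ℝ≥0∞))) := by
    unfold PP
    have : (4 * ((n : ℝ) + 1) ^ 4) = ((2 * (n + 1) * ((n + 1) * ((2 * n + 2) * (n + 1))) : ℕ) : ℝ) := by
      push_cast
      ring
    rw [this, ENNReal.ofReal_natCast]
    push_cast
    ring
  -- the supremum of the kernels
  have h2 : ∃ x : ℝ≥0∞, (∀ w a b : ℕ, w < 2 * n + 2 → a < n + 1 → b < n + 1 →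
      Tt (hw α) n w (a : ℤ) (b : ℤ) ≤ x) ∧ ENNReal.ofReal (PP n) * x < Qu (hw α) n := by
    set s := (Finset.range (2 * n + 2)) ×ˢ ((Finset.range (n + 1)) ×ˢ (Finset.range (n + 1))) with hs
    have hsne : s.Nonempty := by
      rw [hs]
      exact ⟨(0, (0, 0)), by simp⟩
    obtain ⟨m, hm, hmax⟩ := Finset.exists_max_image s
      (fun m : ℕ × (ℕ × ℕ) => Tt (hw α) n m.1 (m.2.1 : ℤ) (m.2.2 : ℤ)) hsne
    refine ⟨Tt (hw α) n m.1 (m.2.1 : ℤ) (m.2.2 : ℤ), ?_, hcon _ _ _⟩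
    intro w a b hw' ha hb
    exact hmax (w, (a, b)) (by rw [hs]; simp [hw', ha, hb])
  obtain ⟨x, hx, hx2⟩ := h2
  have h3 : ∑ a ∈ Finset.range (n + 1), ∑ w ∈ Finset.range (2 * n + 2),
      ∑ b ∈ Finset.range (n + 1), Tt (hw α) n w (a : ℤ) (b : ℤ) ≤
      ((n + 1 : ℕ) : ℝ≥0∞) * (((2 * n + 2 : ℕ) : ℝ≥0∞) * (((n + 1 : ℕ) : ℝ≥0∞) * x)) := by
    have e1 : ∀ a ∈ Finset.range (n + 1), ∑ w ∈ Finset.range (2 * n + 2),
        ∑ b ∈ Finset.range (n + 1), Tt (hw α) n w (a : ℤ) (b : ℤ) ≤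
        (((2 * n + 2 : ℕ) : ℝ≥0∞) * (((n + 1 : ℕ) : ℝ≥0∞) * x)) := by
      intro a ha
      have e2 : ∀ w ∈ Finset.range (2 * n + 2),
          ∑ b ∈ Finset.range (n + 1), Tt (hw α) n w (a : ℤ) (b : ℤ) ≤
          ((n + 1 : ℕ) : ℝ≥0∞) * x := by
        intro w hw'
        refine (Finset.sum_le_card_nsmul _ _ x (fun b hb => hx w a b (by simpa using hw')
          (Finset.mem_range.1 ha) (Finset.mem_range.1 hb))).trans (le_of_eq ?_)
        rw [Finset.card_range, nsmul_eq_mul]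
      refine (Finset.sum_le_card_nsmul _ _ _ e2).trans (le_of_eq ?_)
      rw [Finset.card_range, nsmul_eq_mul]
    refine (Finset.sum_le_card_nsmul _ _ _ e1).trans (le_of_eq ?_)
    rw [Finset.card_range, nsmul_eq_mul]
  have h4 := h1.trans (mul_le_mul' le_rfl h3)
  have h5 : (2 * (n + 1 : ℕ) : ℝ≥0∞) * (((n + 1 : ℕ) : ℝ≥0∞) *
      (((2 * n + 2 : ℕ) : ℝ≥0∞) * (((n + 1 : ℕ) : ℝ≥0∞) * x))) = ENNReal.ofReal (PP n) * x := by
    rw [hP]
    ring
  rw [h5] at h4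
  exact absurd h4 (not_le.2 hx2)

theorem Qu_super (α : ℝ) (n : ℕ) (hn : 3 ≤ n) (k r : ℕ) :
    (Qu (hw α) n) ^ (2 * (k + 1)) * (ec α) ^ r ≤
      ENNReal.ofReal (PP n) ^ (2 * (k + 1)) * (((2 * n * (k + 1) + 2 * r + 1 : ℕ) : ℝ≥0∞) ^ 2 *
        Qu (hw α) (2 * n * (k + 1) + 2 * r)) := by
  obtain ⟨w, a, b, h⟩ := exists_Tt_ge α n hn
  have h1 : (Tt (hw α) n w (a : ℤ) (b : ℤ)) ^ 2 ≤ Tt (hw α) (2 * n) (2 * w) (a : ℤ) (a : ℤ) := by
    rw [sq]
    refine (mul_le_mul' le_rfl (Tt_symm_le _ _ _ _ _)).trans ?_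
    refine (Tt_mul_Tt _ _ _ _ _ _ _ _).trans (le_of_eq ?_)
    congr 1 <;> ring
  calc (Qu (hw α) n) ^ (2 * (k + 1)) * (ec α) ^ r
      ≤ (ENNReal.ofReal (PP n) * Tt (hw α) n w (a : ℤ) (b : ℤ)) ^ (2 * (k + 1)) * (ec α) ^ r :=
        mul_le_mul' (pow_le_pow_left' h _) le_rfl
    _ = ENNReal.ofReal (PP n) ^ (2 * (k + 1)) *
        (((Tt (hw α) n w (a : ℤ) (b : ℤ)) ^ 2) ^ (k + 1) * (ec α) ^ r) := by
        rw [mul_pow, pow_mul (Tt (hw α) n w (a : ℤ) (b : ℤ)) 2 (k + 1)]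
        ring
    _ ≤ ENNReal.ofReal (PP n) ^ (2 * (k + 1)) *
        ((Tt (hw α) (2 * n) (2 * w) (a : ℤ) (a : ℤ)) ^ (k + 1) * (ec α) ^ r) :=
        mul_le_mul' le_rfl (mul_le_mul' (pow_le_pow_left' h1 _) le_rfl)
    _ ≤ ENNReal.ofReal (PP n) ^ (2 * (k + 1)) *
        (Tt (hw α) (2 * n * (k + 1)) (2 * w * (k + 1)) (a : ℤ) (a : ℤ) * (ec α) ^ r) :=
        mul_le_mul' le_rfl (mul_le_mul' (Tt_pow _ _ _ _ _) le_rfl)
    _ ≤ ENNReal.ofReal (PP n) ^ (2 * (k + 1)) *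
        Tt (hw α) (2 * n * (k + 1) + 2 * r) (2 * w * (k + 1) + r) (a : ℤ) (a : ℤ) :=
        mul_le_mul' le_rfl (Tt_ext α _ _ _ _ (Int.natCast_nonneg a) r)
    _ ≤ _ := mul_le_mul' le_rfl (Tt_le_Qu _ _ _ _ _)

theorem Qu_log (α : ℝ) (i : ℕ) (hi : 2 ≤ i) (k r : ℕ) :
    2 * ((k : ℝ) + 1) * Real.log (Qu (hw α) (2 * i)).toReal - 2 * |α| * r ≤
      2 * ((k : ℝ) + 1) * Real.log (PP (2 * i)) +
        2 * Real.log (2 * ((2 * i * (k + 1) + r : ℕ) : ℝ) + 1) +
        Real.log (Qu (hw α) (2 * (2 * i * (k + 1) + r))).toReal := by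
  have h := Qu_super α (2 * i) (by omega) k r
  have e1 : 2 * (2 * i) * (k + 1) + 2 * r = 2 * (2 * i * (k + 1) + r) := by ring
  rw [e1] at h
  set m := 2 * i * (k + 1) + r with hm
  have hm0 : 0 < m := by
    rw [hm]
    positivity
  have hq := Qu_toReal_pos α (show 0 < i by omega)
  have hqm := Qu_toReal_pos α hm0
  have hP := PP_pos (2 * i)
  have hec : (ec α).toReal = Real.exp (-(2 * |α|)) := by
    unfold ec
    rw [ENNReal.toReal_ofReal (Real.exp_pos _).le]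
  have hR : ENNReal.ofReal (PP (2 * i)) ^ (2 * (k + 1)) * (((2 * m + 1 : ℕ) : ℝ≥0∞) ^ 2 *
      Qu (hw α) (2 * m)) ≠ ⊤ := by
    refine ENNReal.mul_ne_top (ENNReal.pow_ne_top ENNReal.ofReal_ne_top) (ENNReal.mul_ne_top
      (ENNReal.pow_ne_top (ENNReal.natCast_ne_top _)) (Qu_ne_top α _))
  have h2 := ENNReal.toReal_mono hR h
  simp only [ENNReal.toReal_mul, ENNReal.toReal_pow, ENNReal.toReal_natCast, hec,
    ENNReal.toReal_ofReal hP.le] at h2
  have h3 := Real.log_le_log (by positivity) h2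
  rw [Real.log_mul (by positivity) (by positivity), Real.log_mul (by positivity)
    (by positivity), Real.log_mul (by positivity) (by positivity), Real.log_pow, Real.log_pow,
    Real.log_pow, Real.log_pow, Real.log_exp] at h3
  push_cast at h3
  linarith

theorem exists_limit_of (a : ℕ → ℝ) (M : ℝ) (hM : ∀ n, a n ≤ M)
    (h : ∀ ε : ℝ, 0 < ε → ∃ I, ∀ i, I ≤ i → ∀ᶠ j in atTop, a i - ε ≤ a j) :
    ∃ L, Tendsto a atTop (𝓝 L) := by
  have hub : IsBoundedUnder (· ≤ ·) atTop a := isBoundedUnder_of ⟨M, hM⟩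
  have hlb : IsBoundedUnder (· ≥ ·) atTop a := by
    obtain ⟨I, hI⟩ := h 1 one_pos
    exact ⟨a I - 1, by simpa using hI I le_rfl⟩
  refine ⟨liminf a atTop, ?_⟩
  rw [tendsto_order]
  constructor
  · intro c hc
    exact eventually_lt_of_lt_liminf hc hlb
  · intro c hc
    set ε := (c - liminf a atTop) / 2 with hε
    have hε0 : 0 < ε := by rw [hε]; linarith
    obtain ⟨I, hI⟩ := h ε hε0
    filter_upwards [eventually_ge_atTop I] with i hi
    have h1 := le_liminf_of_le hub.isCoboundedUnder_ge (hI i hi)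
    linarith

theorem tendsto_PP : Tendsto (fun i : ℕ => Real.log (PP (2 * i)) / ((2 * i : ℕ) : ℝ)) atTop
    (𝓝 0) := by
  have h1 : Tendsto (fun x : ℝ => Real.log x / x) atTop (𝓝 0) := by
    simpa using Real.isLittleO_log_id_atTop.tendsto_div_nhds_zero
  have h2 : Tendsto (fun i : ℕ => ((2 * i : ℕ) : ℝ) + 1) atTop atTop := by
    refine tendsto_atTop_add_const_right _ _ ?_
    refine tendsto_natCast_atTop_atTop.comp ?_
    exact tendsto_atTop_mono (fun n => by simp only [id]; omega) tendsto_id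
  have h3 := h1.comp h2
  have h4 : Tendsto (fun i : ℕ => (((2 * i : ℕ) : ℝ) + 1) / ((2 * i : ℕ) : ℝ)) atTop (𝓝 1) := by
    have h5 : Tendsto (fun i : ℕ => 1 + (1 / 2) / (i : ℝ)) atTop (𝓝 (1 + 0)) :=
      tendsto_const_nhds.add (tendsto_const_div_atTop_nhds_zero_nat (1 / 2))
    rw [add_zero] at h5
    refine h5.congr' ?_
    filter_upwards [eventually_gt_atTop 0] with n hn
    have : (n : ℝ) ≠ 0 := by exact_mod_cast hn.ne'
    push_cast
    field_simp
  have h6 : Tendsto (fun i : ℕ => (Real.log 4 / 2) / (i : ℝ) +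
      4 * ((Real.log (((2 * i : ℕ) : ℝ) + 1) / (((2 * i : ℕ) : ℝ) + 1)) *
        ((((2 * i : ℕ) : ℝ) + 1) / ((2 * i : ℕ) : ℝ)))) atTop (𝓝 (0 + 4 * (0 * 1))) :=
    (tendsto_const_div_atTop_nhds_zero_nat _).add ((h3.mul h4).const_mul 4)
  simp only [mul_one, mul_zero, add_zero] at h6
  refine h6.congr' ?_
  filter_upwards [eventually_gt_atTop 0] with n hn
  have hn' : (n : ℝ) ≠ 0 := by exact_mod_cast hn.ne'
  unfold PP
  rw [Real.log_mul (by norm_num) (by positivity), Real.log_pow]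
  push_cast
  have h7 : (2 * (n : ℝ) + 1) ≠ 0 := by positivity
  field_simp

theorem poly_limit (α : ℝ) : ∃ L : ℝ, Tendsto (fun k : ℕ => (1 / ((2 * k : ℕ) : ℝ)) *
    Real.log (Qu (hw α) (2 * k)).toReal) atTop (𝓝 L) := by
  set a : ℕ → ℝ := fun k => (1 / ((2 * k : ℕ) : ℝ)) * Real.log (Qu (hw α) (2 * k)).toReal with ha
  refine exists_limit_of a (Real.log (4 * Real.exp |α|)) ?_ ?_
  · intro k
    simp only [ha]
    rcases Nat.eq_zero_or_pos k with rfl | hk
    · simp only [mul_zero, Nat.cast_zero, div_zero, zero_mul]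
      refine Real.log_nonneg ?_
      have := Real.one_le_exp (abs_nonneg α)
      linarith
    have h1 := ENNReal.toReal_le_of_le_ofReal (by positivity)
      ((Qu_le_cw (hw α) (2 * k)).trans (cw_hw_le_pow α (2 * k)))
    have h2 := Real.log_le_log (Qu_toReal_pos α hk) h1
    rw [Real.log_pow] at h2
    have hk' : (0 : ℝ) < ((2 * k : ℕ) : ℝ) := by positivity
    rw [one_div, inv_mul_le_iff₀ hk']
    exact h2
  · intro ε hε
    -- choose `I` so that the polynomial factor is small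
    obtain ⟨I, hI⟩ := eventually_atTop.1 ((tendsto_order.1 tendsto_PP).2 (ε / 2) (by linarith))
    refine ⟨max I 2, ?_⟩
    intro i hi
    have hi2 : 2 ≤ i := (le_max_right _ _).trans hi
    have hiI : I ≤ i := (le_max_left _ _).trans hi
    have hPi := hI i hiI
    set Z : ℝ := Real.log (Qu (hw α) (2 * i)).toReal - Real.log (PP (2 * i)) with hZ
    have hi0 : (0 : ℝ) < i := by
      have : 0 < i := by omega
      exact_mod_cast this
    -- error term
    have herr : Tendsto (fun j : ℕ => (|Z| + 2 * |α| * i) / (j : ℝ) +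
        Real.log (2 * (j : ℝ) + 1) / j) atTop (𝓝 (0 + 0)) := by
      refine (tendsto_const_div_atTop_nhds_zero_nat _).add ?_
      have h1 : Tendsto (fun x : ℝ => Real.log x / x) atTop (𝓝 0) := by
        simpa using Real.isLittleO_log_id_atTop.tendsto_div_nhds_zero
      have h2 : Tendsto (fun j : ℕ => 2 * (j : ℝ) + 1) atTop atTop :=
        tendsto_atTop_add_const_right _ _ (tendsto_natCast_atTop_atTop.const_mul_atTop two_pos)
      have h3 := h1.comp h2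
      have h4 : Tendsto (fun j : ℕ => 2 + 1 / (j : ℝ)) atTop (𝓝 (2 + 0)) :=
        tendsto_const_nhds.add (tendsto_const_div_atTop_nhds_zero_nat 1)
      have h5 := h3.mul h4
      rw [zero_mul] at h5
      refine h5.congr' ?_
      filter_upwards [eventually_gt_atTop 0] with n hn
      have hn' : (n : ℝ) ≠ 0 := by exact_mod_cast hn.ne'
      have h7 : (2 * (n : ℝ) + 1) ≠ 0 := by positivity
      simp only [Function.comp_apply]
      field_simp
    rw [add_zero] at herr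
    filter_upwards [(tendsto_order.1 herr).2 (ε / 2) (by linarith), eventually_ge_atTop (2 * i)]
      with j hj hji
    -- write j = 2 i K + r
    set K := j / (2 * i) with hK
    set r := j % (2 * i) with hr
    have hjKr : 2 * i * K + r = j := Nat.div_add_mod j (2 * i)
    have hr2 : r < 2 * i := Nat.mod_lt _ (by omega)
    have hK1 : 1 ≤ K := (Nat.one_le_div_iff (by omega)).2 hji
    obtain ⟨k, hk⟩ : ∃ k, K = k + 1 := ⟨K - 1, by omega⟩
    have hmain := Qu_log α i hi2 k r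
    rw [← hk, hjKr] at hmain
    have hj0 : (0 : ℝ) < j := by
      have : 0 < j := by omega
      exact_mod_cast this
    have hKreal : ((k : ℝ) + 1) = (K : ℝ) := by rw [hk]; push_cast; ring
    rw [hKreal] at hmain
    have hjKr' : 2 * (i : ℝ) * K + r = j := by exact_mod_cast hjKr
    have hr2' : (r : ℝ) ≤ 2 * i := by exact_mod_cast hr2.le
    have hr0 : (0 : ℝ) ≤ r := Nat.cast_nonneg r
    -- main computation
    have hmain2 : 2 * (K : ℝ) * Z - 2 * |α| * r - 2 * Real.log (2 * (j : ℝ) + 1) ≤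
        Real.log (Qu (hw α) (2 * j)).toReal := by
      rw [hZ]
      linarith
    have hKZ : (j : ℝ) * Z / i - 2 * |Z| ≤ 2 * (K : ℝ) * Z := by
      have e1 : 2 * (K : ℝ) = (j - r) / i := by
        field_simp
        linarith
      rw [e1]
      have e2 : ((j : ℝ) - r) / i * Z = j * Z / i - (r / i) * Z := by
        field_simp
      rw [e2]
      have e3 : (r / i) * Z ≤ 2 * |Z| := by
        have e4 : (r : ℝ) / i ≤ 2 := by
          rw [div_le_iff₀ hi0]
          linarith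
        have e5 : (0 : ℝ) ≤ (r : ℝ) / i := by positivity
        calc (r / i) * Z ≤ (r / i) * |Z| := mul_le_mul_of_nonneg_left (le_abs_self Z) e5
          _ ≤ 2 * |Z| := mul_le_mul_of_nonneg_right e4 (abs_nonneg Z)
      linarith
    have hαr : 2 * |α| * r ≤ 4 * |α| * i := by
      have := mul_le_mul_of_nonneg_left hr2' (abs_nonneg α)
      nlinarith
    have hfin : (j : ℝ) * Z / i - 2 * |Z| - 4 * |α| * i - 2 * Real.log (2 * (j : ℝ) + 1) ≤
        Real.log (Qu (hw α) (2 * j)).toReal := by linarith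
    have hai : a i = Z / (2 * i) + Real.log (PP (2 * i)) / ((2 * i : ℕ) : ℝ) := by
      simp only [ha, hZ]
      push_cast
      field_simp
      ring
    have haj : a j = Real.log (Qu (hw α) (2 * j)).toReal / (2 * j) := by
      simp only [ha]
      push_cast
      field_simp
    rw [hai, haj, le_div_iff₀ (by positivity)]
    have hj' : ((|Z| + 2 * |α| * i) / (j : ℝ) + Real.log (2 * (j : ℝ) + 1) / j) * (2 * j) =
        2 * |Z| + 4 * |α| * i + 2 * Real.log (2 * (j : ℝ) + 1) := by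
      field_simp
      ring
    have hj'' := mul_lt_mul_of_pos_right hj (show (0 : ℝ) < 2 * j by positivity)
    rw [hj'] at hj''
    have hPi' := mul_lt_mul_of_pos_right hPi (show (0 : ℝ) < 2 * j by positivity)
    have e7 : Z / (2 * i) * (2 * j) = j * Z / i := by field_simp
    calc (Z / (2 * i) + Real.log (PP (2 * i)) / ((2 * i : ℕ) : ℝ) - ε) * (2 * j)
        = Z / (2 * i) * (2 * j) + Real.log (PP (2 * i)) / ((2 * i : ℕ) : ℝ) * (2 * j) -
            ε * (2 * j) := by ring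
      _ ≤ Real.log (Qu (hw α) (2 * j)).toReal := by
          rw [e7]
          linarith

end Pool.Agent.Lib.MP64
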