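import Pool.Agent.Lib.MP_64d71c_pr.Final

set_option autoImplicit false

open scoped ENNReal
open List Filter Topology

namespace Pool.Agent.Lib.MP64

theorem isCln_ofFn_iff {n : ℕ} (u : Fin (n + 1) → V) : IsCln (n + 1) (List.ofFn u) ↔
    u 0 = 0 ∧ Function.Injective u ∧ (∀ i : Fin n, Adj (u i.succ) (u i.castSucc)) ∧
      Adj (0, 0) (u (Fin.last n)) := by
  have hne : List.ofFn u ≠ [] := by
    rw [List.ofFn_succ]
    simp
  have hlast : (List.ofFn u).getLast? = some (u (Fin.last n)) := by
    rw [List.getLast?_eq_getElem?]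
    simp only [List.length_ofFn, Nat.add_sub_cancel]
    rw [List.getElem?_ofFn]
    simp [Fin.last]
  unfold IsCln IsCl Saw
  rw [List.isChain_ofFn, List.nodup_ofFn, hlast]
  have hhead : (List.ofFn u).head? = some (u 0) := by
    rw [List.ofFn_succ]
    rfl
  rw [hhead]
  simp only [Option.some.injEq, List.length_ofFn, and_true, Option.mem_def, forall_eq']
  constructor
  · rintro ⟨⟨h1, h2⟩, h3, h4⟩
    refine ⟨h3, h2, fun i => ?_, h4.symm⟩
    exact (h1 i.1 (by omega)).symm
  · rintro ⟨h3, h2, h1, h4⟩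
    refine ⟨⟨fun i hi => ?_, h2⟩, h3, h4.symm⟩
    have : Adj (u ⟨i + 1, hi⟩) (u ⟨i, by omega⟩) := h1 ⟨i, by omega⟩
    exact this.symm

theorem poly_sum (α : ℝ) (n : ℕ) :
    ∑ m ∈ Finset.range (n + 1 + 2),
            (({w : Fin (n + 1 + 1) → ℤ × ℤ |
                w 0 = 0 ∧ w (Fin.last (n + 1)) = 0 ∧
                (∀ i j : Fin (n + 1 + 1), i.val < n + 1 → j.val < n + 1 → w i = w j → i = j) ∧
                (∀ i, 0 ≤ (w i).2) ∧
                (∀ i : Fin (n + 1), |(w i.succ).1 - (w i.castSucc).1|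
                    + |(w i.succ).2 - (w i.castSucc).2| = 1) ∧
                (Finset.univ.filter
                  (fun i : Fin (n + 1 + 1) => i.val < n + 1 ∧ (w i).2 = 0)).card = m}
              : Set (Fin (n + 1 + 1) → ℤ × ℤ)).ncard : ℝ) * Real.exp (α * (m : ℝ)) =
      (Qu (hw α) (n + 1)).toReal := by
  classical
  set s : Set (Fin (n + 1 + 1) → ℤ × ℤ) := {w | w 0 = 0 ∧ w (Fin.last (n + 1)) = 0 ∧
                (∀ i j : Fin (n + 1 + 1), i.val < n + 1 → j.val < n + 1 → w i = w j → i = j) ∧
                (∀ i, 0 ≤ (w i).2) ∧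
                (∀ i : Fin (n + 1), |(w i.succ).1 - (w i.castSucc).1|
                    + |(w i.succ).2 - (w i.castSucc).2| = 1)} with hs
  set v : (Fin (n + 1 + 1) → ℤ × ℤ) → ℕ := fun w =>
    (Finset.univ.filter (fun i : Fin (n + 1 + 1) => i.val < n + 1 ∧ (w i).2 = 0)).card with hv
  set res : (Fin (n + 1 + 1) → V) → (Fin (n + 1) → V) := fun w i => w i.castSucc with hres
  set F : (Fin (n + 1 + 1) → ℤ × ℤ) → ℝ≥0∞ := fun w =>
    if w (Fin.last (n + 1)) = 0 ∧ IsCln (n + 1) (List.ofFn (res w)) then
      wt (hw α) (List.ofFn (res w)) else 0 with hF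
  have hset : ∀ m : ℕ, ({w : Fin (n + 1 + 1) → ℤ × ℤ |
                w 0 = 0 ∧ w (Fin.last (n + 1)) = 0 ∧
                (∀ i j : Fin (n + 1 + 1), i.val < n + 1 → j.val < n + 1 → w i = w j → i = j) ∧
                (∀ i, 0 ≤ (w i).2) ∧
                (∀ i : Fin (n + 1), |(w i.succ).1 - (w i.castSucc).1|
                    + |(w i.succ).2 - (w i.castSucc).2| = 1) ∧
                (Finset.univ.filter
                  (fun i : Fin (n + 1 + 1) => i.val < n + 1 ∧ (w i).2 = 0)).card = m}
              : Set (Fin (n + 1 + 1) → ℤ × ℤ)) = {w | w ∈ s ∧ v w = m} := by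
    intro m
    ext w
    simp only [hs, hv, Set.mem_ofPred_eq]
    tauto
  -- characterisation of the support
  have hiff : ∀ w : Fin (n + 1 + 1) → ℤ × ℤ, (w (Fin.last (n + 1)) = 0 ∧
      IsCln (n + 1) (List.ofFn (res w))) ↔ (w 0 = 0 ∧ w (Fin.last (n + 1)) = 0 ∧
      (∀ i j : Fin (n + 1 + 1), i.val < n + 1 → j.val < n + 1 → w i = w j → i = j) ∧
      (∀ i : Fin (n + 1), |(w i.succ).1 - (w i.castSucc).1|
                    + |(w i.succ).2 - (w i.castSucc).2| = 1)) := by
    intro w
    rw [isCln_ofFn_iff]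
    constructor
    · rintro ⟨h1, h2, h3, h4, h5⟩
      refine ⟨h2, h1, ?_, ?_⟩
      · intro i j hi hj hij
        have h6 : res w ⟨i.1, hi⟩ = res w ⟨j.1, hj⟩ := hij
        have h7 := h3 h6
        rw [Fin.mk.injEq] at h7
        exact Fin.ext h7
      · intro i
        induction i using Fin.lastCases with
        | last =>
          rw [Fin.succ_last, h1]
          exact h5
        | cast i => exact h4 i
    · rintro ⟨h1, h2, h3, h4⟩
      refine ⟨h2, h1, ?_, ?_, ?_⟩
      · intro i j hij
        have h5 := h3 i.castSucc j.castSucc i.2 j.2 hij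
        exact Fin.castSucc_injective _ h5
      · intro i
        exact h4 i.castSucc
      · have h5 := h4 (Fin.last n)
        rw [Fin.succ_last, h2] at h5
        exact h5
  have hcard : ∀ w : Fin (n + 1 + 1) → ℤ × ℤ, v w =
      (Finset.univ.filter (fun i : Fin (n + 1) => (res w i).2 = 0)).card := by
    intro w
    simp only [hv, hres]
    rw [Finset.card_filter, Finset.card_filter, Fin.sum_univ_castSucc]
    simp only [Fin.val_castSucc, Fin.is_lt, true_and, Fin.val_last, lt_irrefl, false_and,
      if_false, add_zero]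
  have htsum : ∑' w, F w = Qu (hw α) (n + 1) := by
    unfold Qu S
    have h1 : ∑' u : Fin (n + 1) → V, (if IsCln (n + 1) (List.ofFn u) then
        wt (hw α) (List.ofFn u) else 0) = ∑' l : List V,
        (if IsCln (n + 1) l then wt (hw α) l else 0) := by
      refine Function.Injective.tsum_eq (f := fun l : List V =>
        if IsCln (n + 1) l then wt (hw α) l else 0) List.ofFn_injective ?_
      intro l hl
      simp only [Function.mem_support, ne_eq, ite_eq_right_iff, not_forall] at hl
      exact exists_ofFn hl.1.2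
    rw [← h1]
    have h2 : ∀ u : Fin (n + 1) → V, F (Fin.snoc u 0) =
        (if IsCln (n + 1) (List.ofFn u) then wt (hw α) (List.ofFn u) else 0) := by
      intro u
      have e1 : res (Fin.snoc u 0) = u := by
        funext i
        simp only [hres]
        exact Fin.snoc_castSucc (α := fun _ => V) 0 u i
      have e2 : (Fin.snoc u 0 : Fin (n + 1 + 1) → V) (Fin.last (n + 1)) = 0 :=
        Fin.snoc_last (α := fun _ => V) 0 u
      simp only [hF]
      rw [e1, e2]
      simp
    rw [← tsum_congr h2]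
    symm
    refine Function.Injective.tsum_eq (f := F)
      (g := fun u : Fin (n + 1) → V => (Fin.snoc u 0 : Fin (n + 1 + 1) → V)) ?_ ?_
    · intro u u' h
      funext i
      have := congrFun h i.castSucc
      simp only at this
      rw [Fin.snoc_castSucc (α := fun _ => V), Fin.snoc_castSucc (α := fun _ => V)] at this
      exact this
    · intro w hw'
      simp only [hF, Function.mem_support, ne_eq, ite_eq_right_iff, not_forall] at hw'
      refine ⟨res w, ?_⟩
      funext i
      induction i using Fin.lastCases with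
      | last =>
        have e2 : (Fin.snoc (res w) 0 : Fin (n + 1 + 1) → V) (Fin.last (n + 1)) = 0 :=
          Fin.snoc_last (α := fun _ => V) 0 (res w)
        exact e2.trans hw'.1.1.symm
      | cast i => exact Fin.snoc_castSucc (α := fun _ => V) 0 (res w) i
  simp only [hset]
  rw [← htsum]
  refine sum_ncard s v (n + 1 + 2) ?_ α F ?_ ?_ ?_
  · intro w _
    simp only [hv]
    refine lt_of_le_of_lt (Finset.card_filter_le _ _) ?_
    simp
  · intro w hw'
    have hw2 : 0 ≤ 0 ∧ ∀ i, 0 ≤ (w i).2 := ⟨le_rfl, hw'.2.2.2.1⟩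
    simp only [hF]
    rw [if_pos ((hiff w).2 ⟨hw'.1, hw'.2.1, hw'.2.2.1, hw'.2.2.2.2⟩),
      wt_hw_ofFn α (res w) (fun i => hw2.2 i.castSucc), hcard w]
  · intro w hw'
    simp only [hF]
    split_ifs with h1
    · obtain ⟨h2, h3, h4, h5⟩ := (hiff w).1 h1
      have h6 : ¬ ∀ i, 0 ≤ (w i).2 := fun h6 => hw' ⟨h2, h3, h4, h6, h5⟩
      push Not at h6
      obtain ⟨i, hi⟩ := h6
      induction i using Fin.lastCases with
      | last =>
        rw [h3] at hi
        simp at hi
      | cast i =>
        exact wt_eq_zero (v := res w i) (List.mem_ofFn.2 ⟨i, rfl⟩) (hw_neg hi)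
    · rfl
  · rw [htsum]
    exact Qu_ne_top α _

theorem poly_sum' (α : ℝ) (N : ℕ) (hN : N ≠ 0) :
    ∑ m ∈ Finset.range (N + 2),
            (({w : Fin (N + 1) → ℤ × ℤ |
                w 0 = 0 ∧ w (Fin.last N) = 0 ∧
                (∀ i j : Fin (N + 1), i.val < N → j.val < N → w i = w j → i = j) ∧
                (∀ i, 0 ≤ (w i).2) ∧
                (∀ i : Fin N, |(w i.succ).1 - (w i.castSucc).1|
                    + |(w i.succ).2 - (w i.castSucc).2| = 1) ∧
                (Finset.univ.filter
                  (fun i : Fin (N + 1) => i.val < N ∧ (w i).2 = 0)).card = m}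
              : Set (Fin (N + 1) → ℤ × ℤ)).ncard : ℝ) * Real.exp (α * (m : ℝ)) =
      (Qu (hw α) N).toReal := by
  cases N with
  | zero => exact absurd rfl hN
  | succ n => exact poly_sum α n

end Pool.Agent.Lib.MP64
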