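import Pool.Agent.Lib.MP_64d71c_pr.Strand

set_option autoImplicit false

open scoped ENNReal
open List Filter Topology

namespace Pool.Agent.Lib.MP64

/-- Closed self-avoiding walks rooted at the origin (rooted oriented polygons). -/
def IsCl (l : List V) : Prop :=
  Saw l ∧ l.head? = some (0, 0) ∧ ∀ x ∈ l.getLast?, Adj x (0, 0)

/-- Truncation of the weights to heights at most `N` in absolute value. -/
noncomputable def trw (N : ℕ) (u : ℤ → ℝ≥0∞) (y : ℤ) : ℝ≥0∞ := if |y| ≤ (N : ℤ) then u y else 0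

theorem trw_of {N : ℕ} {u : ℤ → ℝ≥0∞} {y : ℤ} (h : |y| ≤ (N : ℤ)) : trw N u y = u y := if_pos h

theorem abs_le_of_trw {N : ℕ} {u : ℤ → ℝ≥0∞} {y : ℤ} (h : trw N u y ≠ 0) : |y| ≤ (N : ℤ) := by
  by_contra h1
  exact h (if_neg h1)

theorem exists_trunc {u : ℤ → ℝ≥0∞} {w : ℕ} {a b : ℤ} {c : ℝ≥0∞} (h : c < B u w a b) :
    ∃ N : ℕ, c < B (trw N u) w a b := by
  classical
  unfold B S at h
  rw [ENNReal.tsum_eq_iSup_sum, lt_iSup_iff] at h
  obtain ⟨s, hs⟩ := h
  set N : ℕ := s.sup (fun l => l.toFinset.sup (fun v => v.2.natAbs)) with hN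
  refine ⟨N, hs.trans_le ?_⟩
  unfold B S
  refine le_trans (Finset.sum_le_sum (fun l hl => ?_)) (ENNReal.sum_le_tsum s)
  split_ifs with h1
  · refine (wt_congr l (fun v hv => ?_)).le
    rw [trw_of]
    have e1 : v.2.natAbs ≤ l.toFinset.sup (fun v => v.2.natAbs) :=
      Finset.le_sup (f := fun v : V => v.2.natAbs) (by simpa using hv)
    have e2 : l.toFinset.sup (fun v => v.2.natAbs) ≤ N :=
      Finset.le_sup (f := fun l : List V => l.toFinset.sup (fun v => v.2.natAbs)) hl
    rw [← hN] at *
    exact abs_le.2 ⟨by omega, by omega⟩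
  · exact le_rfl

theorem length_le_box {w N : ℕ} {a b : ℤ} {l : List V} (h : IsBr w a b l)
    (hN : ∀ v ∈ l, |v.2| ≤ (N : ℤ)) : l.length ≤ w * (2 * N + 1) := by
  classical
  have h1 : l.toFinset ⊆ (Finset.Icc (0 : ℤ) ((w : ℤ) - 1)) ×ˢ (Finset.Icc (-(N : ℤ)) N) := by
    intro v hv
    rw [List.mem_toFinset] at hv
    rw [Finset.mem_product, Finset.mem_Icc, Finset.mem_Icc]
    have e1 := h.2.2.2 v hv
    have e2 := abs_le.1 (hN v hv)
    exact ⟨e1, e2⟩
  have h2 := Finset.card_le_card h1
  rw [List.toFinset_card_of_nodup h.1.2, Finset.card_product, Int.card_Icc, Int.card_Icc] at h2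
  refine h2.trans (le_of_eq ?_)
  congr 1 <;> omega

theorem B_scale_ge (u : ℤ → ℝ≥0∞) (q z : ℝ≥0∞) (hq : q ≤ 1) (N w : ℕ) (a b : ℤ) :
    q ^ (w * (2 * N + 1)) * B (trw N (fun y => z * u y)) w a b ≤
      B (trw N (fun y => (q * z) * u y)) w a b := by
  classical
  unfold B S
  rw [← ENNReal.tsum_mul_left]
  refine ENNReal.tsum_le_tsum (fun l => ?_)
  by_cases h : IsBr w a b l
  · simp only [h, if_true]
    by_cases h0 : wt (trw N (fun y => z * u y)) l = 0
    · rw [h0, mul_zero]
      exact zero_le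
    · have hN : ∀ v ∈ l, |v.2| ≤ (N : ℤ) := fun v hv => abs_le_of_trw (ne_zero_of_wt h0 v hv)
      rw [wt_congr (u' := fun y => z * u y) l (fun v hv => trw_of (hN v hv)),
        wt_congr (u := trw N (fun y => (q * z) * u y)) (u' := fun y => (q * z) * u y) l
          (fun v hv => trw_of (hN v hv)),
        wt_mul, wt_mul, mul_pow, mul_assoc]
      exact mul_le_mul' (pow_le_pow_of_le_one zero_le hq (length_le_box h hN)) le_rfl
  · simp [h]

theorem B_pow_le (u : ℤ → ℝ≥0∞) (w : ℕ) (k : ℕ) :
    (B u w 0 0) ^ (k + 1) ≤ B u (w * (k + 1)) 0 0 := by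
  induction k with
  | zero => simp
  | succ k ih =>
    rw [pow_succ]
    have e : w * (k + 1 + 1) = w * (k + 1) + w := by ring
    rw [e]
    exact (mul_le_mul' ih le_rfl).trans (B_mul_le u _ _ 0 0 0)

/-- A vertical column of vertices. -/
def col (c : ℤ) (H : ℕ) : List V := (List.range (H + 1)).map (fun i : ℕ => (c, (i : ℤ)))

theorem mem_col {c : ℤ} {H : ℕ} {v : V} (h : v ∈ col c H) : v.1 = c ∧ 0 ≤ v.2 ∧ v.2 ≤ H := by
  unfold col at h
  rw [List.mem_map] at h
  obtain ⟨i, hi, rfl⟩ := h
  rw [List.mem_range] at hi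
  refine ⟨rfl, ?_, ?_⟩
  · simp only
    omega
  · simp only
    omega

theorem col_succ (c : ℤ) (H : ℕ) : col c (H + 1) = col c H ++ [(c, ((H + 1 : ℕ) : ℤ))] := by
  unfold col
  rw [List.range_succ, List.map_append]
  rfl

theorem col_last (c : ℤ) (H : ℕ) : (col c H).getLast? = some (c, (H : ℤ)) := by
  unfold col
  rw [List.range_succ, List.map_append]
  simp

theorem col_head (c : ℤ) (H : ℕ) : (col c H).head? = some (c, 0) := by
  unfold col
  rw [List.range_succ_eq_map]
  simp

theorem col_saw (c : ℤ) (H : ℕ) : Saw (col c H) := by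
  induction H with
  | zero =>
    have : col c 0 = [(c, 0)] := by simp [col]
    rw [this]
    exact ⟨List.isChain_singleton _, List.nodup_singleton _⟩
  | succ H ih =>
    rw [col_succ, saw_append]
    refine ⟨ih, ⟨List.isChain_singleton _, List.nodup_singleton _⟩, ?_, ?_⟩
    · intro x hx y hy
      rw [col_last] at hx
      simp only [Option.mem_def, Option.some.injEq, List.head?_cons] at hx hy
      subst hx; subst hy
      rw [adj_iff]
      push_cast
      simp
    · intro a ha b hb hab
      have h1 := mem_col ha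
      rw [List.mem_singleton] at hb
      rw [hab, hb] at h1
      simp only at h1
      omega

theorem wt_col (z : ℝ≥0∞) (α : ℝ) (c : ℤ) (H : ℕ) :
    wt (fun y => z * hw α y) (col c H) = z ^ (H + 1) * ENNReal.ofReal (Real.exp α) := by
  induction H with
  | zero =>
    have : col c 0 = [(c, 0)] := by simp [col]
    rw [this]
    simp [wt, hw_zero]
  | succ H ih =>
    rw [col_succ, wt_append, ih]
    have : wt (fun y => z * hw α y) [(c, ((H + 1 : ℕ) : ℤ))] = z := by
      simp only [wt, List.map_cons, List.map_nil, List.prod_cons, List.prod_nil, mul_one]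
      rw [hw_pos (by positivity), mul_one]
    rw [this]
    ring

/-- The polygon made of a bottom strand `l`, a top strand `m` and two vertical connectors. -/
def poly (W H : ℕ) (l m : List V) : List V :=
  l ++ (col W H ++ ((m.map (tr 0 H)).reverse ++ (col (-1) H).reverse))

theorem poly_isCl {W N N' : ℕ} {l m : List V} (hl : IsBr W 0 0 l) (hm : IsBr W 0 0 m)
    (hlN : ∀ v ∈ l, |v.2| ≤ (N : ℤ)) (hmN : ∀ v ∈ m, |v.2| ≤ (N' : ℤ)) :
    IsCl (poly W (N + N' + 1) l m) := by
  set H := N + N' + 1 with hH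
  have hm' : ∀ v ∈ (m.map (tr 0 H)).reverse, 0 ≤ v.1 ∧ v.1 ≤ (W : ℤ) - 1 ∧ (N : ℤ) < v.2 := by
    intro v hv
    rw [List.mem_reverse, List.mem_map] at hv
    obtain ⟨x, hx, rfl⟩ := hv
    have h1 := hm.2.2.2 x hx
    have h2 := abs_le.1 (hmN x hx)
    simp only [tr]
    omega
  have hc : ∀ v ∈ (col (-1) H).reverse, v.1 = -1 := by
    intro v hv
    rw [List.mem_reverse] at hv
    exact (mem_col hv).1
  have hcW : ∀ v ∈ col (W : ℤ) H, v.1 = W := fun v hv => (mem_col hv).1
  have s1 : Saw ((m.map (tr 0 H)).reverse ++ (col (-1) H).reverse) := by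
    rw [saw_append]
    refine ⟨(hm.1.map _ (tr_injective _ _) (tr_adj _ _)).reverse, (col_saw _ _).reverse, ?_, ?_⟩
    · intro x hx y hy
      rw [List.getLast?_reverse, List.head?_map, hm.2.1] at hx
      rw [List.head?_reverse, col_last] at hy
      simp only [Option.map_some, Option.mem_def, Option.some.injEq, tr] at hx hy
      subst hx; subst hy
      rw [adj_iff]
      simp
    · intro a ha b hb hab
      have h1 := hm' a ha
      have h2 := hc b hb
      rw [hab] at h1
      omega
  have hne : (m.map (tr 0 H)).reverse ≠ [] := by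
    simpa using hm.ne_nil
  have s2 : Saw (col (W : ℤ) H ++ ((m.map (tr 0 H)).reverse ++ (col (-1) H).reverse)) := by
    rw [saw_append]
    refine ⟨col_saw _ _, s1, ?_, ?_⟩
    · intro x hx y hy
      rw [col_last] at hx
      rw [List.head?_append_of_ne_nil _ hne, List.head?_reverse, List.getLast?_map,
        hm.2.2.1] at hy
      simp only [Option.map_some, Option.mem_def, Option.some.injEq, tr] at hx hy
      subst hx; subst hy
      rw [adj_iff]
      simp
    · intro a ha b hb hab
      have h1 := hcW a ha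
      rw [List.mem_append] at hb
      rcases hb with hb | hb
      · have h2 := hm' b hb
        rw [← hab] at h2
        omega
      · have h2 := hc b hb
        rw [← hab] at h2
        omega
  refine ⟨?_, ?_, ?_⟩
  · unfold poly
    rw [saw_append]
    refine ⟨hl.1, s2, ?_, ?_⟩
    · intro x hx y hy
      have hcne : col (W : ℤ) H ≠ [] := by
        intro h
        have := col_head (W : ℤ) H
        rw [h] at this
        simp at this
      rw [hl.2.2.1] at hx
      rw [List.head?_append_of_ne_nil _ hcne, col_head] at hy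
      simp only [Option.mem_def, Option.some.injEq] at hx hy
      subst hx; subst hy
      rw [adj_iff]
      simp
    · intro a ha b hb hab
      have h1 := hl.2.2.2 a ha
      have h3 := abs_le.1 (hlN a ha)
      rw [List.mem_append, List.mem_append] at hb
      rcases hb with hb | hb | hb
      · have h2 := hcW b hb
        rw [← hab] at h2
        omega
      · have h2 := hm' b hb
        rw [← hab] at h2
        omega
      · have h2 := hc b hb
        rw [← hab] at h2
        omega
  · unfold poly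
    rw [List.head?_append_of_ne_nil _ hl.ne_nil]
    exact hl.2.1
  · intro x hx
    unfold poly at hx
    have hcne : (col (-1 : ℤ) H).reverse ≠ [] := by
      intro h
      have := col_head (-1 : ℤ) H
      rw [List.reverse_eq_nil_iff] at h
      rw [h] at this
      simp at this
    rw [List.getLast?_append_of_ne_nil _ (by simp [hcne]), List.getLast?_append_of_ne_nil _
      (by simp [hcne]), List.getLast?_append_of_ne_nil _ hcne, List.getLast?_reverse,
      col_head] at hx
    simp only [Option.mem_def, Option.some.injEq] at hx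
    subst hx
    rw [adj_iff]
    simp

theorem poly_sum_le (z : ℝ≥0∞) (α : ℝ) (W N N' : ℕ) :
    (z ^ (N + N' + 1 + 1) * ENNReal.ofReal (Real.exp α)) ^ 2 *
      (B (trw N (fun y => z * hw α y)) W 0 0 * B (trw N' (fun _ => z)) W 0 0) ≤
      S (fun y => z * hw α y) IsCl := by
  classical
  unfold B
  rw [S_mul_S, ← ENNReal.tsum_mul_left]
  unfold S
  refine tsum_le_of_inj _ _ (fun p : List V × List V => poly W (N + N' + 1) p.1 p.2) ?_ ?_
  · rintro ⟨l, m⟩ ⟨l', m'⟩ h h' heq
    simp only [ne_eq, mul_eq_zero, not_or, ite_eq_right_iff, not_forall] at h h'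
    obtain ⟨-, ⟨h1, h2⟩, h3, h4⟩ := h
    obtain ⟨-, ⟨h1', h2'⟩, h3', h4'⟩ := h'
    have hlN : ∀ v ∈ l, |v.2| ≤ (N : ℤ) := fun v hv => abs_le_of_trw (ne_zero_of_wt h3 v hv)
    have hlN' : ∀ v ∈ l', |v.2| ≤ (N : ℤ) := fun v hv => abs_le_of_trw (ne_zero_of_wt h3' v hv)
    have hmN : ∀ v ∈ m, |v.2| ≤ (N' : ℤ) := fun v hv => abs_le_of_trw (ne_zero_of_wt h4 v hv)
    have hmN' : ∀ v ∈ m', |v.2| ≤ (N' : ℤ) := fun v hv => abs_le_of_trw (ne_zero_of_wt h4' v hv)
    simp only at heq
    unfold poly at heq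
    have hrest : ∀ m : List V, IsBr W 0 0 m → (∀ v ∈ m, |v.2| ≤ (N' : ℤ)) →
        ∀ v ∈ (col W (N + N' + 1) ++ ((m.map (tr 0 ((N + N' + 1 : ℕ) : ℤ))).reverse ++
          (col (-1) (N + N' + 1)).reverse)),
        decide (0 ≤ v.1 ∧ v.1 ≤ (W : ℤ) - 1 ∧ |v.2| ≤ (N : ℤ)) = false := by
      intro m hm hmN v hv
      rw [decide_eq_false_iff_not]
      rintro ⟨e1, e2, e3⟩
      rw [List.mem_append, List.mem_append] at hv
      rcases hv with hv | hv | hv
      · have := (mem_col hv).1
        omega
      · rw [List.mem_reverse, List.mem_map] at hv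
        obtain ⟨x, hx, rfl⟩ := hv
        have h2 := abs_le.1 (hmN x hx)
        have h3 := abs_le.1 e3
        simp only [tr] at h3
        push_cast at h3
        omega
      · rw [List.mem_reverse] at hv
        have := (mem_col hv).1
        omega
    obtain ⟨e1, e2⟩ := append_split_eq
      (fun v : V => decide (0 ≤ v.1 ∧ v.1 ≤ (W : ℤ) - 1 ∧ |v.2| ≤ (N : ℤ)))
      (fun v hv => decide_eq_true ⟨(h1.2.2.2 v hv).1, (h1.2.2.2 v hv).2, hlN v hv⟩)
      (hrest m h2 hmN)
      (fun v hv => decide_eq_true ⟨(h1'.2.2.2 v hv).1, (h1'.2.2.2 v hv).2, hlN' v hv⟩)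
      (hrest m' h2' hmN') heq
    have e3 := List.append_cancel_right (List.append_cancel_left e2)
    have e4 := List.reverse_injective e3
    have e5 := List.map_injective_iff.2 (tr_injective _ _) e4
    rw [e1, e5]
  · rintro ⟨l, m⟩ h
    simp only [ne_eq, mul_eq_zero, not_or, ite_eq_right_iff, not_forall] at h
    obtain ⟨-, ⟨h1, h2⟩, h3, h4⟩ := h
    have hlN : ∀ v ∈ l, |v.2| ≤ (N : ℤ) := fun v hv => abs_le_of_trw (ne_zero_of_wt h3 v hv)
    have hmN : ∀ v ∈ m, |v.2| ≤ (N' : ℤ) := fun v hv => abs_le_of_trw (ne_zero_of_wt h4 v hv)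
    simp only [h1, h2, and_self, if_true]
    rw [if_pos (poly_isCl h1 h2 hlN hmN)]
    unfold poly
    rw [wt_append, wt_append, wt_append, wt_reverse, wt_reverse, wt_col, wt_col, wt_map_tr]
    have e1 : wt (trw N (fun y => z * hw α y)) l = wt (fun y => z * hw α y) l :=
      wt_congr l (fun v hv => trw_of (hlN v hv))
    have e2 : wt (trw N' (fun _ => z)) m = z ^ m.length := by
      rw [← wt_const]
      exact wt_congr m (fun v hv => trw_of (hmN v hv))
    have e3 : wt (fun y => z * hw α (y + ((N + N' + 1 : ℕ) : ℤ))) m = z ^ m.length := by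
      rw [← wt_const]
      refine wt_congr m (fun v hv => ?_)
      have h2 := abs_le.1 (hmN v hv)
      rw [hw_pos (by push_cast; omega), mul_one]
    rw [e1, e2, e3]
    exact le_of_eq (by ring)

end Pool.Agent.Lib.MP64
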