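import Pool.Agent.Lib.MP_64d71c_pr.Walk

set_option autoImplicit false

open scoped ENNReal
open List

namespace Pool.Agent.Lib.MP64

theorem S_le_tsum {ι : Type*} {u : ℤ → ℝ≥0∞} {P : List V → Prop} (Q : ι → List V → Prop)
    (h : ∀ l, P l → ∃ i, Q i l) : S u P ≤ ∑' i, S u (Q i) := by
  classical
  have : ∑' i, S u (Q i) = ∑' p : ι × List V, (if Q p.1 p.2 then wt u p.2 else 0) := by
    rw [ENNReal.tsum_prod (f := fun i l => if Q i l then wt u l else 0)]
    rfl
  rw [this]
  refine S_le_of_surj _ (fun p : ι × List V => p.2) ?_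
  intro l hl _
  obtain ⟨i, hi⟩ := h l hl
  exact ⟨(i, l), rfl, by simp [hi]⟩

theorem tsum_S_le {ι : Type*} {u : ℤ → ℝ≥0∞} {P : List V → Prop} (Q : ι → List V → Prop)
    (h : ∀ i l, Q i l → P l) (hinj : ∀ i j l, Q i l → Q j l → i = j) :
    ∑' i, S u (Q i) ≤ S u P := by
  classical
  have : ∑' i, S u (Q i) = ∑' p : ι × List V, (if Q p.1 p.2 then wt u p.2 else 0) := by
    rw [ENNReal.tsum_prod (f := fun i l => if Q i l then wt u l else 0)]
    rfl
  rw [this]
  unfold S
  refine tsum_le_of_inj _ _ (fun p : ι × List V => p.2) ?_ ?_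
  · rintro ⟨i, l⟩ ⟨j, m⟩ h1 h2 h3
    simp only [ne_eq, ite_eq_right_iff, not_forall] at h1 h2 h3
    subst h3
    rw [hinj i j l h1.1 h2.1]
  · rintro ⟨i, l⟩ h1
    simp only [ne_eq, ite_eq_right_iff, not_forall] at h1
    simp only [h1.1, if_true]
    rw [if_pos (h i l h1.1)]

/-- Bridge kernel with the identity at width zero. -/
noncomputable def Bk (u : ℤ → ℝ≥0∞) (s : ℕ) (a b : ℤ) : ℝ≥0∞ :=
  if s = 0 then (if a = b then 1 else 0) else B u s a b

theorem Bk_symm (u : ℤ → ℝ≥0∞) (s : ℕ) (a b : ℤ) : Bk u s a b = Bk u s b a := by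
  unfold Bk
  split_ifs with h h1 h2 h2
  · rfl
  · exact absurd h1.symm h2
  · exact absurd h2.symm h1
  · rfl
  · exact B_symm u s a b

theorem Bk_conv (u : ℤ → ℝ≥0∞) (s t : ℕ) (a b : ℤ) :
    ∑' c, Bk u s a c * Bk u t c b ≤ Bk u (s + t) a b := by
  unfold Bk
  by_cases hs : s = 0
  · subst hs
    simp only [if_true, zero_add]
    rw [tsum_eq_single a]
    · simp
    · intro c hc
      simp [Ne.symm hc]
  · by_cases ht : t = 0
    · subst ht
      simp only [if_true, add_zero, hs, if_false]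
      rw [tsum_eq_single b]
      · simp
      · intro c hc
        simp [hc]
    · have : s + t ≠ 0 := by omega
      simp only [hs, ht, this, if_false]
      exact B_conv u s t a b

theorem IsBr.le_length {w : ℕ} {a b : ℤ} {l : List V} (h : IsBr w a b l) : w ≤ l.length := by
  have h1 := chain_dist h.1.1 _ _ h.2.1 h.2.2.1
  simp only [sub_zero] at h1
  have h2 := le_abs_self ((w : ℤ) - 1)
  have h3 := abs_nonneg (b - a)
  omega

theorem B_scale_le (u : ℤ → ℝ≥0∞) (q z : ℝ≥0∞) (hq : q ≤ 1) (w : ℕ) (a b : ℤ) :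
    B (fun y => (q * z) * u y) w a b ≤ q ^ w * B (fun y => z * u y) w a b := by
  classical
  unfold B S
  rw [← ENNReal.tsum_mul_left]
  refine ENNReal.tsum_le_tsum (fun l => ?_)
  by_cases h : IsBr w a b l
  · simp only [h, if_true]
    rw [wt_mul, wt_mul, mul_pow, mul_assoc]
    refine mul_le_mul' ?_ le_rfl
    exact pow_le_pow_of_le_one zero_le hq h.le_length
  · simp [h]

/-- Total width of a set of widths. -/
def sg (T : Finset ℕ) : ℕ := ∑ i ∈ T, (i + 1)

theorem sg_insert {w : ℕ} {T : Finset ℕ} (h : w ∉ T) : sg (insert w T) = w + 1 + sg T := by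
  unfold sg
  rw [Finset.sum_insert h]

theorem D_le_sum (u : ℤ → ℝ≥0∞) (q z : ℝ≥0∞) (hq : q ≤ 1) (w : ℕ) (a b : ℤ) :
    D (fun y => (q * z) * u y) w a b ≤
      ∑ T ∈ (Finset.range w).powerset, q ^ sg T * Bk (fun y => z * u y) (sg T) a b := by
  induction w generalizing a with
  | zero =>
    rw [D_zero]
    simp [sg, Bk]
  | succ w ih =>
    refine (D_succ_le _ w a b).trans ?_
    rw [Finset.range_add_one, Finset.sum_powerset_insert (by simp)]
    refine add_le_add (ih a) ?_
    calc ∑' c, B (fun y => (q * z) * u y) (w + 1) a c * D (fun y => (q * z) * u y) w c b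
        ≤ ∑' c, (q ^ (w + 1) * B (fun y => z * u y) (w + 1) a c) *
            ∑ T ∈ (Finset.range w).powerset, q ^ sg T * Bk (fun y => z * u y) (sg T) c b := by
          refine ENNReal.tsum_le_tsum (fun c => ?_)
          exact mul_le_mul' (B_scale_le u q z hq _ _ _) (ih c)
      _ = ∑' c, ∑ T ∈ (Finset.range w).powerset, q ^ (w + 1 + sg T) *
            (Bk (fun y => z * u y) (w + 1) a c * Bk (fun y => z * u y) (sg T) c b) := by
          refine tsum_congr (fun c => ?_)
          rw [Finset.mul_sum]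
          refine Finset.sum_congr rfl (fun T _ => ?_)
          have : Bk (fun y => z * u y) (w + 1) a c = B (fun y => z * u y) (w + 1) a c := by
            simp [Bk]
          rw [this, pow_add]
          ring
      _ = ∑ T ∈ (Finset.range w).powerset, q ^ (w + 1 + sg T) *
            ∑' c, (Bk (fun y => z * u y) (w + 1) a c * Bk (fun y => z * u y) (sg T) c b) := by
          rw [Summable.tsum_finsetSum (fun _ _ => ENNReal.summable)]
          refine Finset.sum_congr rfl (fun T _ => ?_)
          rw [ENNReal.tsum_mul_left]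
      _ ≤ _ := by
          refine Finset.sum_le_sum (fun T hT => ?_)
          have hT' : w ∉ T := by
            intro h
            have := Finset.mem_powerset.1 hT h
            simp at this
          rw [sg_insert hT']
          exact mul_le_mul' le_rfl (Bk_conv _ _ _ _ _)

theorem prod_one_add_le (x : ℕ → ℝ≥0∞) (hx : ∑' i, x i ≠ ⊤) (w : ℕ) :
    ∏ i ∈ Finset.range w, (1 + x i) ≤ ENNReal.ofReal (Real.exp (∑' i, x i).toReal) := by
  have hxi : ∀ i, x i ≠ ⊤ := fun i => ne_top_of_le_ne_top hx (ENNReal.le_tsum i)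
  have h1 : ∀ i, 1 + x i ≤ ENNReal.ofReal (Real.exp (x i).toReal) := by
    intro i
    have : 1 + x i = ENNReal.ofReal ((x i).toReal + 1) := by
      rw [ENNReal.ofReal_add ENNReal.toReal_nonneg zero_le_one, ENNReal.ofReal_toReal (hxi i),
        ENNReal.ofReal_one, add_comm]
    rw [this]
    exact ENNReal.ofReal_le_ofReal (Real.add_one_le_exp _)
  refine (Finset.prod_le_prod' (fun i _ => h1 i)).trans ?_
  rw [← ENNReal.ofReal_prod_of_nonneg (fun i _ => (Real.exp_pos _).le), ← Real.exp_sum]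
  refine ENNReal.ofReal_le_ofReal (Real.exp_le_exp.2 ?_)
  rw [← ENNReal.toReal_sum (fun i _ => hxi i)]
  exact ENNReal.toReal_mono hx (ENNReal.sum_le_tsum _)

theorem sum_pow_sg (q : ℝ≥0∞) (w : ℕ) :
    ∑ T ∈ (Finset.range w).powerset, q ^ sg T = ∏ i ∈ Finset.range w, (1 + q ^ (i + 1)) := by
  rw [Finset.prod_one_add]
  refine Finset.sum_congr rfl (fun T _ => ?_)
  rw [Finset.prod_pow_eq_pow_sum]
  rfl

theorem sum_DD_le (u : ℤ → ℝ≥0∞) (q z : ℝ≥0∞) (hq : q < 1) (K : ℝ≥0∞)
    (hK : ∀ s, Bk (fun y => z * u y) s 0 0 ≤ K) (w : ℕ) :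
    ∑' c, D (fun y => (q * z) * u y) w c 0 * D (fun y => (q * z) * u y) w c 0 ≤
      K * (∏ i ∈ Finset.range w, (1 + q ^ (i + 1))) ^ 2 := by
  calc ∑' c, D (fun y => (q * z) * u y) w c 0 * D (fun y => (q * z) * u y) w c 0
      ≤ ∑' c, (∑ T ∈ (Finset.range w).powerset, q ^ sg T * Bk (fun y => z * u y) (sg T) c 0) *
          (∑ T' ∈ (Finset.range w).powerset, q ^ sg T' * Bk (fun y => z * u y) (sg T') c 0) := by
        refine ENNReal.tsum_le_tsum (fun c => ?_)
        exact mul_le_mul' (D_le_sum u q z hq.le w c 0) (D_le_sum u q z hq.le w c 0)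
    _ = ∑' c, ∑ T ∈ (Finset.range w).powerset, ∑ T' ∈ (Finset.range w).powerset,
          (q ^ sg T * q ^ sg T') *
            (Bk (fun y => z * u y) (sg T) 0 c * Bk (fun y => z * u y) (sg T') c 0) := by
        refine tsum_congr (fun c => ?_)
        rw [Finset.sum_mul_sum]
        refine Finset.sum_congr rfl (fun T _ => Finset.sum_congr rfl (fun T' _ => ?_))
        rw [Bk_symm _ (sg T) c 0]
        ring
    _ = ∑ T ∈ (Finset.range w).powerset, ∑ T' ∈ (Finset.range w).powerset,
          (q ^ sg T * q ^ sg T') *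
            ∑' c, (Bk (fun y => z * u y) (sg T) 0 c * Bk (fun y => z * u y) (sg T') c 0) := by
        rw [Summable.tsum_finsetSum (fun _ _ => ENNReal.summable)]
        refine Finset.sum_congr rfl (fun T _ => ?_)
        rw [Summable.tsum_finsetSum (fun _ _ => ENNReal.summable)]
        refine Finset.sum_congr rfl (fun T' _ => ?_)
        rw [ENNReal.tsum_mul_left]
    _ ≤ ∑ T ∈ (Finset.range w).powerset, ∑ T' ∈ (Finset.range w).powerset,
          (q ^ sg T * q ^ sg T') * K := by
        refine Finset.sum_le_sum (fun T _ => Finset.sum_le_sum (fun T' _ => ?_))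
        exact mul_le_mul' le_rfl ((Bk_conv _ _ _ _ _).trans (hK _))
    _ = K * (∏ i ∈ Finset.range w, (1 + q ^ (i + 1))) ^ 2 := by
        rw [← sum_pow_sg, sq, Finset.sum_mul_sum, Finset.mul_sum]
        refine Finset.sum_congr rfl (fun T _ => ?_)
        rw [Finset.mul_sum]
        refine Finset.sum_congr rfl (fun T' _ => ?_)
        ring

end Pool.Agent.Lib.MP64
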