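import Pool.Agent.Lib.MP_64d71c_pr.TwoStrand

set_option autoImplicit false

open scoped ENNReal
open List Filter Topology

namespace Pool.Agent.Lib.MP64

/-- Closed self-avoiding walks (with any root). -/
def Clo (l : List V) : Prop := Saw l ∧ ∀ x ∈ l.getLast?, ∀ y ∈ l.head?, Adj x y

theorem Clo.rotate {A B : List V} (h : Clo (A ++ B)) : Clo (B ++ A) := by
  rcases List.eq_nil_or_concat A with rfl | ⟨A', a', rfl⟩
  · simpa using h
  rcases List.eq_nil_or_concat B with rfl | ⟨B', b', rfl⟩
  · simpa using h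
  obtain ⟨hs, hc⟩ := h
  obtain ⟨s1, s2, s3, s4⟩ := saw_append.1 hs
  have hAne : A'.concat a' ≠ [] := by simp
  have hBne : B'.concat b' ≠ [] := by simp
  refine ⟨saw_append.2 ⟨s2, s1, ?_, fun a ha b hb hab => s4 b hb a ha hab.symm⟩, ?_⟩
  · intro x hx y hy
    refine hc x ?_ y ?_
    · rw [List.getLast?_append_of_ne_nil _ hBne]
      exact hx
    · rw [List.head?_append_of_ne_nil _ hAne]
      exact hy
  · intro x hx y hy
    rw [List.getLast?_append_of_ne_nil _ hAne] at hx
    rw [List.head?_append_of_ne_nil _ hBne] at hy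
    exact s3 x hx y hy

theorem Clo.map_tr {l : List V} (h : Clo l) (s t : ℤ) : Clo (l.map (tr s t)) := by
  refine ⟨h.1.map _ (tr_injective _ _) (tr_adj _ _), ?_⟩
  intro x hx y hy
  rw [List.getLast?_map, Option.mem_def, Option.map_eq_some_iff] at hx
  rw [List.head?_map, Option.mem_def, Option.map_eq_some_iff] at hy
  obtain ⟨x', hx', rfl⟩ := hx
  obtain ⟨y', hy', rfl⟩ := hy
  exact tr_adj _ _ _ _ (h.2 x' hx' y' hy')

/-- Closed walks from the origin with `n` vertices. -/
def IsCln (n : ℕ) (l : List V) : Prop := IsCl l ∧ l.length = n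

/-- Weighted number of rooted polygons with `n` edges. -/
noncomputable def Qu (u : ℤ → ℝ≥0∞) (n : ℕ) : ℝ≥0∞ := S u (IsCln n)

theorem isCl_iff {l : List V} : IsCl l ↔ Clo l ∧ l.head? = some (0, 0) := by
  unfold IsCl Clo
  constructor
  · rintro ⟨h1, h2, h3⟩
    refine ⟨⟨h1, ?_⟩, h2⟩
    intro x hx y hy
    rw [h2] at hy
    simp only [Option.mem_def, Option.some.injEq] at hy
    subst hy
    exact h3 x hx
  · rintro ⟨⟨h1, h3⟩, h2⟩
    refine ⟨h1, h2, ?_⟩
    intro x hx
    exact h3 x hx (0, 0) h2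

/-- Rotate a list with `n` elements by `j` and recentre it horizontally. -/
def rr (n j : ℕ) (l : List V) : List V :=
  (l.drop (n - j) ++ l.take (n - j)).map
    (tr (-((l.drop (n - j) ++ l.take (n - j)).head?.getD (0, 0)).1) 0)

theorem rr_eq {A B : List V} {n j : ℕ} {t : ℤ} {h0 : V} (hj : A.length = j)
    (hn : (A ++ B).length = n) (hh : (A ++ B).head? = some h0) (h0x : h0.1 = 0) :
    rr n j ((B ++ A).map (tr t 0)) = A ++ B := by
  unfold rr
  have hB : (B.map (tr t 0)).length = n - j := by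
    rw [List.length_map]
    rw [List.length_append] at hn
    omega
  have e : ((B ++ A).map (tr t 0)).drop (n - j) ++ ((B ++ A).map (tr t 0)).take (n - j) =
      (A ++ B).map (tr t 0) := by
    rw [List.map_append, ← hB, List.drop_left, List.take_left, List.map_append]
  rw [e, List.head?_map, hh]
  simp only [Option.map_some, Option.getD_some, tr, h0x, zero_add]
  have := map_tr_map_tr t 0 (-t) 0 (A ++ B)
  simp only [add_neg_cancel, add_zero, map_tr_zero] at this
  exact this

theorem Tt_le_Qu (u : ℤ → ℝ≥0∞) (n w : ℕ) (a b : ℤ) :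
    Tt u n w a b ≤ ((n + 1 : ℕ) : ℝ≥0∞) ^ 2 * Qu u n := by
  classical
  have hR : ((n + 1 : ℕ) : ℝ≥0∞) ^ 2 * Qu u n = ∑' y : (Fin (n + 1) × Fin (n + 1)) × List V,
      (if IsCln n y.2 then wt u y.2 else 0) := by
    rw [ENNReal.tsum_prod (f := fun (_ : Fin (n + 1) × Fin (n + 1)) (l : List V) =>
      if IsCln n l then wt u l else 0)]
    have h5 : ∀ c : ℝ≥0∞, ∑' _ : Fin (n + 1) × Fin (n + 1), c = ((n + 1 : ℕ) : ℝ≥0∞) ^ 2 * c := by
      intro c
      rw [tsum_fintype]
      simp
      ring
    rw [h5]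
    rfl
  rw [hR]
  unfold Tt TT
  refine tsum_le_of_surj _ _ (fun y : (Fin (n + 1) × Fin (n + 1)) × List V =>
    ((rr n y.1.2 y.2).take y.1.1, ((rr n y.1.2 y.2).drop y.1.1).reverse)) ?_
  rintro ⟨p, q⟩ h
  simp only [ne_eq, ite_eq_right_iff, not_forall] at h
  obtain ⟨⟨hT, hch⟩, -⟩ := h
  obtain ⟨x1, x2, x3, x4, x5, x6, x7, x8, x9⟩ := hT
  simp only at x1 x2 x3 x4 x5 x6 x7 x8 x9
  have hpne := ne_nil_of_head x4
  have hqne := ne_nil_of_head x5
  -- the closed walk
  have hclo : Clo (p ++ q.reverse) := by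
    refine ⟨saw_append.2 ⟨x1, x2.reverse, ?_, ?_⟩, ?_⟩
    · intro x hx y hy
      rw [List.head?_reverse] at hy
      rcases x6 with ⟨e1, e2⟩ | ⟨e1, e2⟩
      · rw [e1] at hx
        rw [e2] at hy
        simp only [Option.mem_def, Option.some.injEq] at hx hy
        subst hx; subst hy
        rw [adj_iff]
        simp
      · rw [e1] at hx
        rw [e2] at hy
        simp only [Option.mem_def, Option.some.injEq] at hx hy
        subst hx; subst hy
        rw [adj_iff]
        simp
    · intro a ha b hb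
      exact x3 a ha b (List.mem_reverse.1 hb)
    · intro x hx y hy
      rw [List.getLast?_append_of_ne_nil _ (by simpa using hqne), List.getLast?_reverse, x5] at hx
      rw [List.head?_append_of_ne_nil _ hpne, x4] at hy
      simp only [Option.mem_def, Option.some.injEq] at hx hy
      subst hx; subst hy
      rw [adj_iff]
      simp
  have hlen : (p ++ q.reverse).length = n := by simpa using x9
  have hhead : (p ++ q.reverse).head? = some (0, a) := by
    rw [List.head?_append_of_ne_nil _ hpne]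
    exact x4
  obtain ⟨v, hv, hv0⟩ : ∃ v ∈ p ++ q.reverse, v.2 = 0 := by
    rcases hch with ⟨v, hv, h0⟩ | ⟨v, hv, h0⟩
    · exact ⟨v, List.mem_append_left _ hv, h0⟩
    · exact ⟨v, List.mem_append_right _ (List.mem_reverse.2 hv), h0⟩
  obtain ⟨A, B, hAB⟩ := List.append_of_mem hv
  have hAlen : A.length + (v :: B).length = n := by
    rw [← hlen, hAB, List.length_append]
  have hplen : p.length ≤ n := by omega
  refine ⟨((⟨p.length, by omega⟩, ⟨A.length, by omega⟩),
    (v :: B ++ A).map (tr (-v.1) 0)), ?_, ?_⟩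
  · simp only
    have e := rr_eq (A := A) (B := v :: B) (n := n) (j := A.length) (t := -v.1) (h0 := (0, a)) rfl
      (by rw [← hAB]; exact hlen) (by rw [← hAB]; exact hhead) rfl
    rw [e, ← hAB, List.take_left, List.drop_left, List.reverse_reverse]
  · have hcl : IsCln n ((v :: B ++ A).map (tr (-v.1) 0)) := by
      refine ⟨isCl_iff.2 ⟨((hAB ▸ hclo).rotate).map_tr _ _, ?_⟩, ?_⟩
      · simp only [List.cons_append, List.map_cons, List.head?_cons, tr, hv0]
        simp
      · rw [List.length_map, List.length_append]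
        omega
    simp only
    rw [if_pos ⟨⟨x1, x2, x3, x4, x5, x6, x7, x8, x9⟩, hch⟩, if_pos hcl, wt_map_tr0]
    have : wt u (v :: B ++ A) = wt u p * wt u q := by
      rw [wt_append, mul_comm, ← wt_append, ← hAB, wt_append, wt_reverse]
    rw [this]

end Pool.Agent.Lib.MP64
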