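import Pool.Agent.Lib.MP_64d71c_pr.Root

set_option autoImplicit false

open scoped ENNReal
open List Filter Topology

namespace Pool.Agent.Lib.MP64

/-- Closed walks rooted at the lowest vertex `(0,a)` of their leftmost column and ending
at `(0,a+1)`. -/
def IsR (n : ℕ) (a : ℤ) (l : List V) : Prop :=
  Saw l ∧ l.head? = some (0, a) ∧ l.getLast? = some (0, a + 1) ∧ l.length = n ∧
  (∀ v ∈ l, 0 ≤ v.1 ∧ v.1 ≤ 2 * n ∧ v.2 ≤ n ∧ (v.1 = 0 → a ≤ v.2)) ∧ ∃ v ∈ l, v.2 = 0

theorem exists_corner {l : List V} (h : l ≠ []) :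
    ∃ v ∈ l, ∀ x ∈ l, v.1 ≤ x.1 ∧ (x.1 = v.1 → v.2 ≤ x.2) := by
  classical
  have hne : l.toFinset.Nonempty := by
    obtain ⟨a, ha⟩ := List.exists_mem_of_ne_nil l h
    exact ⟨a, by simpa using ha⟩
  obtain ⟨v, hv, hmin⟩ := Finset.exists_min_image l.toFinset
    (fun v : V => toLex (v.1, v.2)) hne
  refine ⟨v, by simpa using hv, ?_⟩
  intro x hx
  have h1 := hmin x (by simpa using hx)
  rw [Prod.Lex.le_iff] at h1
  simp only [ofLex_toLex] at h1
  rcases h1 with h1 | ⟨h1, h2⟩
  · exact ⟨h1.le, fun h => absurd h.symm h1.ne⟩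
  · exact ⟨h1.le, fun _ => h2⟩

/-- Reverse the tail of a list. -/
def rt (l : List V) : List V := l.take 1 ++ (l.drop 1).reverse

theorem rt_cons (v : V) (l : List V) : rt (v :: l) = v :: l.reverse := by
  simp [rt]

theorem Qu_le_sum_R (α : ℝ) (n : ℕ) (hn : 3 ≤ n) :
    Qu (hw α) n ≤ (2 * (n + 1 : ℕ) : ℝ≥0∞) *
      ∑ a ∈ Finset.range (n + 1), S (hw α) (IsR n (a : ℤ)) := by
  classical
  have hR : (2 * (n + 1 : ℕ) : ℝ≥0∞) * ∑ a ∈ Finset.range (n + 1), S (hw α) (IsR n (a : ℤ)) =
      ∑' y : (Fin (n + 1) × Bool) × (Fin (n + 1) × List V),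
      (if IsR n ((y.2.1 : ℕ) : ℤ) y.2.2 then wt (hw α) y.2.2 else 0) := by
    rw [ENNReal.tsum_prod (f := fun (_ : Fin (n + 1) × Bool) (y : Fin (n + 1) × List V) =>
      if IsR n ((y.1 : ℕ) : ℤ) y.2 then wt (hw α) y.2 else 0)]
    have h5 : ∀ c : ℝ≥0∞, ∑' _ : Fin (n + 1) × Bool, c = (2 * (n + 1 : ℕ) : ℝ≥0∞) * c := by
      intro c
      rw [tsum_fintype]
      simp
      ring
    rw [h5]
    congr 1
    rw [ENNReal.tsum_prod (f := fun (y : Fin (n + 1)) (l : List V) =>
      if IsR n ((y : ℕ) : ℤ) l then wt (hw α) l else 0)]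
    rw [tsum_fintype, Finset.sum_range]
    rfl
  rw [hR]
  unfold Qu
  refine S_le_of_surj _ (fun y : (Fin (n + 1) × Bool) × (Fin (n + 1) × List V) =>
    rr n y.1.1 (if y.1.2 then rt y.2.2 else y.2.2)) ?_
  rintro l ⟨hcl, hlen⟩ hwt
  have hnn : ∀ v ∈ l, 0 ≤ v.2 := fun v hv => nonneg_of_hw (ne_zero_of_wt hwt v hv)
  obtain ⟨hclo, hhead⟩ := isCl_iff.1 hcl
  have hne : l ≠ [] := by rintro rfl; simp at hhead
  have hdist : ∀ v ∈ l, |v.1| ≤ (n : ℤ) ∧ |v.2| ≤ (n : ℤ) := by
    intro v hv
    have h1 := chain_dist_mem hclo.1.1 (0, 0) hhead v hv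
    simp only [sub_zero] at h1
    have h2 := abs_nonneg v.1
    have h3 := abs_nonneg v.2
    omega
  obtain ⟨v, hv, hmin⟩ := exists_corner hne
  obtain ⟨A, B, hAB⟩ := List.append_of_mem hv
  have hAlen : A.length + (v :: B).length = n := by
    rw [← hlen, hAB, List.length_append]
  have hva : ((v.2.toNat : ℕ) : ℤ) = v.2 := Int.toNat_of_nonneg (hnn v hv)
  have hvn : v.2.toNat < n + 1 := by
    have := abs_le.1 (hdist v hv).2
    omega
  -- rotated walk
  have hrot : Clo (v :: B ++ A) := (hAB ▸ hclo).rotate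
  have hmem : ∀ x, x ∈ v :: B ++ A ↔ x ∈ l := by
    intro x
    rw [hAB, List.mem_append, List.mem_append]
    tauto
  -- the tail of the rotated walk
  set R : List V := B ++ A with hRdef
  have hrot' : Clo ([v] ++ R) := by simpa using hrot
  have hRlen : R.length + 1 = n := by
    rw [hRdef, List.length_append]
    simp only [List.length_cons] at hAlen
    omega
  have hmemR : ∀ x ∈ R, x ∈ l := by
    intro x hx
    rw [← hmem]
    simp only [hRdef, List.mem_append] at hx
    simp only [List.cons_append, List.mem_cons, List.mem_append]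
    tauto
  have hvR : v ∉ R := by
    have := hrot'.1.2
    rw [List.nodup_append] at this
    intro h
    exact this.2.2 v (by simp) v h rfl
  obtain ⟨s, R', hR1⟩ : ∃ s R', R = s :: R' := by
    cases hR : R with
    | nil => rw [hR] at hRlen; simp at hRlen; omega
    | cons s R' => exact ⟨s, R', rfl⟩
  have hR'ne : R' ≠ [] := by
    rintro rfl
    rw [hR1] at hRlen
    simp at hRlen
    omega
  obtain ⟨t, ht⟩ := exists_getLast (l := R') hR'ne
  have hRlast : R.getLast? = some t := by
    rw [hR1, List.getLast?_cons_of_ne_nil hR'ne, ht]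
  have hvs : Adj v s := by
    obtain ⟨-, -, h3, -⟩ := saw_append.1 hrot'.1
    exact h3 v (by simp) s (by simp [hR1])
  have hvt : Adj t v := by
    have := hrot'.2
    rw [List.getLast?_append_of_ne_nil _ (by simp [hR1]), hRlast] at this
    exact this t rfl v (by simp)
  have hst : s ≠ t := by
    intro h
    have h1 := (saw_append.1 hrot'.1).2.1.2
    rw [hR1, List.nodup_cons] at h1
    exact h1.1 (h ▸ List.mem_of_getLast? ht)
  have hsl : s ∈ l := hmemR s (by simp [hR1])
  have htl : t ∈ l := hmemR t (List.mem_of_getLast? hRlast)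
  have hs4 := hvs.cases
  have ht4 := hvt.symm.cases
  have hms := hmin s hsl
  have hmt := hmin t htl
  have hpos : ∀ x ∈ (v :: B ++ A).map (tr (-v.1) 0), 0 ≤ x.1 ∧ x.1 ≤ 2 * n ∧ x.2 ≤ n ∧
      (x.1 = 0 → v.2 ≤ x.2) := by
    intro x hx
    rw [List.mem_map] at hx
    obtain ⟨y, hy, rfl⟩ := hx
    have hyl := (hmem y).1 hy
    have h1 := hmin y hyl
    have h2 := abs_le.1 (hdist y hyl).1
    have h3 := abs_le.1 (hdist y hyl).2
    have h4 := abs_le.1 (hdist v hv).1
    simp only [tr]
    omega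
  have htouch : ∃ x ∈ (v :: B ++ A).map (tr (-v.1) 0), x.2 = 0 := by
    refine ⟨tr (-v.1) 0 (0, 0), ?_, by simp [tr]⟩
    rw [List.mem_map]
    exact ⟨(0, 0), (hmem _).2 (List.mem_of_head? hhead), rfl⟩
  have hrr := rr_eq (A := A) (B := v :: B) (n := n) (j := A.length) (t := -v.1) (h0 := (0, 0)) rfl
      (by rw [← hAB]; exact hlen) (by rw [← hAB]; exact hhead) rfl
  have hwteq : wt (hw α) l = wt (hw α) ((v :: B ++ A).map (tr (-v.1) 0)) := by
    rw [wt_map_tr0, wt_append, mul_comm, ← wt_append, ← hAB]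
  by_cases hc : t = (v.1, v.2 + 1)
  · -- the last vertex is above the corner
    refine ⟨((⟨A.length, by omega⟩, false), (⟨v.2.toNat, hvn⟩,
      (v :: B ++ A).map (tr (-v.1) 0))), ?_, ?_⟩
    · simp only [Bool.false_eq_true, if_false]
      rw [hrr, hAB]
    · simp only
      rw [hva, if_pos, hwteq]
      refine ⟨hrot.1.map _ (tr_injective _ _) (tr_adj _ _), ?_, ?_, ?_, hpos, htouch⟩
      · simp [tr]
      · rw [List.getLast?_map]
        have : (v :: B ++ A).getLast? = some t := by
          have h1 : v :: B ++ A = [v] ++ R := by simp [hRdef]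
          rw [h1, List.getLast?_append_of_ne_nil _ (by simp [hR1]), hRlast]
        rw [this, hc]
        simp [tr]
      · rw [List.length_map, List.length_append]
        omega
  · -- the second vertex is above the corner
    have hs2 : s = (v.1, v.2 + 1) := by
      have hc' : ¬ (t.1 = v.1 ∧ t.2 = v.2 + 1) := fun h => hc (Prod.ext h.1 h.2)
      have hst' : ¬ (s.1 = t.1 ∧ s.2 = t.2) := fun h => hst (Prod.ext h.1 h.2)
      ext
      · simp only
        omega
      · simp only
        omega
    have hl2 : (v :: R.reverse) = (R ++ [v]).reverse := by simp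
    have hsaw2 : Saw (v :: R.reverse) := by
      rw [hl2]
      exact (hrot'.rotate).1.reverse
    have hmemeq : ∀ x, x ∈ (v :: R.reverse).map (tr (-v.1) 0) ↔
        x ∈ (v :: B ++ A).map (tr (-v.1) 0) := by
      intro x
      simp only [List.mem_map, List.mem_cons, List.mem_reverse, List.cons_append, hRdef]
    refine ⟨((⟨A.length, by omega⟩, true), (⟨v.2.toNat, hvn⟩,
      (v :: R.reverse).map (tr (-v.1) 0))), ?_, ?_⟩
    · simp only [if_true]
      rw [List.map_cons, rt_cons, ← List.map_reverse, List.reverse_reverse, ← List.map_cons]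
      have h1 : v :: R = v :: B ++ A := by simp [hRdef]
      rw [h1, hrr, hAB]
    · simp only
      rw [hva, if_pos]
      · rw [wt_map_tr0, wt_cons, wt_reverse, ← wt_cons]
        have h1 : v :: R = v :: B ++ A := by simp [hRdef]
        rw [h1, hwteq, wt_map_tr0]
      · refine ⟨hsaw2.map _ (tr_injective _ _) (tr_adj _ _), ?_, ?_, ?_, ?_, ?_⟩
        · simp [tr]
        · rw [List.getLast?_map]
          have : (v :: R.reverse).getLast? = some s := by
            rw [List.getLast?_cons_of_ne_nil (by simp [hR1]), List.getLast?_reverse, hR1]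
            rfl
          rw [this, hs2]
          simp [tr]
        · rw [List.length_map, List.length_cons, List.length_reverse]
          omega
        · intro x hx
          exact hpos x ((hmemeq x).1 hx)
        · obtain ⟨x, hx, hx0⟩ := htouch
          exact ⟨x, (hmemeq x).2 hx, hx0⟩

theorem R_le_sum_T (α : ℝ) (n : ℕ) (hn : 3 ≤ n) (a : ℤ) :
    S (hw α) (IsR n a) ≤ ∑ w ∈ Finset.range (2 * n + 2), ∑ b ∈ Finset.range (n + 1),
      Tt (hw α) n w a (b : ℤ) := by
  classical
  have hR : ∑ w ∈ Finset.range (2 * n + 2), ∑ b ∈ Finset.range (n + 1),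
      Tt (hw α) n w a (b : ℤ) = ∑' y : (Fin (2 * n + 2) × Fin (n + 1)) × (List V × List V),
      (if IsT n y.1.1 a ((y.1.2 : ℕ) : ℤ) y.2 ∧ Tch y.2 then
        wt (hw α) y.2.1 * wt (hw α) y.2.2 else 0) := by
    rw [ENNReal.tsum_prod (f := fun (y : Fin (2 * n + 2) × Fin (n + 1)) (x : List V × List V) =>
      if IsT n y.1 a ((y.2 : ℕ) : ℤ) x ∧ Tch x then wt (hw α) x.1 * wt (hw α) x.2 else 0)]
    rw [tsum_fintype, Fintype.sum_prod_type, Finset.sum_range]
    refine Finset.sum_congr rfl (fun w _ => ?_)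
    rw [Finset.sum_range]
    refine Finset.sum_congr rfl (fun b _ => ?_)
    unfold Tt TT
    refine tsum_congr (fun x => ?_)
    by_cases h : IsT n w a ((b : ℕ) : ℤ) x ∧ Tch x
    · rw [if_pos h, if_pos h]
    · rw [if_neg h, if_neg h]
  rw [hR]
  refine S_le_of_surj _ (fun y : (Fin (2 * n + 2) × Fin (n + 1)) × (List V × List V) =>
    y.2.1 ++ y.2.2.reverse) ?_
  rintro l ⟨hs, hhead, hlast, hlen, hbox, htouch⟩ hwt
  have hnn : ∀ v ∈ l, 0 ≤ v.2 := fun v hv => nonneg_of_hw (ne_zero_of_wt hwt v hv)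
  -- the second vertex is (1, a)
  obtain ⟨y, l', rfl⟩ : ∃ y l', l = y :: l' := by
    cases l with
    | nil => simp at hhead
    | cons y l' => exact ⟨y, l', rfl⟩
  simp only [List.head?_cons, Option.some.injEq] at hhead
  subst hhead
  obtain ⟨s, l'', rfl⟩ : ∃ s l'', l' = s :: l'' := by
    cases l' with
    | nil => simp at hlen; omega
    | cons s l'' => exact ⟨s, l'', rfl⟩
  have hl''ne : l'' ≠ [] := by
    rintro rfl
    simp at hlen
    omega
  have hadj : Adj (0, a) s := (List.isChain_cons_cons.1 hs.1).1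
  have hlast' : l''.getLast? = some (0, a + 1) := by
    rw [List.getLast?_cons_cons, List.getLast?_cons_of_ne_nil hl''ne] at hlast
    exact hlast
  have hsne : s ≠ (0, a + 1) := by
    intro h
    have h1 := hs.2
    rw [List.nodup_cons, List.nodup_cons] at h1
    exact h1.2.1 (h ▸ List.mem_of_getLast? hlast')
  have hs1 : s.1 = 1 := by
    have h1 := hadj.cases
    have h2 := hbox s (by simp)
    have h3 : ¬ (s.1 = 0 ∧ s.2 = a + 1) := fun h => hsne (Prod.ext h.1 h.2)
    simp only at h1
    omega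
  -- maximal abscissa
  obtain ⟨M, ⟨v0, hv0, hv0M⟩, hM⟩ : ∃ M : ℤ, (∃ v ∈ (0, a) :: s :: l'', v.1 = M) ∧
      ∀ v ∈ (0, a) :: s :: l'', v.1 ≤ M := by
    obtain ⟨m, ⟨v, hv, hvm⟩, hm⟩ := exists_min_first
      (l := (((0, a) :: s :: l'').map (rf 0))) (by simp)
    rw [List.mem_map] at hv
    obtain ⟨x, hx, rfl⟩ := hv
    refine ⟨-m, ⟨x, hx, ?_⟩, ?_⟩
    · simp only [rf] at hvm
      omega
    · intro z hz
      have := hm (rf 0 z) (List.mem_map.2 ⟨z, hz, rfl⟩)
      simp only [rf] at this
      omega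
  have hM1 : 1 ≤ M := by
    have := hM s (by simp)
    omega
  have hM2 : M ≤ 2 * n := by
    have := (hbox v0 hv0).2.1
    omega
  have hhead : ((0, a) :: s :: l'').head? = some (0, a) := rfl
  set L : List V := (0, a) :: s :: l'' with hL
  clear_value L
  obtain ⟨C, v1, D, hCD, hv1, hC⟩ := exists_split_first (fun v : V => v.1 = M) L ⟨v0, hv0, hv0M⟩
  have hCne : C ≠ [] := by
    rintro rfl
    rw [hCD] at hhead
    simp only [List.nil_append, List.head?_cons, Option.some.injEq] at hhead
    rw [hhead] at hv1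
    simp only at hv1
    omega
  have hDne : D ≠ [] := by
    rintro rfl
    rw [hCD] at hlast
    simp only [List.getLast?_append, List.getLast?_singleton, Option.some_or,
      Option.some.injEq] at hlast
    rw [hlast] at hv1
    simp only at hv1
    omega
  obtain ⟨v2, D', hD⟩ : ∃ v2 D', D = v2 :: D' := by
    cases hD : D with
    | nil => exact absurd hD hDne
    | cons v2 D' => exact ⟨v2, D', rfl⟩
  obtain ⟨c, hc⟩ := exists_getLast hCne
  have hassoc : L = (C ++ [v1]) ++ D := by rw [hCD]; simp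
  rw [hassoc] at hs
  obtain ⟨s1, s2, hadj12, hdisj⟩ := saw_append.1 hs
  obtain ⟨-, -, hadjc, -⟩ := saw_append.1 s1
  have hcv1 : Adj c v1 := hadjc c hc v1 (by simp)
  have hv12 : Adj v1 v2 := hadj12 v1 (by simp) v2 (by simp [hD])
  have hcC : c ∈ C := List.mem_of_getLast? hc
  have hcL : c ∈ L := by rw [hCD]; exact List.mem_append_left _ hcC
  have hv1L : v1 ∈ L := by rw [hCD]; simp
  have hv2L : v2 ∈ L := by rw [hCD, hD]; simp
  have hcM := hM c hcL
  have hcne := hC c hcC
  have hv2M := hM v2 hv2L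
  have hcv2 : c ≠ v2 := hdisj c (by simp [hcC]) v2 (by simp [hD])
  have hv2x : v2.1 = M ∧ (v2.2 = v1.2 + 1 ∨ v2.2 = v1.2 - 1) := by
    have h1 := hcv1.cases
    have h2 := hv12.cases
    have h3 : ¬ (c.1 = v2.1 ∧ c.2 = v2.2) := fun h => hcv2 (Prod.ext h.1 h.2)
    omega
  have hbox' : ∀ x ∈ L, 0 ≤ x.1 ∧ x.1 ≤ (((M + 1).toNat : ℕ) : ℤ) - 1 := by
    intro x hx
    have h1 := (hbox x hx).1
    have h2 := hM x hx
    omega
  have hMnat : (((M + 1).toNat : ℕ) : ℤ) - 1 = M := by omega
  set b : ℤ := min v1.2 v2.2 with hb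
  have hb0 : 0 ≤ b := le_min (hnn v1 hv1L) (hnn v2 hv2L)
  have hbn : b ≤ n := (min_le_left _ _).trans (hbox v1 hv1L).2.2.1
  have hbnat : ((b.toNat : ℕ) : ℤ) = b := Int.toNat_of_nonneg hb0
  have hlastD : D.getLast? = some (0, a + 1) := by
    rw [hassoc, List.getLast?_append_of_ne_nil _ hDne] at hlast
    exact hlast
  refine ⟨((⟨(M + 1).toNat, by omega⟩, ⟨b.toNat, by omega⟩), (C ++ [v1], D.reverse)), ?_, ?_⟩
  · simp only
    rw [List.reverse_reverse, ← hassoc]
  · simp only
    rw [hbnat, if_pos, wt_reverse, ← wt_append, ← hassoc]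
    refine ⟨⟨s1, s2.reverse, ?_, ?_, ?_, ?_, ?_, ?_, ?_⟩, ?_⟩
    · intro u hu v hv
      exact hdisj u hu v (List.mem_reverse.1 hv)
    · rw [hCD] at hhead
      simp only
      rw [List.head?_append_of_ne_nil _ hCne] at hhead ⊢
      exact hhead
    · simp only
      rw [List.head?_reverse]
      exact hlastD
    · simp only
      rw [hMnat, List.getLast?_reverse, hD]
      simp only [List.getLast?_append, List.getLast?_singleton, Option.some_or,
        Option.some.injEq, List.head?_cons]
      rcases hv2x.2 with h | h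
      · left
        constructor
        · ext
          · exact hv1
          · simp only
            omega
        · ext
          · exact hv2x.1
          · simp only
            omega
      · right
        constructor
        · ext
          · exact hv1
          · simp only
            omega
        · ext
          · exact hv2x.1
          · simp only
            omega
    · intro x hx
      refine hbox' x ?_
      rw [hassoc]
      exact List.mem_append_left _ hx
    · intro x hx
      refine hbox' x ?_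
      rw [hassoc]
      exact List.mem_append_right _ (List.mem_reverse.1 hx)
    · simp only [List.length_reverse]
      rw [← List.length_append, ← hassoc]
      exact hlen
    · obtain ⟨x, hx, hx0⟩ := htouch
      rw [hassoc, List.mem_append] at hx
      rcases hx with hx | hx
      · exact Or.inl ⟨x, hx, hx0⟩
      · exact Or.inr ⟨x, List.mem_reverse.2 hx, hx0⟩

end Pool.Agent.Lib.MP64
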