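import Pool.Agent.Lib.MP_64d71c_pr.Bulk

set_option autoImplicit false

open scoped ENNReal
open List

namespace Pool.Agent.Lib.MP64

/-- Number of walks with `n` vertices. -/
noncomputable def cc (n : ℕ) : ℝ≥0∞ := cw (fun _ => 1) n

/-- Bridges with `n` vertices from the origin. -/
def IsBB (n : ℕ) (l : List V) : Prop := (∃ w b, IsBr w 0 b l) ∧ l.length = n

/-- Number of bridges with `n` vertices. -/
noncomputable def bb (n : ℕ) : ℝ≥0∞ := S (fun _ => 1) (IsBB n)

/-- Loop bridges: bridges from height `0` to height `0` with `n` vertices. -/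
def IsLB (n : ℕ) (l : List V) : Prop := (∃ w, IsBr w 0 0 l) ∧ l.length = n

/-- Weighted number of loop bridges. -/
noncomputable def lb (u : ℤ → ℝ≥0∞) (n : ℕ) : ℝ≥0∞ := S u (IsLB n)

/-- Loops: walks from the origin to height `0` with `n` vertices. -/
def IsLoop (n : ℕ) (l : List V) : Prop :=
  Saw l ∧ l.head? = some (0, 0) ∧ (∃ x, l.getLast? = some (x, 0)) ∧ l.length = n

/-- Weighted number of loops. -/
noncomputable def lo (u : ℤ → ℝ≥0∞) (n : ℕ) : ℝ≥0∞ := S u (IsLoop n)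

/-- The last vertex of a list, or the origin. -/
def lastv (l : List V) : V := l.getLast?.getD (0, 0)

theorem lastv_of {l : List V} {v : V} (h : l.getLast? = some v) : lastv l = v := by
  simp [lastv, h]

theorem IsBr.append_tr {w w' : ℕ} {a b c : ℤ} {l m : List V} (h : IsBr w a c l)
    (h' : IsBr w' 0 b m) : IsBr (w + w') a (b + c) (l ++ m.map (tr w c)) := by
  have h2 := h'.tr0 c
  rw [zero_add] at h2
  have := h.append h2
  rw [map_tr_map_tr] at this
  simpa using this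

theorem append_map_inj {n : ℕ} {l m l' m' : List V} {f : V → V}
    (hl : l.length = n) (hl' : l'.length = n) (hf : Function.Injective f)
    (h : l ++ m.map f = l' ++ m'.map f) : l = l' ∧ m = m' := by
  obtain ⟨h1, h2⟩ := List.append_inj h (hl.trans hl'.symm)
  exact ⟨h1, List.map_injective_iff.2 hf h2⟩

theorem bb_mul_le (n m : ℕ) : bb n * bb m ≤ bb (n + m) := by
  classical
  unfold bb
  rw [S_mul_S]
  unfold S
  refine tsum_le_of_inj _ _ (fun p : List V × List V =>
    p.1 ++ p.2.map (tr ((lastv p.1).1 + 1) (lastv p.1).2)) ?_ ?_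
  · rintro ⟨l, m⟩ ⟨l', m'⟩ h h' heq
    simp only [ne_eq, ite_eq_right_iff, not_forall] at h h' heq
    obtain ⟨⟨h1, h2⟩, -⟩ := h
    obtain ⟨⟨h1', h2'⟩, -⟩ := h'
    obtain ⟨e1, e2⟩ := List.append_inj heq (h1.2.trans h1'.2.symm)
    subst e1
    have := List.map_injective_iff.2 (tr_injective _ _) e2
    rw [this]
  · rintro ⟨l, m⟩ h
    simp only [ne_eq, ite_eq_right_iff, not_forall] at h
    obtain ⟨⟨h1, h2⟩, -⟩ := h
    simp only [h1, h2, and_self, if_true]
    obtain ⟨⟨w, b, h1⟩, h3⟩ := h1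
    obtain ⟨⟨w', b', h2⟩, h4⟩ := h2
    have e : lastv l = ((w : ℤ) - 1, b) := lastv_of h1.2.2.1
    rw [if_pos]
    · rw [wt_append, wt_map_tr]
    · refine ⟨⟨w + w', b' + b, ?_⟩, ?_⟩
      · have := h1.append_tr h2
        rw [e]
        simpa using this
      · simp [h3, h4]

theorem lb_mul_le (u : ℤ → ℝ≥0∞) (n m : ℕ) : lb u n * lb u m ≤ lb u (n + m) := by
  classical
  unfold lb
  rw [S_mul_S]
  unfold S
  refine tsum_le_of_inj _ _ (fun p : List V × List V =>
    p.1 ++ p.2.map (tr ((lastv p.1).1 + 1) 0)) ?_ ?_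
  · rintro ⟨l, m⟩ ⟨l', m'⟩ h h' heq
    simp only [ne_eq, ite_eq_right_iff, not_forall] at h h' heq
    obtain ⟨⟨h1, h2⟩, -⟩ := h
    obtain ⟨⟨h1', h2'⟩, -⟩ := h'
    obtain ⟨e1, e2⟩ := List.append_inj heq (h1.2.trans h1'.2.symm)
    subst e1
    have := List.map_injective_iff.2 (tr_injective _ _) e2
    rw [this]
  · rintro ⟨l, m⟩ h
    simp only [ne_eq, ite_eq_right_iff, not_forall] at h
    obtain ⟨⟨h1, h2⟩, -⟩ := h
    simp only [h1, h2, and_self, if_true]
    obtain ⟨⟨w, h1⟩, h3⟩ := h1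
    obtain ⟨⟨w', h2⟩, h4⟩ := h2
    have e : lastv l = ((w : ℤ) - 1, 0) := lastv_of h1.2.2.1
    rw [if_pos]
    · rw [wt_append, wt_map_tr0]
    · refine ⟨⟨w + w', ?_⟩, ?_⟩
      · have := h1.append h2
        rw [e]
        simpa using this
      · simp [h3, h4]

/-- The four directions. -/
def dir : Fin 4 → V := ![(1, 0), (-1, 0), (0, 1), (0, -1)]

theorem exists_dir {p q : V} (h : Adj p q) : ∃ d, q = (p.1 + (dir d).1, p.2 + (dir d).2) := by
  rcases h.cases with h | h | h | h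
  · exact ⟨0, by ext <;> simp [dir, h.1, h.2]⟩
  · exact ⟨1, by ext <;> simp [dir, h.1, h.2]; ring⟩
  · exact ⟨2, by ext <;> simp [dir, h.1, h.2]⟩
  · exact ⟨3, by ext <;> simp [dir, h.1, h.2]; ring⟩

theorem cc_add_le (n m : ℕ) (hn : 0 < n) (hm : 0 < m) : cc (n + m) ≤ 4 * (cc n * cc m) := by
  classical
  unfold cc cw
  rw [S_mul_S]
  have h4 : (4 : ℝ≥0∞) * ∑' x : List V × List V,
      (if IsC n x.1 ∧ IsC m x.2 then wt (fun _ => 1) x.1 * wt (fun _ => 1) x.2 else 0) =
      ∑' y : Fin 4 × (List V × List V), (if IsC n y.2.1 ∧ IsC m y.2.2 then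
        wt (fun _ => 1) y.2.1 * wt (fun _ => 1) y.2.2 else 0) := by
    rw [ENNReal.tsum_prod (f := fun (_ : Fin 4) (x : List V × List V) =>
      if IsC n x.1 ∧ IsC m x.2 then
        wt (fun _ => 1) x.1 * wt (fun _ => 1) x.2 else 0)]
    have h5 : ∀ c : ℝ≥0∞, ∑' _ : Fin 4, c = 4 * c := by
      intro c
      rw [tsum_fintype]
      simp
    rw [h5]
  rw [h4]
  refine S_le_of_surj _ (fun y : Fin 4 × (List V × List V) =>
    y.2.1 ++ y.2.2.map (tr ((lastv y.2.1).1 + (dir y.1).1) ((lastv y.2.1).2 + (dir y.1).2))) ?_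
  rintro l ⟨hs, hh, hl⟩ -
  have hsplit : l = l.take n ++ l.drop n := (List.take_append_drop n l).symm
  have l1 : (l.take n).length = n := by rw [List.length_take]; omega
  have l2 : (l.drop n).length = m := by rw [List.length_drop]; omega
  obtain ⟨v, hv⟩ := exists_getLast (l := l.take n) (by
    intro h; rw [h] at l1; simp at l1; omega)
  obtain ⟨w, hw⟩ : ∃ w, (l.drop n).head? = some w := by
    cases h : l.drop n with
    | nil => rw [h] at l2; simp at l2; omega
    | cons a t => exact ⟨a, rfl⟩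
  rw [hsplit] at hs
  obtain ⟨s1, s2, hadj, -⟩ := saw_append.1 hs
  obtain ⟨d, hd⟩ := exists_dir (hadj v hv w hw)
  refine ⟨(d, (l.take n, (l.drop n).map (tr (-w.1) (-w.2)))), ?_, ?_⟩
  · simp only
    rw [lastv_of hv, map_tr_map_tr, hd]
    simp only
    have e1 : (-(v.1 + (dir d).1) + (v.1 + (dir d).1) : ℤ) = 0 := by ring
    have e2 : (-(v.2 + (dir d).2) + (v.2 + (dir d).2) : ℤ) = 0 := by ring
    rw [e1, e2, map_tr_zero]
    exact hsplit.symm
  · have c1 : IsC n (l.take n) := by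
      refine ⟨s1, ?_, l1⟩
      rw [hsplit, List.head?_append] at hh
      cases h : l.take n with
      | nil => rw [h] at l1; simp at l1; omega
      | cons a t => rw [h] at hh; simpa using hh
    have c2 : IsC m ((l.drop n).map (tr (-w.1) (-w.2))) := by
      refine ⟨s2.map _ (tr_injective _ _) (tr_adj _ _), ?_, by simpa using l2⟩
      rw [List.head?_map, hw]
      simp [tr]
    rw [if_pos ⟨c1, c2⟩]
    simp [wt_const]

theorem cc_zero : cc 0 = 0 := by
  classical
  unfold cc cw S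
  rw [ENNReal.tsum_eq_zero]
  intro l
  rw [if_neg]
  rintro ⟨_, h1, h2⟩
  rw [List.length_eq_zero_iff] at h2
  subst h2
  simp at h1

theorem cc_one_le : cc 1 ≤ 1 := by
  classical
  unfold cc cw S
  rw [tsum_eq_single [(0,0)]]
  · split_ifs <;> simp [wt_const]
  · intro l hl
    rw [if_neg]
    rintro ⟨_, h1, h2⟩
    rw [List.length_eq_one_iff] at h2
    obtain ⟨a, rfl⟩ := h2
    simp at h1
    exact hl (by rw [h1])

theorem cc_le_pow (n : ℕ) : cc n ≤ 4 ^ n := by
  induction n with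
  | zero => rw [cc_zero]; simp
  | succ n ih =>
    rcases Nat.eq_zero_or_pos n with rfl | hn
    · refine cc_one_le.trans ?_
      norm_num
    · refine (cc_add_le n 1 hn one_pos).trans ?_
      calc 4 * (cc n * cc 1) ≤ 4 * (4 ^ n * 1) :=
            mul_le_mul' le_rfl (mul_le_mul' ih cc_one_le)
        _ = 4 ^ (n + 1) := by ring

theorem cc_ne_top (n : ℕ) : cc n ≠ ⊤ :=
  ne_top_of_le_ne_top (by simp [ENNReal.pow_eq_top_iff]) (cc_le_pow n)

theorem bb_le_cc (n : ℕ) : bb n ≤ cc n := by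
  refine S_mono_pred ?_
  rintro l ⟨⟨w, b, h⟩, h2⟩
  exact ⟨h.1, h.2.1, h2⟩

theorem isBr_one (a : ℤ) : IsBr 1 a a [(0, a)] := by
  refine ⟨⟨List.isChain_singleton _, List.nodup_singleton _⟩, rfl, by simp, by simp⟩

theorem le_bb_one : 1 ≤ bb 1 := by
  classical
  unfold bb S
  refine le_trans ?_ (ENNReal.le_tsum [((0, 0) : V)])
  rw [if_pos ⟨⟨1, 0, isBr_one 0⟩, rfl⟩]
  simp [wt_const]

theorem le_bb (n : ℕ) (hn : 0 < n) : 1 ≤ bb n := by
  induction n with
  | zero => omega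
  | succ n ih =>
    rcases Nat.eq_zero_or_pos n with rfl | hn'
    · exact le_bb_one
    · refine le_trans ?_ (bb_mul_le n 1)
      calc (1 : ℝ≥0∞) = 1 * 1 := by ring
        _ ≤ bb n * bb 1 := mul_le_mul' (ih hn') le_bb_one

theorem le_lb_one (u : ℤ → ℝ≥0∞) : u 0 ≤ lb u 1 := by
  classical
  unfold lb S
  refine le_trans ?_ (ENNReal.le_tsum [((0, 0) : V)])
  rw [if_pos ⟨⟨1, isBr_one 0⟩, rfl⟩]
  simp [wt]

theorem le_lb (u : ℤ → ℝ≥0∞) (n : ℕ) (hn : 0 < n) : (u 0) ^ n ≤ lb u n := by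
  induction n with
  | zero => omega
  | succ n ih =>
    rcases Nat.eq_zero_or_pos n with rfl | hn'
    · simpa using le_lb_one u
    · refine le_trans ?_ (lb_mul_le u n 1)
      rw [pow_succ]
      exact mul_le_mul' (ih hn') (le_lb_one u)

end Pool.Agent.Lib.MP64
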