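import Pool.Agent.Lib.MP_64d71c_pr.WalkLimit

set_option autoImplicit false

open scoped ENNReal
open List Filter Topology

namespace Pool.Agent.Lib.MP64

/-- The critical fugacity. -/
noncomputable def zc : ℝ≥0∞ := ENNReal.ofReal (Real.exp (-k2))

theorem cc_pow_ge (n : ℕ) (hn : 0 < n) (k : ℕ) : 4 * cc ((k + 1) * n) ≤ (4 * cc n) ^ (k + 1) := by
  induction k with
  | zero => simp
  | succ k ih =>
    have h1 : (k + 1 + 1) * n = (k + 1) * n + n := by ring
    rw [h1, pow_succ]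
    calc 4 * cc ((k + 1) * n + n) ≤ 4 * (4 * (cc ((k + 1) * n) * cc n)) :=
          mul_le_mul' le_rfl (cc_add_le _ _ (by positivity) hn)
      _ = (4 * cc ((k + 1) * n)) * (4 * cc n) := by ring
      _ ≤ (4 * cc n) ^ (k + 1) * (4 * cc n) := mul_le_mul' ih le_rfl

theorem cc_lower (n : ℕ) (hn : 0 < n) : ENNReal.ofReal (Real.exp (k2 * n)) ≤ 4 * cc n := by
  have hn' : (0 : ℝ) < n := by exact_mod_cast hn
  have htop : 4 * cc n ≠ ⊤ := ENNReal.mul_ne_top (by norm_num) (cc_ne_top n)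
  have h1 : 1 ≤ 4 * cc n := by
    calc (1 : ℝ≥0∞) = 1 * 1 := by ring
      _ ≤ 4 * cc n := mul_le_mul' (by norm_num) ((le_bb n hn).trans (bb_le_cc n))
  have hpos : 0 < (4 * cc n).toReal := by
    refine ENNReal.toReal_pos ?_ htop
    intro h
    rw [h] at h1
    simp at h1
  have h2 : ∀ k : ℕ, Real.log (bb ((k + 1) * n)).toReal / (((k + 1) * n : ℕ) : ℝ) ≤
      Real.log (4 * cc n).toReal / n := by
    intro k
    have hkn : 0 < (k + 1) * n := by positivity
    have e1 : bb ((k + 1) * n) ≤ (4 * cc n) ^ (k + 1) := by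
      refine le_trans ?_ (cc_pow_ge n hn k)
      refine (bb_le_cc _).trans ?_
      calc cc ((k + 1) * n) = 1 * cc ((k + 1) * n) := by ring
        _ ≤ 4 * cc ((k + 1) * n) := mul_le_mul' (by norm_num) le_rfl
    have e2 := ENNReal.toReal_mono (ENNReal.pow_ne_top htop) e1
    rw [ENNReal.toReal_pow] at e2
    have e3 := Real.log_le_log (bb_toReal_pos hkn) e2
    rw [Real.log_pow] at e3
    rw [div_le_div_iff₀ (by positivity) hn']
    push_cast at e3 ⊢
    nlinarith
  have h3 : Tendsto (fun k : ℕ => (k + 1) * n) atTop atTop := by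
    refine tendsto_atTop_mono (fun k => ?_) tendsto_id
    simp only [id]
    nlinarith
  have h4 := le_of_tendsto (k2_tendsto.comp h3) (Eventually.of_forall h2)
  rw [le_div_iff₀ hn'] at h4
  rw [← ENNReal.ofReal_toReal htop]
  refine ENNReal.ofReal_le_ofReal ?_
  rw [← Real.le_log_iff_exp_le hpos]
  exact h4

theorem one_le_zc (n : ℕ) (hn : 0 < n) : 1 ≤ zc ^ n * (4 * cc n) := by
  calc (1 : ℝ≥0∞) = zc ^ n * ENNReal.ofReal (Real.exp (k2 * n)) := by
        unfold zc
        rw [← ENNReal.ofReal_pow (Real.exp_pos _).le, ← Real.exp_nat_mul,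
          ← ENNReal.ofReal_mul (Real.exp_pos _).le, ← Real.exp_add]
        have : (n : ℝ) * -k2 + k2 * n = 0 := by ring
        rw [this]
        simp
    _ ≤ zc ^ n * (4 * cc n) := mul_le_mul' le_rfl (cc_lower n hn)

theorem le_Dt_sq (n : ℕ) : (n : ℝ≥0∞) ≤ 4 * (Dt zc n) ^ 2 := by
  calc (n : ℝ≥0∞) = ∑ k ∈ Finset.range n, 1 := by simp
    _ ≤ ∑ k ∈ Finset.range n, zc ^ (k + 1) * (4 * cc (k + 1)) :=
        Finset.sum_le_sum (fun k _ => one_le_zc (k + 1) (Nat.succ_pos k))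
    _ ≤ ∑ k ∈ Finset.range (n + 1), zc ^ k * (4 * cc k) := by
        rw [Finset.sum_range_succ' _ n]
        exact le_self_add
    _ = 4 * ∑ k ∈ Finset.range (n + 1), zc ^ k * cc k := by
        rw [Finset.mul_sum]
        refine Finset.sum_congr rfl (fun k _ => ?_)
        ring
    _ ≤ 4 * (Dt zc n) ^ 2 := mul_le_mul' le_rfl (sum_cw_le zc n)

theorem tsum_Bt_zc : ∑' i : ℕ, Bt zc (i + 1) = ⊤ := by
  by_contra h
  have h1 : ∀ n : ℕ, (n : ℝ≥0∞) ≤ 4 * (ENNReal.ofReal
      (Real.exp (∑' i : ℕ, Bt zc (i + 1)).toReal)) ^ 2 := by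
    intro n
    refine (le_Dt_sq n).trans (mul_le_mul' le_rfl (pow_le_pow_left' ?_ 2))
    exact (Dt_le_prod zc n).trans (prod_one_add_le (fun i => Bt zc (i + 1)) h n)
  have h2 : 4 * (ENNReal.ofReal (Real.exp (∑' i : ℕ, Bt zc (i + 1)).toReal)) ^ 2 ≠ ⊤ :=
    ENNReal.mul_ne_top (by norm_num) (ENNReal.pow_ne_top ENNReal.ofReal_ne_top)
  obtain ⟨n, hn⟩ := ENNReal.exists_nat_gt h2
  exact absurd (h1 n) (not_le.2 hn)

theorem tsum_pow_succ_ne_top {q : ℝ≥0∞} (hq : q < 1) : ∑' i : ℕ, q ^ (i + 1) ≠ ⊤ := by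
  refine ne_top_of_le_ne_top (b := (1 - q)⁻¹) ?_ ?_
  · rw [ENNReal.inv_ne_top]
    exact (tsub_pos_of_lt hq).ne'
  · rw [← ENNReal.tsum_geometric]
    exact ENNReal.tsum_comp_le_tsum_of_injective (f := fun i : ℕ => i + 1)
      (fun a b h => by simpa using h) (fun n => q ^ n)

theorem ofReal_exp_neg_lt_one {ε : ℝ} (h : 0 < ε) : ENNReal.ofReal (Real.exp (-ε)) < 1 := by
  rw [← ENNReal.ofReal_one]
  refine (ENNReal.ofReal_lt_ofReal_iff one_pos).2 ?_
  rw [Real.exp_lt_one_iff]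
  linarith

theorem exists_Bt_gt {q : ℝ≥0∞} (hq : q < 1) : ∃ w : ℕ, 0 < w ∧ q ^ w < Bt zc w := by
  by_contra h
  push Not at h
  have h1 : ∑' i : ℕ, Bt zc (i + 1) ≤ ∑' i : ℕ, q ^ (i + 1) :=
    ENNReal.tsum_le_tsum (fun i => h (i + 1) (Nat.succ_pos i))
  rw [tsum_Bt_zc, top_le_iff] at h1
  exact tsum_pow_succ_ne_top hq h1

theorem Bk_tr (z : ℝ≥0∞) (w : ℕ) (a b t : ℤ) :
    Bk (fun _ => z) w (a + t) (b + t) = Bk (fun _ => z) w a b := by
  unfold Bk
  rw [B_tr]
  simp

theorem sum_Bk_pow (z : ℝ≥0∞) (w : ℕ) (hw : 0 < w) (R : ℕ) (j : ℕ) :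
    (∑ d ∈ Finset.Icc (-(R : ℤ)) R, B (fun _ => z) w 0 d) ^ j ≤
      ∑ y ∈ Finset.Icc (-((j * R : ℕ) : ℤ)) ((j * R : ℕ) : ℤ), Bk (fun _ => z) (j * w) 0 y := by
  induction j with
  | zero => simp [Bk]
  | succ j ih =>
    rw [pow_succ]
    calc (∑ d ∈ Finset.Icc (-(R : ℤ)) R, B (fun _ => z) w 0 d) ^ j *
          (∑ d ∈ Finset.Icc (-(R : ℤ)) R, B (fun _ => z) w 0 d)
        ≤ (∑ y ∈ Finset.Icc (-((j * R : ℕ) : ℤ)) ((j * R : ℕ) : ℤ),
            Bk (fun _ => z) (j * w) 0 y) *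
          (∑ d ∈ Finset.Icc (-(R : ℤ)) R, B (fun _ => z) w 0 d) := mul_le_mul' ih le_rfl
      _ = ∑ y ∈ Finset.Icc (-((j * R : ℕ) : ℤ)) ((j * R : ℕ) : ℤ),
            ∑ d ∈ Finset.Icc (-(R : ℤ)) R,
              Bk (fun _ => z) (j * w) 0 y * Bk (fun _ => z) w y (d + y) := by
          rw [Finset.sum_mul_sum]
          refine Finset.sum_congr rfl (fun y _ => Finset.sum_congr rfl (fun d _ => ?_))
          congr 1
          have := Bk_tr z w 0 d y
          rw [zero_add] at this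
          rw [this]
          simp [Bk, hw.ne']
      _ ≤ ∑ y ∈ Finset.Icc (-((j * R : ℕ) : ℤ)) ((j * R : ℕ) : ℤ),
            ∑ x ∈ Finset.Icc (-(((j + 1) * R : ℕ) : ℤ)) (((j + 1) * R : ℕ) : ℤ),
              Bk (fun _ => z) (j * w) 0 y * Bk (fun _ => z) w y x := by
          refine Finset.sum_le_sum (fun y hy => ?_)
          rw [← Finset.sum_image (s := Finset.Icc (-(R : ℤ)) R) (g := fun d => d + y)
            (f := fun x => Bk (fun _ => z) (j * w) 0 y * Bk (fun _ => z) w y x)]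
          · refine Finset.sum_le_sum_of_subset ?_
            intro x hx
            rw [Finset.mem_image] at hx
            obtain ⟨d, hd, rfl⟩ := hx
            rw [Finset.mem_Icc] at *
            push_cast at *
            constructor
            · nlinarith [hd.1, hy.1]
            · nlinarith [hd.2, hy.2]
          · intro a _ b _ h
            simpa using h
      _ = ∑ x ∈ Finset.Icc (-(((j + 1) * R : ℕ) : ℤ)) (((j + 1) * R : ℕ) : ℤ),
            ∑ y ∈ Finset.Icc (-((j * R : ℕ) : ℤ)) ((j * R : ℕ) : ℤ),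
              Bk (fun _ => z) (j * w) 0 y * Bk (fun _ => z) w y x := Finset.sum_comm
      _ ≤ _ := by
          refine Finset.sum_le_sum (fun x _ => ?_)
          refine (ENNReal.sum_le_tsum _).trans ?_
          have := Bk_conv (fun _ => z) (j * w) w 0 x
          have e : (j + 1) * w = j * w + w := by ring
          rw [e]
          exact this

theorem Bk_sq_le (u : ℤ → ℝ≥0∞) (w : ℕ) (y : ℤ) :
    (Bk u w 0 y) ^ 2 ≤ Bk u (w + w) 0 0 := by
  rw [sq]
  nth_rewrite 2 [Bk_symm u w 0 y]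
  exact (ENNReal.le_tsum y).trans (Bk_conv u w w 0 0)

theorem exists_B_gt {ε : ℝ} (hε : 0 < ε) : ∃ w : ℕ, 0 < w ∧
    ENNReal.ofReal (Real.exp (-ε * w)) < B (fun _ => zc) w 0 0 := by
  by_contra hcon
  push Not at hcon
  obtain ⟨w, hw, hBt⟩ := exists_Bt_gt (ofReal_exp_neg_lt_one hε)
  rw [← ENNReal.ofReal_pow (Real.exp_pos _).le, ← Real.exp_nat_mul] at hBt
  -- truncate
  obtain ⟨R, hR⟩ : ∃ R : ℕ, ENNReal.ofReal (Real.exp (w * -ε)) <
      ∑ d ∈ Finset.Icc (-(R : ℤ)) R, B (fun _ => zc) w 0 d := by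
    unfold Bt at hBt
    rw [ENNReal.tsum_eq_iSup_sum, lt_iSup_iff] at hBt
    obtain ⟨s, hs⟩ := hBt
    refine ⟨s.sup (fun y => y.natAbs), hs.trans_le (Finset.sum_le_sum_of_subset ?_)⟩
    intro y hy
    have : y.natAbs ≤ s.sup (fun y => y.natAbs) := Finset.le_sup (f := fun y => y.natAbs) hy
    rw [Finset.mem_Icc]
    omega
  set m : ℝ≥0∞ := ∑ d ∈ Finset.Icc (-(R : ℤ)) R, B (fun _ => zc) w 0 d with hm
  have hB : ∀ j : ℕ, 0 < j → ∀ y, Bk (fun _ => zc) (j * w) 0 y ≤
      ENNReal.ofReal (Real.exp (-ε * w) ^ j) := by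
    intro j hj y
    have h1 := Bk_sq_le (fun _ => zc) (j * w) y
    have h2 : 0 < j * w + j * w := by positivity
    have h3 := hcon (j * w + j * w) h2
    have h4 : Bk (fun _ => zc) (j * w + j * w) 0 0 = B (fun _ => zc) (j * w + j * w) 0 0 := by
      rw [Bk, if_neg h2.ne']
    rw [h4] at h1
    have h5 := h1.trans h3
    have h6 : ENNReal.ofReal (Real.exp (-ε * ((j * w + j * w : ℕ) : ℝ))) =
        (ENNReal.ofReal (Real.exp (-ε * w) ^ j)) ^ 2 := by
      rw [← ENNReal.ofReal_pow (by positivity), ← Real.exp_nat_mul, ← Real.exp_nat_mul]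
      congr 2
      push_cast
      ring
    rw [h6] at h5
    exact (ENNReal.pow_le_pow_left_iff (by norm_num)).1 h5
  have hj : ∀ j : ℕ, 0 < j → m ^ j ≤ ENNReal.ofReal ((2 * (j * R) + 1) *
      Real.exp (-ε * w) ^ j) := by
    intro j hj
    refine (sum_Bk_pow zc w hw R j).trans ?_
    refine (Finset.sum_le_sum (fun y _ => hB j hj y)).trans ?_
    rw [Finset.sum_const, nsmul_eq_mul, ← ENNReal.ofReal_natCast, ← ENNReal.ofReal_mul
      (by positivity)]
    refine ENNReal.ofReal_le_ofReal (le_of_eq ?_)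
    congr 1
    rw [Int.card_Icc]
    have : ((((j * R : ℕ) : ℤ) + 1 - -((j * R : ℕ) : ℤ)).toNat : ℝ) =
        ((2 * (j * R) + 1 : ℕ) : ℝ) := by
      congr 1
      omega
    rw [this]
    push_cast
    ring
  have hmtop : m ≠ ⊤ := by
    have := hj 1 one_pos
    rw [pow_one] at this
    exact ne_top_of_le_ne_top ENNReal.ofReal_ne_top this
  set θ : ℝ := m.toReal * Real.exp (ε * w) with hθ
  have hθ1 : 1 < θ := by
    have h1 : Real.exp (w * -ε) < m.toReal := by
      have := (ENNReal.toReal_lt_toReal ENNReal.ofReal_ne_top hmtop).2 hR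
      rwa [ENNReal.toReal_ofReal (Real.exp_pos _).le] at this
    have h2 : Real.exp (w * -ε) * Real.exp (ε * w) = 1 := by
      rw [← Real.exp_add]
      have : (w : ℝ) * -ε + ε * w = 0 := by ring
      rw [this, Real.exp_zero]
    rw [← h2, hθ]
    exact mul_lt_mul_of_pos_right h1 (Real.exp_pos _)
  have hpow : ∀ j : ℕ, 0 < j → θ ^ j ≤ 2 * (j * R) + 1 := by
    intro j hj0
    have h1 := ENNReal.toReal_le_of_le_ofReal (by positivity) (hj j hj0)
    rw [ENNReal.toReal_pow] at h1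
    rw [hθ, mul_pow]
    calc m.toReal ^ j * Real.exp (ε * w) ^ j
        ≤ ((2 * (j * R) + 1) * Real.exp (-ε * w) ^ j) * Real.exp (ε * w) ^ j :=
          mul_le_mul_of_nonneg_right h1 (by positivity)
      _ = (2 * (j * R) + 1) * (Real.exp (-ε * w) * Real.exp (ε * w)) ^ j := by
          rw [mul_pow]; ring
      _ = 2 * (j * R) + 1 := by
          rw [← Real.exp_add]
          have : -ε * w + ε * w = 0 := by ring
          rw [this, Real.exp_zero, one_pow, mul_one]
  have hlim := tendsto_pow_const_div_const_pow_of_one_lt 1 hθ1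
  have hlim2 : Tendsto (fun n : ℕ => (1 : ℝ) / θ ^ n) atTop (𝓝 0) := by
    simpa using tendsto_pow_const_div_const_pow_of_one_lt 0 hθ1
  have hlim3 : Tendsto (fun n : ℕ => 2 * R * ((n : ℝ) ^ 1 / θ ^ n) + 1 / θ ^ n) atTop (𝓝 0) := by
    have := (hlim.const_mul (2 * (R : ℝ))).add hlim2
    simpa using this
  obtain ⟨n, hn, hn0⟩ := (((tendsto_order.1 hlim3).2 1 one_pos).and (eventually_gt_atTop 0)).exists
  have h1 := hpow n hn0
  have h2 : (0 : ℝ) < θ ^ n := by positivity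
  have h3 : 2 * R * ((n : ℝ) ^ 1 / θ ^ n) + 1 / θ ^ n = (2 * (n * R) + 1) / θ ^ n := by
    field_simp
  rw [h3, div_lt_one h2] at hn
  linarith

/-- If loop bridges grow faster than `k2`, some width has kernel larger than one at `zc`. -/
theorem exists_B_hw_gt {α : ℝ} (h : k2 < la α) : ∃ s : ℕ, 0 < s ∧
    1 < B (fun y => zc * hw α y) s 0 0 := by
  by_contra hcon
  push Not at hcon
  obtain ⟨κ', h1, h2⟩ := exists_between h
  set q : ℝ≥0∞ := ENNReal.ofReal (Real.exp (-(κ' - k2))) with hq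
  have hq1 : q < 1 := ofReal_exp_neg_lt_one (by linarith)
  have hqz : q * zc = ENNReal.ofReal (Real.exp (-κ')) := by
    rw [hq, zc, ← ENNReal.ofReal_mul (Real.exp_pos _).le, ← Real.exp_add]
    congr 2
    ring
  have hB0 : B (fun y => (q * zc) * hw α y) 0 0 0 = 0 := by
    classical
    unfold B S
    rw [ENNReal.tsum_eq_zero]
    intro l
    rw [if_neg]
    intro hl
    have := hl.2.2.2 (0, 0) (List.mem_of_head? hl.2.1)
    simp at this
  have hsum : ∀ n : ℕ, (q * zc) ^ n * lb (hw α) n ≤ ∑' i : ℕ, q ^ (i + 1) := by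
    intro n
    unfold lb
    rw [← S_length (q * zc) (hw α) n (fun l hl => hl.2)]
    calc S (fun y => (q * zc) * hw α y) (IsLB n)
        ≤ ∑' s : ℕ, B (fun y => (q * zc) * hw α y) s 0 0 :=
          S_le_tsum _ (fun l ⟨⟨w, h⟩, _⟩ => ⟨w, h⟩)
      _ = ∑' s : ℕ, B (fun y => (q * zc) * hw α y) (s + 1) 0 0 := by
          rw [tsum_eq_zero_add' ENNReal.summable, hB0, zero_add]
      _ ≤ ∑' i : ℕ, q ^ (i + 1) := by
          refine ENNReal.tsum_le_tsum (fun i => ?_)
          refine (B_scale_le (hw α) q zc hq1.le (i + 1) 0 0).trans ?_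
          calc q ^ (i + 1) * B (fun y => zc * hw α y) (i + 1) 0 0 ≤ q ^ (i + 1) * 1 :=
                mul_le_mul' le_rfl (hcon (i + 1) (Nat.succ_pos i))
            _ = q ^ (i + 1) := mul_one _
  have hK := tsum_pow_succ_ne_top hq1
  set K : ℝ := (∑' i : ℕ, q ^ (i + 1)).toReal with hKdef
  have h3 : ∀ n : ℕ, lb (hw α) n ≤ ENNReal.ofReal (K * Real.exp (κ' * n)) := by
    intro n
    have h4 : lb (hw α) n = ENNReal.ofReal (Real.exp (κ' * n)) *
        ((q * zc) ^ n * lb (hw α) n) := by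
      rw [← mul_assoc, hqz, ← ENNReal.ofReal_pow (Real.exp_pos _).le, ← Real.exp_nat_mul,
        ← ENNReal.ofReal_mul (Real.exp_pos _).le, ← Real.exp_add]
      have : κ' * n + n * -κ' = 0 := by ring
      rw [this]
      simp
    rw [h4, mul_comm K, ENNReal.ofReal_mul (Real.exp_pos _).le]
    refine mul_le_mul' le_rfl ((hsum n).trans ?_)
    rw [hKdef, ENNReal.ofReal_toReal hK]
  have h5 : Tendsto (fun n : ℕ => Real.log K / n + κ') atTop (𝓝 (0 + κ')) :=
    (tendsto_const_div_atTop_nhds_zero_nat _).add tendsto_const_nhds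
  rw [zero_add] at h5
  have hKpos : 0 < K := by
    have h6 := ENNReal.toReal_le_of_le_ofReal (by positivity) (h3 1)
    have h7 := lb_toReal_pos α one_pos
    by_contra hK0
    push Not at hK0
    have := mul_nonpos_of_nonpos_of_nonneg hK0 (Real.exp_pos (κ' * (1 : ℕ))).le
    linarith
  have h6 := le_of_tendsto_of_tendsto (la_tendsto α) h5 (by
    filter_upwards [eventually_gt_atTop 0] with n hn
    have hn' : (0 : ℝ) < n := by exact_mod_cast hn
    have h7 := ENNReal.toReal_le_of_le_ofReal (by positivity) (h3 n)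
    have h8 := Real.log_le_log (lb_toReal_pos α hn) h7
    rw [Real.log_mul hKpos.ne' (Real.exp_pos _).ne', Real.log_exp] at h8
    have h9 : Real.log K / n + κ' = (Real.log K + κ' * n) / n := by
      field_simp
    rw [h9]
    gcongr)
  linarith

end Pool.Agent.Lib.MP64
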