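import Pool.Agent.Lib.MP_64d71c_pr.Polygon

set_option autoImplicit false

open scoped ENNReal
open List Filter Topology

namespace Pool.Agent.Lib.MP64

/-- Pairs of disjoint walks crossing a slab of width `w`, from heights `a, a+1` on the left to
heights `b, b+1` (in some order) on the right, with `n` vertices in total. -/
def IsT (n w : ℕ) (a b : ℤ) (x : List V × List V) : Prop :=
  Saw x.1 ∧ Saw x.2 ∧ (∀ u ∈ x.1, ∀ v ∈ x.2, u ≠ v) ∧
  x.1.head? = some (0, a) ∧ x.2.head? = some (0, a + 1) ∧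
  ((x.1.getLast? = some ((w : ℤ) - 1, b) ∧ x.2.getLast? = some ((w : ℤ) - 1, b + 1)) ∨
   (x.1.getLast? = some ((w : ℤ) - 1, b + 1) ∧ x.2.getLast? = some ((w : ℤ) - 1, b))) ∧
  (∀ v ∈ x.1, 0 ≤ v.1 ∧ v.1 ≤ (w : ℤ) - 1) ∧ (∀ v ∈ x.2, 0 ≤ v.1 ∧ v.1 ≤ (w : ℤ) - 1) ∧
  x.1.length + x.2.length = n

/-- One of the two strands touches the surface. -/
def Tch (x : List V × List V) : Prop := (∃ v ∈ x.1, v.2 = 0) ∨ (∃ v ∈ x.2, v.2 = 0)

open Classical in
/-- Weighted sum over pairs of lists. -/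
noncomputable def TT (u : ℤ → ℝ≥0∞) (P : List V × List V → Prop) : ℝ≥0∞ :=
  ∑' x : List V × List V, if P x then wt u x.1 * wt u x.2 else 0

theorem TT_mul (u : ℤ → ℝ≥0∞) (P Q : List V × List V → Prop) [DecidablePred P]
    [DecidablePred Q] : TT u P * TT u Q = ∑' x : (List V × List V) × (List V × List V),
      (if P x.1 ∧ Q x.2 then (wt u x.1.1 * wt u x.1.2) * (wt u x.2.1 * wt u x.2.2) else 0) := by
  unfold TT
  rw [ENNReal.tsum_prod (f := fun a b => if P a ∧ Q b then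
    (wt u a.1 * wt u a.2) * (wt u b.1 * wt u b.2) else 0)]
  rw [← ENNReal.tsum_mul_right]
  congr 1
  funext l
  rw [← ENNReal.tsum_mul_left]
  congr 1
  funext m
  by_cases h1 : P l <;> by_cases h2 : Q m <;> simp [h1, h2]

theorem saw_append_tr {l m : List V} {w : ℕ} {c : ℤ} (hl : Saw l) (hm : Saw m)
    (hlast : l.getLast? = some ((w : ℤ) - 1, c)) (hhead : m.head? = some (0, c))
    (hlx : ∀ v ∈ l, v.1 ≤ (w : ℤ) - 1) (hmx : ∀ v ∈ m, 0 ≤ v.1) :
    Saw (l ++ m.map (tr w 0)) := by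
  rw [saw_append]
  refine ⟨hl, hm.map _ (tr_injective _ _) (tr_adj _ _), ?_, ?_⟩
  · intro x hx y hy
    rw [hlast] at hx
    rw [List.head?_map, hhead] at hy
    simp only [Option.mem_def, Option.some.injEq, Option.map_some] at hx hy
    subst hx; subst hy
    rw [adj_iff]
    simp [tr]
  · intro x hx y hy hxy
    rw [List.mem_map] at hy
    obtain ⟨z, hz, rfl⟩ := hy
    have e1 := hlx x hx
    have e2 := hmx z hz
    rw [hxy] at e1
    simp only [tr] at e1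
    omega

theorem ne_nil_of_head {l : List V} {v : V} (h : l.head? = some v) : l ≠ [] := by
  rintro rfl
  simp at h

theorem comp_aux {n n' w w' : ℕ} {a c β1 β2 γ1 γ2 : ℤ} {p q m1 m2 : List V}
    (hp : Saw p) (hq : Saw q) (hpq : ∀ u ∈ p, ∀ v ∈ q, u ≠ v)
    (hph : p.head? = some (0, a)) (hqh : q.head? = some (0, a + 1))
    (hpl : p.getLast? = some ((w : ℤ) - 1, β1)) (hql : q.getLast? = some ((w : ℤ) - 1, β2))
    (hpx : ∀ v ∈ p, 0 ≤ v.1 ∧ v.1 ≤ (w : ℤ) - 1) (hqx : ∀ v ∈ q, 0 ≤ v.1 ∧ v.1 ≤ (w : ℤ) - 1)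
    (hlen : p.length + q.length = n)
    (hm1 : Saw m1) (hm2 : Saw m2) (hm : ∀ u ∈ m1, ∀ v ∈ m2, u ≠ v)
    (h1h : m1.head? = some (0, β1)) (h2h : m2.head? = some (0, β2))
    (h1l : m1.getLast? = some ((w' : ℤ) - 1, γ1)) (h2l : m2.getLast? = some ((w' : ℤ) - 1, γ2))
    (h1x : ∀ v ∈ m1, 0 ≤ v.1 ∧ v.1 ≤ (w' : ℤ) - 1)
    (h2x : ∀ v ∈ m2, 0 ≤ v.1 ∧ v.1 ≤ (w' : ℤ) - 1)
    (hlen' : m1.length + m2.length = n')
    (hγ : (γ1 = c ∧ γ2 = c + 1) ∨ (γ1 = c + 1 ∧ γ2 = c)) :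
    IsT (n + n') (w + w') a c (p ++ m1.map (tr w 0), q ++ m2.map (tr w 0)) := by
  have hlast : ∀ (l m : List V) (γ : ℤ), m.getLast? = some ((w' : ℤ) - 1, γ) →
      (l ++ m.map (tr w 0)).getLast? = some (((w + w' : ℕ) : ℤ) - 1, γ) := by
    intro l m γ h
    rw [List.getLast?_append, List.getLast?_map, h]
    simp only [Option.map_some, tr, Option.some_or, add_zero, Option.some.injEq, Prod.mk.injEq,
      and_true]
    push_cast
    ring
  have hbox : ∀ (l m : List V), (∀ v ∈ l, 0 ≤ v.1 ∧ v.1 ≤ (w : ℤ) - 1) →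
      (∀ v ∈ m, 0 ≤ v.1 ∧ v.1 ≤ (w' : ℤ) - 1) → ∀ v ∈ l ++ m.map (tr w 0),
      0 ≤ v.1 ∧ v.1 ≤ ((w + w' : ℕ) : ℤ) - 1 := by
    intro l m h1 h2 v hv
    rw [List.mem_append, List.mem_map] at hv
    rcases hv with hv | ⟨z, hz, rfl⟩
    · have := h1 v hv
      push_cast
      omega
    · have := h2 z hz
      simp only [tr]
      push_cast
      omega
  have hhead : ∀ (l m : List V) (v : V), l.head? = some v →
      (l ++ m).head? = some v := by
    intro l m v h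
    rw [List.head?_append, h]
    rfl
  refine ⟨?_, ?_, ?_, hhead _ _ _ hph, hhead _ _ _ hqh, ?_, hbox _ _ hpx h1x, hbox _ _ hqx h2x, ?_⟩
  · exact saw_append_tr hp hm1 hpl h1h (fun v hv => (hpx v hv).2) (fun v hv => (h1x v hv).1)
  · exact saw_append_tr hq hm2 hql h2h (fun v hv => (hqx v hv).2) (fun v hv => (h2x v hv).1)
  · intro u hu v hv huv
    simp only at hu hv
    rw [List.mem_append, List.mem_map] at hu hv
    rcases hu with hu | ⟨u', hu', rfl⟩ <;> rcases hv with hv | ⟨v', hv', rfl⟩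
    · exact hpq u hu v hv huv
    · have e1 := hpx u hu
      have e2 := h2x v' hv'
      rw [huv] at e1
      simp only [tr] at e1
      omega
    · have e1 := hqx v hv
      have e2 := h1x u' hu'
      rw [← huv] at e1
      simp only [tr] at e1
      omega
    · exact hm u' hu' v' hv' (tr_injective _ _ huv)
  · rcases hγ with ⟨rfl, rfl⟩ | ⟨rfl, rfl⟩
    · exact Or.inl ⟨hlast _ _ _ h1l, hlast _ _ _ h2l⟩
    · exact Or.inr ⟨hlast _ _ _ h1l, hlast _ _ _ h2l⟩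
  · simp only [List.length_append, List.length_map]
    omega

open Classical in
/-- Composition of two crossing pairs. -/
noncomputable def comp (w : ℕ) (b : ℤ) (x y : List V × List V) : List V × List V :=
  if x.1.getLast? = some ((w : ℤ) - 1, b) then
    (x.1 ++ y.1.map (tr w 0), x.2 ++ y.2.map (tr w 0))
  else (x.1 ++ y.2.map (tr w 0), x.2 ++ y.1.map (tr w 0))

theorem IsT.comp {n n' w w' : ℕ} {a b c : ℤ} {x y : List V × List V}
    (hx : IsT n w a b x) (hy : IsT n' w' b c y) :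
    IsT (n + n') (w + w') a c (comp w b x y) := by
  obtain ⟨x1, x2, x3, x4, x5, x6, x7, x8, x9⟩ := hx
  obtain ⟨y1, y2, y3, y4, y5, y6, y7, y8, y9⟩ := hy
  unfold MP64.comp
  rcases x6 with ⟨x6, x6'⟩ | ⟨x6, x6'⟩
  · rw [if_pos x6]
    rcases y6 with ⟨y6, y6'⟩ | ⟨y6, y6'⟩
    · exact comp_aux x1 x2 x3 x4 x5 x6 x6' x7 x8 x9 y1 y2 y3 y4 y5 y6 y6' y7 y8 y9
        (Or.inl ⟨rfl, rfl⟩)
    · exact comp_aux x1 x2 x3 x4 x5 x6 x6' x7 x8 x9 y1 y2 y3 y4 y5 y6 y6' y7 y8 y9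
        (Or.inr ⟨rfl, rfl⟩)
  · rw [if_neg (by
      rw [x6]
      simp)]
    have y3' : ∀ u ∈ y.2, ∀ v ∈ y.1, u ≠ v := fun u hu v hv h => y3 v hv u hu h.symm
    rcases y6 with ⟨y6, y6'⟩ | ⟨y6, y6'⟩
    · exact comp_aux x1 x2 x3 x4 x5 x6 x6' x7 x8 x9 y2 y1 y3' y5 y4 y6' y6 y8 y7
        (by omega) (Or.inr ⟨rfl, rfl⟩)
    · exact comp_aux x1 x2 x3 x4 x5 x6 x6' x7 x8 x9 y2 y1 y3' y5 y4 y6' y6 y8 y7
        (by omega) (Or.inl ⟨rfl, rfl⟩)

theorem Tch.comp {w : ℕ} {b : ℤ} {x y : List V × List V} (hx : Tch x) :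
    Tch (comp w b x y) := by
  unfold MP64.comp Tch at *
  split_ifs
  · rcases hx with ⟨v, hv, h0⟩ | ⟨v, hv, h0⟩
    · exact Or.inl ⟨v, List.mem_append_left _ hv, h0⟩
    · exact Or.inr ⟨v, List.mem_append_left _ hv, h0⟩
  · rcases hx with ⟨v, hv, h0⟩ | ⟨v, hv, h0⟩
    · exact Or.inl ⟨v, List.mem_append_left _ hv, h0⟩
    · exact Or.inr ⟨v, List.mem_append_left _ hv, h0⟩

theorem wt_comp (u : ℤ → ℝ≥0∞) (w : ℕ) (b : ℤ) (x y : List V × List V) :
    wt u (comp w b x y).1 * wt u (comp w b x y).2 =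
      (wt u x.1 * wt u x.2) * (wt u y.1 * wt u y.2) := by
  unfold comp
  split_ifs
  · simp only [wt_append, wt_map_tr0]
    ring
  · simp only [wt_append, wt_map_tr0]
    ring

theorem comp_inj {n n' w w' : ℕ} {a b c : ℤ} {x y x' y' : List V × List V}
    (hx : IsT n w a b x) (hy : IsT n' w' b c y) (hx' : IsT n w a b x') (hy' : IsT n' w' b c y')
    (h : comp w b x y = comp w b x' y') : x = x' ∧ y = y' := by
  have key : ∀ l m l' m' : List V, (∀ v ∈ l, 0 ≤ v.1 ∧ v.1 ≤ (w : ℤ) - 1) →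
      (∀ v ∈ m, 0 ≤ v.1 ∧ v.1 ≤ (w' : ℤ) - 1) → (∀ v ∈ l', 0 ≤ v.1 ∧ v.1 ≤ (w : ℤ) - 1) →
      (∀ v ∈ m', 0 ≤ v.1 ∧ v.1 ≤ (w' : ℤ) - 1) →
      l ++ m.map (tr w 0) = l' ++ m'.map (tr w 0) → l = l' ∧ m = m' := by
    intro l m l' m' h1 h2 h3 h4 heq
    have hm : ∀ m : List V, (∀ v ∈ m, 0 ≤ v.1 ∧ v.1 ≤ (w' : ℤ) - 1) →
        ∀ v ∈ m.map (tr w 0), decide (v.1 ≤ (w : ℤ) - 1) = false := by
      intro m hm v hv
      rw [List.mem_map] at hv
      obtain ⟨z, hz, rfl⟩ := hv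
      have := (hm z hz).1
      rw [decide_eq_false_iff_not]
      simp only [tr]
      omega
    obtain ⟨e1, e2⟩ := append_split_eq (fun v : V => decide (v.1 ≤ (w : ℤ) - 1))
      (fun v hv => decide_eq_true (h1 v hv).2) (hm m h2)
      (fun v hv => decide_eq_true (h3 v hv).2) (hm m' h4) heq
    exact ⟨e1, List.map_injective_iff.2 (tr_injective _ _) e2⟩
  obtain ⟨-, -, -, -, -, -, x7, x8, -⟩ := hx
  obtain ⟨-, -, -, -, -, -, y7, y8, -⟩ := hy
  obtain ⟨-, -, -, -, -, -, x7', x8', -⟩ := hx'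
  obtain ⟨-, -, -, -, -, -, y7', y8', -⟩ := hy'
  unfold comp at h
  split_ifs at h with h1 h2 h2
  · rw [Prod.mk.injEq] at h
    obtain ⟨e1, e2⟩ := key _ _ _ _ x7 y7 x7' y7' h.1
    obtain ⟨e3, e4⟩ := key _ _ _ _ x8 y8 x8' y8' h.2
    exact ⟨Prod.ext e1 e3, Prod.ext e2 e4⟩
  · rw [Prod.mk.injEq] at h
    obtain ⟨e1, -⟩ := key _ _ _ _ x7 y7 x7' y8' h.1
    rw [e1] at h1
    exact absurd h1 h2
  · rw [Prod.mk.injEq] at h
    obtain ⟨e1, -⟩ := key _ _ _ _ x7 y8 x7' y7' h.1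
    rw [e1] at h1
    exact absurd h2 h1
  · rw [Prod.mk.injEq] at h
    obtain ⟨e1, e2⟩ := key _ _ _ _ x7 y8 x7' y8' h.1
    obtain ⟨e3, e4⟩ := key _ _ _ _ x8 y7 x8' y7' h.2
    exact ⟨Prod.ext e1 e3, Prod.ext e4 e2⟩

/-- Two-strand kernel. -/
noncomputable def T (u : ℤ → ℝ≥0∞) (n w : ℕ) (a b : ℤ) : ℝ≥0∞ := TT u (IsT n w a b)

/-- Two-strand kernel of pairs touching the surface. -/
noncomputable def Tt (u : ℤ → ℝ≥0∞) (n w : ℕ) (a b : ℤ) : ℝ≥0∞ :=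
  TT u (fun x => IsT n w a b x ∧ Tch x)

theorem Tt_mul_T (u : ℤ → ℝ≥0∞) (n n' w w' : ℕ) (a b c : ℤ) :
    Tt u n w a b * T u n' w' b c ≤ Tt u (n + n') (w + w') a c := by
  classical
  unfold Tt T
  rw [TT_mul]
  unfold TT
  refine tsum_le_of_inj _ _ (fun p => comp w b p.1 p.2) ?_ ?_
  · rintro ⟨x, y⟩ ⟨x', y'⟩ h h' heq
    simp only [ne_eq, ite_eq_right_iff, not_forall] at h h' heq
    obtain ⟨e1, e2⟩ := comp_inj h.1.1.1 h.1.2 h'.1.1.1 h'.1.2 heq
    rw [e1, e2]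
  · rintro ⟨x, y⟩ h
    simp only [ne_eq, ite_eq_right_iff, not_forall] at h
    have h1 := h.1
    simp only [h1, and_self, if_true]
    rw [if_pos ⟨h1.1.1.comp h1.2, h1.1.2.comp⟩, wt_comp]

theorem Tt_le_T (u : ℤ → ℝ≥0∞) (n w : ℕ) (a b : ℤ) : Tt u n w a b ≤ T u n w a b := by
  classical
  unfold Tt T TT
  refine ENNReal.tsum_le_tsum (fun x => ?_)
  by_cases h : IsT n w a b x
  · by_cases h2 : Tch x
    · simp [h, h2]
    · simp [h, h2]
  · simp [h]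

theorem Tt_mul_Tt (u : ℤ → ℝ≥0∞) (n n' w w' : ℕ) (a b c : ℤ) :
    Tt u n w a b * Tt u n' w' b c ≤ Tt u (n + n') (w + w') a c :=
  (mul_le_mul' le_rfl (Tt_le_T _ _ _ _ _)).trans (Tt_mul_T _ _ _ _ _ _ _ _)

/-- Reflected and reversed list. -/
def rv (w : ℕ) (l : List V) : List V := (l.map (rf ((w : ℤ) - 1))).reverse

theorem rv_rv (w : ℕ) (l : List V) : rv w (rv w l) = l := by
  unfold rv
  rw [List.map_reverse, List.reverse_reverse, map_rf_map_rf]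

theorem rv_inj {w : ℕ} {l m : List V} (h : rv w l = rv w m) : l = m := by
  rw [← rv_rv w l, h, rv_rv]

theorem saw_rv {w : ℕ} {l : List V} (h : Saw l) : Saw (rv w l) :=
  (h.map _ (rf_injective _) (rf_adj _)).reverse

theorem rv_head {w : ℕ} {l : List V} {c : ℤ} (h : l.getLast? = some ((w : ℤ) - 1, c)) :
    (rv w l).head? = some (0, c) := by
  unfold rv
  rw [List.head?_reverse, List.getLast?_map, h]
  simp [rf]

theorem rv_last {w : ℕ} {l : List V} {c : ℤ} (h : l.head? = some (0, c)) :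
    (rv w l).getLast? = some ((w : ℤ) - 1, c) := by
  unfold rv
  rw [List.getLast?_reverse, List.head?_map, h]
  simp [rf]

theorem mem_rv {w : ℕ} {l : List V} {v : V} : v ∈ rv w l ↔ rf ((w : ℤ) - 1) v ∈ l := by
  unfold rv
  rw [List.mem_reverse, List.mem_map]
  constructor
  · rintro ⟨x, hx, rfl⟩
    rwa [rf_rf]
  · intro h
    exact ⟨_, h, rf_rf _ _⟩

theorem rv_box {w : ℕ} {l : List V} (h : ∀ v ∈ l, 0 ≤ v.1 ∧ v.1 ≤ (w : ℤ) - 1) :
    ∀ v ∈ rv w l, 0 ≤ v.1 ∧ v.1 ≤ (w : ℤ) - 1 := by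
  intro v hv
  rw [mem_rv] at hv
  have := h _ hv
  simp only [rf] at this
  omega

theorem rv_disj {w : ℕ} {l m : List V} (h : ∀ u ∈ l, ∀ v ∈ m, u ≠ v) :
    ∀ u ∈ rv w l, ∀ v ∈ rv w m, u ≠ v := by
  intro u hu v hv huv
  rw [mem_rv] at hu hv
  exact h _ hu _ hv (by rw [huv])

theorem rv_length {w : ℕ} {l : List V} : (rv w l).length = l.length := by
  unfold rv
  simp

theorem wt_rv (u : ℤ → ℝ≥0∞) (w : ℕ) (l : List V) : wt u (rv w l) = wt u l := by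
  unfold rv
  rw [wt_reverse, wt_map_rf]

open Classical in
/-- Reflection of a crossing pair. -/
noncomputable def rvT (w : ℕ) (b : ℤ) (x : List V × List V) : List V × List V :=
  if x.1.getLast? = some ((w : ℤ) - 1, b) then (rv w x.1, rv w x.2) else (rv w x.2, rv w x.1)

theorem IsT.rvT {n w : ℕ} {a b : ℤ} {x : List V × List V} (hx : IsT n w a b x) :
    IsT n w b a (rvT w b x) := by
  obtain ⟨x1, x2, x3, x4, x5, x6, x7, x8, x9⟩ := hx
  unfold MP64.rvT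
  rcases x6 with ⟨x6, x6'⟩ | ⟨x6, x6'⟩
  · rw [if_pos x6]
    refine ⟨saw_rv x1, saw_rv x2, rv_disj x3, rv_head x6, rv_head x6', Or.inl ⟨rv_last x4,
      rv_last x5⟩, rv_box x7, rv_box x8, ?_⟩
    simp only [rv_length]
    exact x9
  · rw [if_neg (by rw [x6]; simp)]
    refine ⟨saw_rv x2, saw_rv x1, rv_disj (fun u hu v hv h => x3 v hv u hu h.symm), rv_head x6',
      rv_head x6, Or.inr ⟨rv_last x5, rv_last x4⟩, rv_box x8, rv_box x7, ?_⟩
    simp only [rv_length]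
    omega

theorem Tch.rvT {w : ℕ} {b : ℤ} {x : List V × List V} (hx : Tch x) : Tch (rvT w b x) := by
  have key : ∀ l : List V, (∃ v ∈ l, v.2 = 0) → ∃ v ∈ rv w l, v.2 = 0 := by
    rintro l ⟨v, hv, h0⟩
    refine ⟨rf ((w : ℤ) - 1) v, ?_, h0⟩
    rw [mem_rv, rf_rf]
    exact hv
  unfold MP64.rvT Tch at *
  split_ifs
  · rcases hx with hx | hx
    · exact Or.inl (key _ hx)
    · exact Or.inr (key _ hx)
  · rcases hx with hx | hx
    · exact Or.inr (key _ hx)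
    · exact Or.inl (key _ hx)

theorem rvT_inj {n w : ℕ} {a b : ℤ} {x x' : List V × List V} (hx : IsT n w a b x)
    (hx' : IsT n w a b x') (h : rvT w b x = rvT w b x') : x = x' := by
  unfold rvT at h
  split_ifs at h with h1 h2 h2
  · rw [Prod.mk.injEq] at h
    exact Prod.ext (rv_inj h.1) (rv_inj h.2)
  · rw [Prod.mk.injEq] at h
    have e1 := rv_inj h.1
    have e2 := hx.2.2.2.1
    have e3 := hx'.2.2.2.2.1
    rw [e1, e3] at e2
    simp at e2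
  · rw [Prod.mk.injEq] at h
    have e1 := rv_inj h.1
    have e2 := hx'.2.2.2.1
    have e3 := hx.2.2.2.2.1
    rw [← e1, e3] at e2
    simp at e2
  · rw [Prod.mk.injEq] at h
    exact Prod.ext (rv_inj h.2) (rv_inj h.1)

theorem Tt_symm_le (u : ℤ → ℝ≥0∞) (n w : ℕ) (a b : ℤ) : Tt u n w a b ≤ Tt u n w b a := by
  classical
  unfold Tt TT
  refine tsum_le_of_inj _ _ (fun x => rvT w b x) ?_ ?_
  · intro x x' h h' heq
    simp only [ne_eq, ite_eq_right_iff, not_forall] at h h' heq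
    exact rvT_inj h.1.1 h'.1.1 heq
  · intro x h
    simp only [ne_eq, ite_eq_right_iff, not_forall] at h
    have h1 := h.1
    simp only [h1, and_self, if_true]
    rw [if_pos ⟨h1.1.rvT, h1.2.rvT⟩]
    unfold rvT
    split_ifs
    · simp only [wt_rv]
      exact le_rfl
    · simp only [wt_rv]
      rw [mul_comm]

end Pool.Agent.Lib.MP64
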