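import Pool.Agent.Lib.MP_64d71c_pr.Kernel

set_option autoImplicit false

open scoped ENNReal
open List

namespace Pool.Agent.Lib.MP64

/-- Walks of at most `n` vertices starting at `(0,a)` and ending at height `b`. -/
def IsW (n : ℕ) (a b : ℤ) (l : List V) : Prop :=
  Saw l ∧ l.head? = some (0, a) ∧ (∃ x, l.getLast? = some (x, b)) ∧ l.length ≤ n

theorem exists_min_first {l : List V} (h : l ≠ []) : ∃ m : ℤ, (∃ v ∈ l, v.1 = m) ∧
    ∀ v ∈ l, m ≤ v.1 := by
  induction l with
  | nil => exact absurd rfl h
  | cons a l ih =>
    by_cases hl : l = []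
    · subst hl
      exact ⟨a.1, ⟨a, by simp⟩, by simp⟩
    · obtain ⟨m, ⟨v, hv, hvm⟩, hm⟩ := ih hl
      rcases le_total a.1 m with h1 | h1
      · refine ⟨a.1, ⟨a, by simp⟩, ?_⟩
        intro x hx
        rcases List.mem_cons.1 hx with rfl | hx
        · exact le_rfl
        · exact h1.trans (hm x hx)
      · refine ⟨m, ⟨v, by simp [hv], hvm⟩, ?_⟩
        intro x hx
        rcases List.mem_cons.1 hx with rfl | hx
        · exact h1
        · exact hm x hx

theorem W_le (u : ℤ → ℝ≥0∞) (n : ℕ) (a b : ℤ) :
    S u (IsW n a b) ≤ ∑' c, D u n c a * D u n c b := by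
  classical
  unfold D
  simp only [S_mul_S]
  rw [← ENNReal.tsum_prod (f := fun (c : ℤ) (x : List V × List V) =>
    if IsD n c a x.1 ∧ IsD n c b x.2 then wt u x.1 * wt u x.2 else 0)]
  refine S_le_of_surj _ (fun p : ℤ × (List V × List V) =>
    (p.2.1.reverse ++ p.2.2.map (tr 1 0)).map
      (tr (-((p.2.1.reverse ++ p.2.2.map (tr 1 0)).head?.getD (0,0)).1) 0)) ?_
  rintro l ⟨hs, hhead, ⟨x, hlast⟩, hlen⟩ -
  have hne : l ≠ [] := by rintro rfl; simp at hhead
  obtain ⟨m, hm, hmin⟩ := exists_min_first hne
  obtain ⟨l1, v, l2, rfl, hvw, hl2⟩ := exists_split_last (fun v : V => v.1 = m) l hm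
  have hassoc : l1 ++ v :: l2 = (l1 ++ [v]) ++ l2 := by simp
  -- distance bounds
  have hdist : ∀ y ∈ l1 ++ v :: l2, y.1 - m + 1 ≤ (n : ℤ) := by
    intro y hy
    -- m and y.1 both in the walk: the distance between them is at most length - 1
    have h1 : ∀ y ∈ l1 ++ [v], y.1 - m + 1 ≤ ((l1 ++ [v]).length : ℤ) := by
      intro y hy
      have hs1 := (saw_append.1 (hassoc ▸ hs)).1.reverse
      have h2 := chain_dist_mem hs1.1 v (by simp) y (by rw [List.mem_reverse]; exact hy)
      have h3 := le_abs_self (y.1 - v.1)
      have h4 := abs_nonneg (y.2 - v.2)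
      simp only [List.length_reverse] at h2
      omega
    have h2 : ∀ y ∈ v :: l2, y.1 - m + 1 ≤ ((v :: l2).length : ℤ) := by
      intro y hy
      have hs1 := (saw_append.1 hs).2.1
      have h2 := chain_dist_mem hs1.1 v (by simp) y hy
      have h3 := le_abs_self (y.1 - v.1)
      have h4 := abs_nonneg (y.2 - v.2)
      omega
    rcases List.mem_append.1 hy with hy | hy
    · have := h1 y (by simp [hy])
      simp only [List.length_append, List.length_cons, List.length_nil] at this hlen
      push_cast at this
      omega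
    · have := h2 y hy
      simp only [List.length_append, List.length_cons] at this hlen
      push_cast at this
      omega
  have hdist2 : ∀ y ∈ l2, y.1 - m + 1 ≤ (n : ℤ) := fun y hy => hdist y (by simp [hy])
  rw [hassoc] at hs hhead hlast hmin
  obtain ⟨hs1, hs2, hadj, hdisj⟩ := saw_append.1 hs
  have hA : IsD n v.2 a (((l1 ++ [v]).map (tr (-m) 0)).reverse) := by
    refine ⟨(hs1.map _ (tr_injective _ _) (tr_adj _ _)).reverse, ?_, Or.inr ⟨?_, -m, ?_⟩⟩
    · intro y hy
      rw [List.mem_reverse, List.mem_map] at hy
      obtain ⟨z, hz, rfl⟩ := hy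
      have e1 := hmin z (List.mem_append_left _ hz)
      have e2 := hdist z (by rw [hassoc]; exact List.mem_append_left _ hz)
      simp only [tr]
      omega
    · rw [List.head?_reverse, List.getLast?_map]
      simp [tr, hvw]
    · rw [List.getLast?_reverse, List.head?_map]
      rw [List.head?_append_of_ne_nil _ (by simp)] at hhead
      rw [hhead]
      simp [tr]
  have hB : IsD n v.2 b (l2.map (tr (-m - 1) 0)) := by
    refine ⟨hs2.map _ (tr_injective _ _) (tr_adj _ _), ?_, ?_⟩
    · intro y hy
      rw [List.mem_map] at hy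
      obtain ⟨z, hz, rfl⟩ := hy
      have e1 := hmin z (List.mem_append_right _ hz)
      have e2 := hdist2 z hz
      have e3 := hl2 z hz
      simp only [tr]
      omega
    · cases l2 with
      | nil =>
        left
        simp only [List.append_nil, List.getLast?_append, List.getLast?_singleton,
          Option.some_or, Option.some.injEq] at hlast
        simp [hlast]
      | cons c l2 =>
        right
        have e1 := hadj v (by simp) c (by simp)
        have e2 := hmin c (List.mem_append_right _ (by simp))
        have e3 := hl2 c (by simp)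
        have e4 := e1.cases
        have e5 : c = (m + 1, v.2) := by
          ext
          · simp only
            omega
          · simp only
            omega
        refine ⟨?_, x - m - 1, ?_⟩
        · simp [e5, tr]
        · rw [List.getLast?_map]
          rw [List.getLast?_append_of_ne_nil _ (by simp)] at hlast
          rw [hlast]
          simp only [tr, Option.map_some, add_zero]
          congr 2
          ring
  refine ⟨(v.2, (((l1 ++ [v]).map (tr (-m) 0)).reverse, l2.map (tr (-m - 1) 0))), ?_, ?_⟩
  · simp only [List.reverse_reverse]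
    rw [map_tr_map_tr]
    have e1 : (-m - 1 + 1 : ℤ) = -m := by ring
    have e2 : (0 + 0 : ℤ) = 0 := by ring
    rw [e1, e2, ← List.map_append, List.head?_map, hhead]
    simp only [Option.map_some, Option.getD_some, tr]
    have e3 := map_tr_map_tr (-m) 0 (-(0 + -m)) 0 ((l1 ++ [v]) ++ l2)
    have e4 : (-m + -(0 + -m) : ℤ) = 0 := by ring
    rw [e4, e2, map_tr_zero] at e3
    rw [← hassoc] at e3 ⊢
    convert e3 using 2
  · simp only
    rw [if_pos ⟨hA, hB⟩, wt_reverse, wt_map_tr0, wt_map_tr0, ← wt_append]
    simp

end Pool.Agent.Lib.MP64
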