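import Pool.Agent.Lib.MP_64d71c_pr.Fekete

set_option autoImplicit false

open scoped ENNReal
open List Filter Topology

namespace Pool.Agent.Lib.MP64

theorem cw_hw_upper (α : ℝ) {κ' : ℝ} (h : max k2 (la α) < κ') :
    ∃ C : ℝ, 1 ≤ C ∧ ∀ n : ℕ,
      cw (hw α) n ≤ ENNReal.ofReal (C * (n + 1) * Real.exp (κ' * n)) := by
  obtain ⟨C1, hC1, h1⟩ := cc_upper (lt_of_le_of_lt (le_max_left _ _) h)
  obtain ⟨C2, hC2, h2⟩ := lo_upper α (lt_of_le_of_lt (le_max_right _ _) h)
  refine ⟨C2 * C1, by nlinarith, ?_⟩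
  intro n
  have h1' : ∀ k : ℕ, cc' k ≤ ENNReal.ofReal (C1 * Real.exp (κ' * k)) := by
    intro k
    unfold cc'
    split_ifs with hk
    · subst hk
      simpa using hC1
    · exact h1 k
  refine (cw_hw_le α n).trans ?_
  have h3 : ∀ m ∈ Finset.range (n + 1), lo (hw α) m * cc' (n - m) ≤
      ENNReal.ofReal (C2 * C1 * Real.exp (κ' * n)) := by
    intro m hm
    have hm' : m ≤ n := by simpa [Nat.lt_succ_iff] using hm
    refine (mul_le_mul' (h2 m) (h1' (n - m))).trans ?_
    rw [← ENNReal.ofReal_mul (by positivity)]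
    refine ENNReal.ofReal_le_ofReal (le_of_eq ?_)
    rw [Nat.cast_sub hm']
    have : Real.exp (κ' * n) = Real.exp (κ' * m) * Real.exp (κ' * ((n : ℝ) - m)) := by
      rw [← Real.exp_add]
      congr 1
      ring
    rw [this]
    ring
  refine (Finset.sum_le_sum h3).trans ?_
  rw [Finset.sum_const, Finset.card_range, nsmul_eq_mul]
  rw [← ENNReal.ofReal_natCast, ← ENNReal.ofReal_mul (by positivity)]
  refine ENNReal.ofReal_le_ofReal (le_of_eq ?_)
  push_cast
  ring

theorem cw_ne_top (α : ℝ) (n : ℕ) : cw (hw α) n ≠ ⊤ :=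
  ne_top_of_le_ne_top ENNReal.ofReal_ne_top (cw_hw_le_pow α n)

theorem bb_ne_top (n : ℕ) : bb n ≠ ⊤ :=
  ne_top_of_le_ne_top ENNReal.ofReal_ne_top (bb_le_exp n)

theorem lb_ne_top (α : ℝ) (n : ℕ) : lb (hw α) n ≠ ⊤ :=
  ne_top_of_le_ne_top ENNReal.ofReal_ne_top (lb_le_exp α n)

theorem bb_toReal_pos {n : ℕ} (hn : 0 < n) : 0 < (bb n).toReal := by
  refine ENNReal.toReal_pos ?_ (bb_ne_top n)
  intro h
  have := le_bb n hn
  rw [h] at this
  simp at this

theorem lb_toReal_pos (α : ℝ) {n : ℕ} (hn : 0 < n) : 0 < (lb (hw α) n).toReal := by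
  refine ENNReal.toReal_pos ?_ (lb_ne_top α n)
  intro h
  have := le_lb (hw α) n hn
  rw [h, hw_zero, ← ENNReal.ofReal_pow (Real.exp_pos _).le] at this
  have h2 : 0 < ENNReal.ofReal ((Real.exp α) ^ n) := ENNReal.ofReal_pos.2 (by positivity)
  exact absurd this (not_le.2 h2)

theorem lb_succ_le (α : ℝ) (n : ℕ) :
    Real.log (lb (hw α) (n + 1)).toReal ≤ Real.log (cw (hw α) (n + 1)).toReal :=
  Real.log_le_log (lb_toReal_pos α (Nat.succ_pos n))
    (ENNReal.toReal_mono (cw_ne_top α _) (lb_le_cw _ _))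

theorem cw_toReal_pos (α : ℝ) (n : ℕ) : 0 < (cw (hw α) (n + 1)).toReal :=
  lt_of_lt_of_le (lb_toReal_pos α (Nat.succ_pos n))
    (ENNReal.toReal_mono (cw_ne_top α _) (lb_le_cw _ _))

theorem bb_succ_le (α : ℝ) {n : ℕ} (hn : 0 < n) :
    α + Real.log (bb n).toReal ≤ Real.log (cw (hw α) (n + 1)).toReal := by
  have h1 := ENNReal.toReal_mono (cw_ne_top α _) (le_cw_hw α n)
  rw [ENNReal.toReal_mul, ENNReal.toReal_ofReal (Real.exp_pos _).le] at h1
  have h2 := Real.log_le_log (mul_pos (Real.exp_pos _) (bb_toReal_pos hn)) h1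
  rwa [Real.log_mul (Real.exp_pos _).ne' (bb_toReal_pos hn).ne', Real.log_exp] at h2

theorem tendsto_log_succ_div : Tendsto (fun n : ℕ => Real.log ((n : ℝ) + 2) / n) atTop (𝓝 0) := by
  have h1 : Tendsto (fun x : ℝ => Real.log x / x) atTop (𝓝 0) := by
    simpa using Real.isLittleO_log_id_atTop.tendsto_div_nhds_zero
  have h2 : Tendsto (fun n : ℕ => (n : ℝ) + 2) atTop atTop :=
    tendsto_atTop_add_const_right _ _ tendsto_natCast_atTop_atTop
  have h3 := h1.comp h2
  have h4 : Tendsto (fun n : ℕ => ((n : ℝ) + 2) / n) atTop (𝓝 1) := by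
    have : Tendsto (fun n : ℕ => 1 + 2 / (n : ℝ)) atTop (𝓝 (1 + 0)) :=
      tendsto_const_nhds.add (tendsto_const_div_atTop_nhds_zero_nat 2)
    rw [add_zero] at this
    refine this.congr' ?_
    filter_upwards [eventually_gt_atTop 0] with n hn
    have : (n : ℝ) ≠ 0 := by exact_mod_cast hn.ne'
    field_simp
  have h5 := h3.mul h4
  rw [zero_mul] at h5
  refine h5.congr' ?_
  filter_upwards [eventually_gt_atTop 0] with n hn
  have : (n : ℝ) ≠ 0 := by exact_mod_cast hn.ne'
  have h6 : (n : ℝ) + 2 ≠ 0 := by positivity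
  simp only [Function.comp_apply]
  field_simp

theorem walk_limit (α : ℝ) :
    Tendsto (fun n : ℕ => (1 / (n : ℝ)) * Real.log (cw (hw α) (n + 1)).toReal) atTop
      (𝓝 (max k2 (la α))) := by
  rw [tendsto_order]
  constructor
  · intro a ha
    rcases lt_max_iff.1 ha with ha | ha
    · -- lower bound by bridges
      have h1 : Tendsto (fun n : ℕ => α / n + Real.log (bb n).toReal / n) atTop (𝓝 (0 + k2)) :=
        (tendsto_const_div_atTop_nhds_zero_nat α).add k2_tendsto
      rw [zero_add] at h1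
      filter_upwards [(tendsto_order.1 h1).1 a ha, eventually_gt_atTop 0] with n hn hn0
      refine hn.trans_le ?_
      have hn' : (0 : ℝ) < n := by exact_mod_cast hn0
      have h2 := bb_succ_le α hn0
      rw [← add_div, one_div, inv_mul_eq_div]
      gcongr
    · have h1 : Tendsto (fun n : ℕ => Real.log (lb (hw α) (n + 1)).toReal / ((n + 1 : ℕ) : ℝ))
          atTop (𝓝 (la α)) := (la_tendsto α).comp (tendsto_add_atTop_nat 1)
      have h2 : Tendsto (fun n : ℕ => ((n + 1 : ℕ) : ℝ) / n) atTop (𝓝 1) := by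
        have : Tendsto (fun n : ℕ => 1 + 1 / (n : ℝ)) atTop (𝓝 (1 + 0)) :=
          tendsto_const_nhds.add (tendsto_const_div_atTop_nhds_zero_nat 1)
        rw [add_zero] at this
        refine this.congr' ?_
        filter_upwards [eventually_gt_atTop 0] with n hn
        have : (n : ℝ) ≠ 0 := by exact_mod_cast hn.ne'
        push_cast
        field_simp
      have h3 := h1.mul h2
      rw [mul_one] at h3
      filter_upwards [(tendsto_order.1 h3).1 a ha, eventually_gt_atTop 0] with n hn hn0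
      refine hn.trans_le ?_
      have hn' : (0 : ℝ) < n := by exact_mod_cast hn0
      have h2 := lb_succ_le α n
      have h4 : ((n + 1 : ℕ) : ℝ) ≠ 0 := by positivity
      rw [div_mul_div_cancel₀ h4, one_div, inv_mul_eq_div]
      gcongr
  · intro a ha
    obtain ⟨κ', h1, h2⟩ := exists_between ha
    obtain ⟨C, hC, h3⟩ := cw_hw_upper α h1
    have hlim : Tendsto (fun n : ℕ => Real.log C / n + Real.log ((n : ℝ) + 2) / n +
        (κ' + κ' / n)) atTop (𝓝 (0 + 0 + (κ' + 0))) :=
      ((tendsto_const_div_atTop_nhds_zero_nat _).add tendsto_log_succ_div).add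
        (tendsto_const_nhds.add (tendsto_const_div_atTop_nhds_zero_nat _))
    simp only [zero_add, add_zero] at hlim
    filter_upwards [(tendsto_order.1 hlim).2 a h2, eventually_gt_atTop 0] with n hn hn0
    refine lt_of_le_of_lt ?_ hn
    have hn' : (0 : ℝ) < n := by exact_mod_cast hn0
    have h4 := ENNReal.toReal_le_of_le_ofReal (by positivity) (h3 (n + 1))
    have h5 := Real.log_le_log (cw_toReal_pos α n) h4
    have hCpos : 0 < C := by linarith
    rw [Real.log_mul (by positivity) (Real.exp_pos _).ne', Real.log_mul (by positivity)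
      (by positivity), Real.log_exp] at h5
    have e : (((n + 1 : ℕ) : ℝ) + 1) = (n : ℝ) + 2 := by push_cast; ring
    rw [e] at h5
    have h6 : Real.log C / n + Real.log ((n : ℝ) + 2) / n + (κ' + κ' / n) =
        (1 / (n : ℝ)) * (Real.log C + Real.log ((n : ℝ) + 2) + κ' * ((n + 1 : ℕ) : ℝ)) := by
      push_cast
      field_simp
    rw [h6]
    exact mul_le_mul_of_nonneg_left h5 (by positivity)

end Pool.Agent.Lib.MP64
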